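import Pool.Agent.Mg.F46f5abp.Gf0410d

/-! The two convex quadrilaterals attached to a pair of cancelling terms. -/

namespace Pool.Agent.MP_46f5ab_gt

open UpperHalfPlane MatrixGroups

/-- Lower left entry of the commutator `A B - B A`. -/
def com10 (A B : SL(2, ℝ)) : ℝ := (A * B) 1 0 - (B * A) 1 0

/-- Determinant of the commutator `A B - B A`. -/
def comDet (A B : SL(2, ℝ)) : ℝ :=
  -((A * B) 0 0 - (B * A) 0 0) ^ 2 - ((A * B) 0 1 - (B * A) 0 1) * ((A * B) 1 0 - (B * A) 1 0)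

/-- The axes of `A` and `B` cross, with sign `s`. -/
def Cross (s : ℝ) (A B : SL(2, ℝ)) : Prop := 0 < comDet A B ∧ 0 < s * com10 A B

lemma comDet_conj (K A B : SL(2, ℝ)) : comDet (K * A * K⁻¹) (K * B * K⁻¹) = comDet A B := by
  have h1 : K * A * K⁻¹ * (K * B * K⁻¹) = K * (A * B) * K⁻¹ := by group
  have h2 : K * B * K⁻¹ * (K * A * K⁻¹) = K * (B * A) * K⁻¹ := by group
  have h3 : (A * B) 1 1 - (B * A) 1 1 = -((A * B) 0 0 - (B * A) 0 0) := by
    simp only [mul_entry]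
    ring
  have h4 : (K 0 0 * K 1 1 - K 0 1 * K 1 0) ^ 2 = 1 := by rw [det_eq K]; norm_num
  unfold comDet
  rw [h1, h2]
  generalize A * B = P at *
  generalize B * A = Q at *
  simp only [mul_entry, inv00, inv01, inv10, inv11]
  have h5 : P 1 1 = Q 1 1 - (P 0 0 - Q 0 0) := by linarith
  rw [h5]
  linear_combination (-(P 0 0 - Q 0 0) ^ 2 - (P 0 1 - Q 0 1) * (P 1 0 - Q 1 0)) * h4

lemma Cross.conj {s : ℝ} {A B : SL(2, ℝ)} (h : Cross s A B) (K : SL(2, ℝ)) :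
    Cross s (K * A * K⁻¹) (K * B * K⁻¹) := by
  refine ⟨by rw [comDet_conj]; exact h.1, ?_⟩
  obtain ⟨hd, hs⟩ := h
  have h1 : K * A * K⁻¹ * (K * B * K⁻¹) = K * (A * B) * K⁻¹ := by group
  have h2 : K * B * K⁻¹ * (K * A * K⁻¹) = K * (B * A) * K⁻¹ := by group
  have h3 : (A * B) 1 1 - (B * A) 1 1 = -((A * B) 0 0 - (B * A) 0 0) := by
    simp only [mul_entry]
    ring
  have hK := det_eq K
  unfold comDet at hd
  unfold com10 at *
  rw [h1, h2]
  generalize A * B = P at *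
  generalize B * A = Q at *
  simp only [mul_entry, inv10, inv00]
  have h5 : P 1 1 = Q 1 1 - (P 0 0 - Q 0 0) := by linarith
  rw [h5]
  obtain ⟨a, ha⟩ : ∃ a, a = P 0 0 - Q 0 0 := ⟨_, rfl⟩
  obtain ⟨b, hb⟩ : ∃ b, b = P 0 1 - Q 0 1 := ⟨_, rfl⟩
  obtain ⟨c, hc⟩ : ∃ c, c = P 1 0 - Q 1 0 := ⟨_, rfl⟩
  rw [← ha, ← hb, ← hc] at hd
  rw [← hc] at hs
  have h6 : (K 1 0 * P 0 0 + K 1 1 * P 1 0) * K 1 1 +
      (K 1 0 * P 0 1 + K 1 1 * (Q 1 1 - (P 0 0 - Q 0 0))) * -K 1 0 -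
      ((K 1 0 * Q 0 0 + K 1 1 * Q 1 0) * K 1 1 + (K 1 0 * Q 0 1 + K 1 1 * Q 1 1) * -K 1 0) =
      2 * a * K 1 0 * K 1 1 - b * K 1 0 ^ 2 + c * K 1 1 ^ 2 := by
    rw [ha, hb, hc]
    ring
  rw [h6]
  have hc0 : c ≠ 0 := by
    rintro rfl
    simp at hs
  have h7 : 0 < c * (2 * a * K 1 0 * K 1 1 - b * K 1 0 ^ 2 + c * K 1 1 ^ 2) := by
    have h8 : c * (2 * a * K 1 0 * K 1 1 - b * K 1 0 ^ 2 + c * K 1 1 ^ 2) =
        (c * K 1 1 + a * K 1 0) ^ 2 + (-a ^ 2 - b * c) * K 1 0 ^ 2 := by ring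
    rw [h8]
    by_cases hr : K 1 0 = 0
    · have h9 : K 1 1 ≠ 0 := by
        intro h
        rw [hr, h] at hK
        simp at hK
      rw [hr]
      have := mul_ne_zero hc0 h9
      simp only [mul_zero, add_zero, ne_eq, OfNat.ofNat_ne_zero, not_false_eq_true, zero_pow]
      positivity
    · positivity
  have h10 : 0 < c ^ 2 := by positivity
  nlinarith [mul_pos hs h7]

lemma Cross.symm {s : ℝ} {A B : SL(2, ℝ)} (h : Cross s A B) : Cross (-s) B A := by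
  obtain ⟨h1, h2⟩ := h
  unfold comDet at h1
  unfold com10 at h2
  constructor
  · unfold comDet
    linarith
  · unfold com10
    linarith

lemma Cross.ne_comm {s : ℝ} {A B : SL(2, ℝ)} (h : Cross s A B) : A * B ≠ B * A := by
  intro h1
  have := h.2
  simp [com10, h1] at this

lemma comDet_eq {A B : SL(2, ℝ)} (h : tr A = tr B) :
    comDet A B = (tr (A * B⁻¹) - 2) * (tr A ^ 2 - 2 - tr (A * B⁻¹)) := by
  have hA := det_eq A
  have hB := det_eq B
  unfold comDet tr at *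
  simp only [mul_entry, inv00, inv01, inv10, inv11]
  have h1 : B 1 1 = A 0 0 + A 1 1 - B 0 0 := by linarith
  rw [h1] at hB ⊢
  linear_combination (4 * (B 0 0 * (A 0 0 + A 1 1 - B 0 0) - B 0 1 * B 1 0) - (A 0 0 + A 1 1) ^ 2) * hA
    + (4 - (A 0 0 + A 1 1) ^ 2) * hB

lemma Cross.tr_gt {s : ℝ} {A B : SL(2, ℝ)} (h : Cross s A B) (hAB : tr A = tr B) (hA : 2 < tr A) :
    2 < tr (A * B⁻¹) := by
  have h1 := h.1
  rw [comDet_eq hAB] at h1
  by_contra h2
  have h3 : tr (A * B⁻¹) - 2 ≤ 0 := by linarith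
  have h4 : 0 ≤ tr A ^ 2 - 2 - tr (A * B⁻¹) := by nlinarith
  nlinarith [mul_nonneg (neg_nonneg.2 h3) h4]

/-- The function that is non-negative inside a half circle of a nested family. -/
def rho (k ν : ℝ) (z : ℍ) : ℝ := ν ^ 2 + k * ν * z.re - nsq z

lemma exists_roots (k : ℝ) (z : ℍ) : ∃ u v : ℝ, 0 < u ∧ 0 < v ∧ u * v = nsq z ∧ v - u = k * z.re := by
  have hn := nsq_pos z
  set r := Real.sqrt ((k * z.re) ^ 2 + 4 * nsq z) with hr
  have hr2 : r ^ 2 = (k * z.re) ^ 2 + 4 * nsq z := Real.sq_sqrt (by positivity)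
  have h1 : |k * z.re| < r := Real.lt_sqrt_of_sq_lt (by rw [sq_abs]; linarith)
  have h2 := abs_lt.1 h1
  exact ⟨(r - k * z.re) / 2, (r + k * z.re) / 2, by linarith, by linarith, by nlinarith, by ring⟩

lemma rho_mono {k ν ν' : ℝ} {z : ℍ} (hν : 0 < ν) (h : ν ≤ ν') (h0 : 0 ≤ rho k ν z) :
    0 ≤ rho k ν' z := by
  obtain ⟨u, v, hu, hv, h1, h2⟩ := exists_roots k z
  have e : ∀ ν, rho k ν z = (ν - u) * (ν + v) := fun ν => by
    unfold rho
    linear_combination h1 - ν * h2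
  rw [e] at h0 ⊢
  have : 0 ≤ ν - u := nonneg_of_mul_nonneg_left h0 (by linarith)
  exact mul_nonneg (by linarith) (by linarith)

lemma rho_anti {k ν ν' : ℝ} {z : ℍ} (hν : 0 < ν) (h : ν ≤ ν') (h0 : rho k ν' z ≤ 0) :
    rho k ν z ≤ 0 := by
  obtain ⟨u, v, hu, hv, h1, h2⟩ := exists_roots k z
  have e : ∀ ν, rho k ν z = (ν - u) * (ν + v) := fun ν => by
    unfold rho
    linear_combination h1 - ν * h2
  rw [e] at h0 ⊢
  have : ν' - u ≤ 0 := by
    by_contra h3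
    have := mul_pos (not_le.1 h3) (show 0 < ν' + v by linarith)
    linarith
  exact mul_nonpos_of_nonpos_of_nonneg (by linarith) (by linarith)

lemma isCompact_box (R δ : ℝ) (hδ : 0 < δ) : IsCompact {z : ℍ | nsq z ≤ R ∧ δ ≤ z.im ^ 2} := by
  rw [isEmbedding_coe.isCompact_iff]
  have : ((↑) : ℍ → ℂ) '' {z : ℍ | nsq z ≤ R ∧ δ ≤ z.im ^ 2} =
      {w : ℂ | Complex.normSq w ≤ R ∧ Real.sqrt δ ≤ w.im} := by
    ext w
    constructor
    · rintro ⟨z, ⟨h1, h2⟩, rfl⟩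
      exact ⟨nsq_eq z ▸ h1, Real.sqrt_le_iff.2 ⟨z.im_pos.le, h2⟩⟩
    · rintro ⟨h1, h2⟩
      have h3 : 0 < w.im := (Real.sqrt_pos.2 hδ).trans_le h2
      exact ⟨⟨w, h3⟩, ⟨by rw [nsq_eq]; exact h1, (Real.sqrt_le_iff.1 h2).2⟩, rfl⟩
  rw [this]
  refine Metric.isCompact_of_isClosed_isBounded ?_ ?_
  · exact (isClosed_le Complex.continuous_normSq continuous_const).inter
      (isClosed_le continuous_const Complex.continuous_im)
  · refine (Metric.isBounded_closedBall (x := (0 : ℂ)) (r := Real.sqrt R)).subset fun w hw => ?_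
    rw [mem_closedBall_zero_iff]
    exact Real.le_sqrt_of_sq_le (by rw [Complex.sq_norm]; exact hw.1)

lemma continuous_rho (k ν : ℝ) : Continuous (rho k ν) := by
  unfold rho nsq
  fun_prop

lemma isCompact_rect {k l ν₁ ν₂ ν₃ ν₄ : ℝ} (hl : 1 < l) (hk : (l - 1) ^ 2 < k ^ 2 * l)
    (h1 : 0 < ν₁) (h2 : 0 < ν₂) (h3 : 0 < ν₃) (h4 : 0 < ν₄) (h23 : ν₂ ≤ l * ν₃) (h41 : ν₄ ≤ l * ν₁) :
    IsCompact {z : ℍ | 0 ≤ rho k ν₂ z ∧ rho k ν₁ z ≤ 0 ∧ rho (-k) ν₃ z ≤ 0 ∧ 0 ≤ rho (-k) ν₄ z} := by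
  have hk0 : 0 < k ^ 2 := by nlinarith [sq_nonneg (l - 1), sq_nonneg k]
  have hδ : 0 < ν₁ * ν₃ * (k ^ 2 * l - (l - 1) ^ 2) / (k ^ 2 * l) := by
    have : 0 < k ^ 2 * l - (l - 1) ^ 2 := by linarith
    positivity
  refine (isCompact_box (ν₂ * ν₄) _ hδ).of_isClosed_subset ?_ ?_
  · exact (isClosed_le continuous_const (continuous_rho _ _)).inter
      ((isClosed_le (continuous_rho _ _) continuous_const).inter
      ((isClosed_le (continuous_rho _ _) continuous_const).inter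
      (isClosed_le continuous_const (continuous_rho _ _))))
  rintro z ⟨a2, a1, a3, a4⟩
  obtain ⟨u, v, hu, hv, e1, e2⟩ := exists_roots k z
  have e : ∀ ν, rho k ν z = (ν - u) * (ν + v) := fun ν => by
    unfold rho
    linear_combination e1 - ν * e2
  have e' : ∀ ν, rho (-k) ν z = (ν - v) * (ν + u) := fun ν => by
    unfold rho
    linear_combination e1 + ν * e2
  rw [e] at a1 a2
  rw [e'] at a3 a4
  have b2 : u ≤ ν₂ := sub_nonneg.1 (nonneg_of_mul_nonneg_left a2 (by linarith))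
  have b4 : v ≤ ν₄ := sub_nonneg.1 (nonneg_of_mul_nonneg_left a4 (by linarith))
  have b1 : ν₁ ≤ u := by
    by_contra h
    have := mul_pos (sub_pos.2 (not_le.1 h)) (show 0 < ν₁ + v by linarith)
    linarith
  have b3 : ν₃ ≤ v := by
    by_contra h
    have := mul_pos (sub_pos.2 (not_le.1 h)) (show 0 < ν₃ + u by linarith)
    linarith
  refine ⟨by rw [← e1]; gcongr, ?_⟩
  have c1 : u ≤ l * v := b2.trans (h23.trans (by gcongr))
  have c2 : v ≤ l * u := b4.trans (h41.trans (by gcongr))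
  have c3 : l * (v - u) ^ 2 ≤ (l - 1) ^ 2 * (u * v) := by
    nlinarith [mul_nonneg (sub_nonneg.2 c1) (sub_nonneg.2 c2)]
  have c4 : ν₁ * ν₃ ≤ u * v := by gcongr
  have c5 : k ^ 2 * z.im ^ 2 = k ^ 2 * (u * v) - (v - u) ^ 2 := by
    rw [e1, e2]
    unfold nsq
    ring
  rw [div_le_iff₀ (by positivity)]
  have c6 : ν₁ * ν₃ * (k ^ 2 * l - (l - 1) ^ 2) ≤ u * v * (k ^ 2 * l - (l - 1) ^ 2) := by
    have : 0 ≤ k ^ 2 * l - (l - 1) ^ 2 := by linarith
    gcongr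
  have c7 : z.im ^ 2 * (k ^ 2 * l) = l * (k ^ 2 * (u * v) - (v - u) ^ 2) := by
    rw [← c5]
    ring
  rw [c7]
  nlinarith

/-- The conclusion of the configuration lemma. -/
structure Config (s : ℝ) (A B A' B' : SL(2, ℝ)) : Prop where
  k1 : IsCompact {z : ℍ | 0 ≤ s * sig A z ∧ 0 ≤ s * sig B' z ∧ 0 ≤ -s * sig B z ∧ 0 ≤ -s * sig A' z}
  k2 : IsCompact {z : ℍ | 0 ≤ -s * sig A z ∧ 0 ≤ -s * sig (A * B⁻¹ * B' * (A * B⁻¹)⁻¹) z ∧
    0 ≤ s * sig (A * B * A⁻¹) z ∧ 0 ≤ s * sig A' z}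
  onA : ∀ z, sig A z = 0 → 0 ≤ s * sig B' z ∧ 0 ≤ -s * sig (A * B⁻¹ * B' * (A * B⁻¹)⁻¹) z
  pt : ∃ P, sig A P = 0 ∧ sig B P = 0 ∧ 0 ≤ s * sig (A * B * A⁻¹) P ∧ 0 ≤ -s * sig B (A • P)
  ne : A' ≠ A

lemma Config.of_conj {s : ℝ} {A B A' B' : SL(2, ℝ)} (K : SL(2, ℝ))
    (h : Config s (K * A * K⁻¹) (K * B * K⁻¹) (K * A' * K⁻¹) (K * B' * K⁻¹)) :
    Config s A B A' B' := by
  have e1 : K * A * K⁻¹ * (K * B * K⁻¹)⁻¹ * (K * B' * K⁻¹) * (K * A * K⁻¹ * (K * B * K⁻¹)⁻¹)⁻¹ =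
      K * (A * B⁻¹ * B' * (A * B⁻¹)⁻¹) * K⁻¹ := by group
  have e2 : K * A * K⁻¹ * (K * B * K⁻¹) * (K * A * K⁻¹)⁻¹ = K * (A * B * A⁻¹) * K⁻¹ := by group
  obtain ⟨k1, k2, onA, ⟨P, p1, p2, p3, p4⟩, ne⟩ := h
  rw [e1] at k2 onA
  rw [e2] at k2 p3
  refine ⟨?_, ?_, fun z hz => ?_, ⟨K⁻¹ • P, ?_, ?_, ?_, ?_⟩, fun h => ne (by rw [h])⟩
  · have := (Homeomorph.smul K).isCompact_preimage.2 k1
    simpa only [Set.preimage_ofPred_eq, Homeomorph.smul_apply, sig_conj] using this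
  · have := (Homeomorph.smul K).isCompact_preimage.2 k2
    simpa only [Set.preimage_ofPred_eq, Homeomorph.smul_apply, sig_conj] using this
  · have := onA (K • z) (by rwa [sig_conj])
    simpa only [sig_conj] using this
  · rwa [← sig_conj K, smul_inv_smul]
  · rwa [← sig_conj K, smul_inv_smul]
  · rwa [← sig_conj K, smul_inv_smul]
  · rw [← sig_conj K, ← mul_smul, ← mul_smul]
    exact p4

lemma sig_of_entries {M : SL(2, ℝ)} {c k ν : ℝ} (h10 : M 1 0 = c) (h01 : M 0 1 = c * ν ^ 2)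
    (hd : M 0 0 - M 1 1 = c * (k * ν)) (z : ℍ) : sig M z = c / z.im * rho k ν z := by
  unfold sig rho
  rw [h10, h01, hd]
  ring

lemma nonneg_mul_iff {s c y r : ℝ} (hy : 0 < y) (h : 0 < s * c) : 0 ≤ s * (c / y * r) ↔ 0 ≤ r := by
  have : s * (c / y * r) = (s * c / y) * r := by ring
  rw [this]
  exact mul_nonneg_iff_of_pos_left (by positivity)

lemma nonneg_mul_iff' {s c y r : ℝ} (hy : 0 < y) (h : s * c < 0) :
    0 ≤ s * (c / y * r) ↔ r ≤ 0 := by
  have : s * (c / y * r) = (-s) * (c / y * (-r)) := by ring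
  rw [this, nonneg_mul_iff hy (by linarith), neg_nonneg]

lemma config_normal {l p μ μ' c c' k s : ℝ} (hl : 1 < l) (hμ : 0 < μ) (hμ' : 0 < μ')
    (hsc : 0 < s * c) (hsc' : s * c' < 0) (hk : (l - 1) ^ 2 < k ^ 2 * l)
    (h1 : μ ≤ l * μ') (h2 : μ' ≤ l * μ) {B B' : SL(2, ℝ)}
    (b00 : B 0 0 = p) (b11 : B 1 1 = l * p) (b10 : B 1 0 = c) (b01 : B 0 1 = c * μ ^ 2)
    (b00' : B' 0 0 = p) (b11' : B' 1 1 = l * p) (b10' : B' 1 0 = c') (b01' : B' 0 1 = c' * μ' ^ 2)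
    (hkc : (l - 1) * p = c * (k * μ)) (hkc' : (l - 1) * p = -(c' * (k * μ'))) :
    Config s (diag l (by linarith) * B) B (diag l (by linarith) * B') B' := by
  have hl0 : 0 < l := by linarith
  set D := diag l hl0 with hD
  have d00 : D 0 0 = l := rfl
  have d01 : D 0 1 = 0 := rfl
  have d10 : D 1 0 = 0 := rfl
  have d11 : D 1 1 = l⁻¹ := rfl
  have e1 : D * B * B⁻¹ * B' * (D * B * B⁻¹)⁻¹ = D * B' * D⁻¹ := by group
  have e2 : D * B * B * (D * B)⁻¹ = D * B * D⁻¹ := by group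
  have sA : ∀ z, sig (D * B) z = c / l / z.im * rho k (l * μ) z := by
    refine sig_of_entries ?_ ?_ ?_ <;> simp only [mul_entry, d00, d01, d10, d11, b00, b01, b10, b11]
    · field_simp
      ring
    · field_simp
      ring
    · field_simp
      linear_combination hkc
  have sB : ∀ z, sig B z = c / z.im * rho (-k) μ z :=
    sig_of_entries b10 b01 (by rw [b00, b11]; linear_combination -hkc)
  have sA' : ∀ z, sig (D * B') z = c' / l / z.im * rho (-k) (l * μ') z := by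
    refine sig_of_entries ?_ ?_ ?_ <;>
      simp only [mul_entry, d00, d01, d10, d11, b00', b01', b10', b11']
    · field_simp
      ring
    · field_simp
      ring
    · field_simp
      linear_combination hkc'
  have sB' : ∀ z, sig B' z = c' / z.im * rho k μ' z :=
    sig_of_entries b10' b01' (by rw [b00', b11']; linear_combination -hkc')
  have sCB : ∀ z, sig (D * B * D⁻¹) z = c / l ^ 2 / z.im * rho (-k) (l ^ 2 * μ) z := by
    refine sig_of_entries ?_ ?_ ?_ <;>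
      simp only [mul_entry, inv00, inv01, inv10, inv11, d00, d01, d10, d11, b00, b01, b10, b11]
    · field_simp
      ring
    · field_simp
      ring
    · field_simp
      linear_combination (-l) * hkc
  have sCB' : ∀ z, sig (D * B' * D⁻¹) z = c' / l ^ 2 / z.im * rho k (l ^ 2 * μ') z := by
    refine sig_of_entries ?_ ?_ ?_ <;>
      simp only [mul_entry, inv00, inv01, inv10, inv11, d00, d01, d10, d11, b00', b01', b10', b11']
    · field_simp
      ring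
    · field_simp
      ring
    · field_simp
      linear_combination (-l) * hkc'
  have p1 : 0 < s * (c / l) := by rw [← mul_div_assoc]; positivity
  have p2 : 0 < s * (c / l ^ 2) := by rw [← mul_div_assoc]; positivity
  have p3 : 0 < -s * c' := by linarith
  have p4 : 0 < -s * (c' / l) := by rw [← mul_div_assoc]; positivity
  have p5 : 0 < -s * (c' / l ^ 2) := by rw [← mul_div_assoc]; positivity
  have iA : ∀ z, 0 ≤ s * sig (D * B) z ↔ 0 ≤ rho k (l * μ) z := fun z => by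
    rw [sA, nonneg_mul_iff z.im_pos p1]
  have iA2 : ∀ z, 0 ≤ -s * sig (D * B) z ↔ rho k (l * μ) z ≤ 0 := fun z => by
    rw [sA, nonneg_mul_iff' z.im_pos (by linarith)]
  have iB : ∀ z, 0 ≤ -s * sig B z ↔ rho (-k) μ z ≤ 0 := fun z => by
    rw [sB, nonneg_mul_iff' z.im_pos (by linarith)]
  have iA' : ∀ z, 0 ≤ -s * sig (D * B') z ↔ 0 ≤ rho (-k) (l * μ') z := fun z => by
    rw [sA', nonneg_mul_iff z.im_pos p4]
  have iA'2 : ∀ z, 0 ≤ s * sig (D * B') z ↔ rho (-k) (l * μ') z ≤ 0 := fun z => by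
    rw [sA', nonneg_mul_iff' z.im_pos (by linarith)]
  have iB' : ∀ z, 0 ≤ s * sig B' z ↔ rho k μ' z ≤ 0 := fun z => by
    rw [sB', nonneg_mul_iff' z.im_pos hsc']
  have iCB : ∀ z, 0 ≤ s * sig (D * B * D⁻¹) z ↔ 0 ≤ rho (-k) (l ^ 2 * μ) z := fun z => by
    rw [sCB, nonneg_mul_iff z.im_pos p2]
  have iCB' : ∀ z, 0 ≤ -s * sig (D * B' * D⁻¹) z ↔ 0 ≤ rho k (l ^ 2 * μ') z := fun z => by
    rw [sCB', nonneg_mul_iff z.im_pos p5]
  have hc0 : c ≠ 0 := by
    rintro rfl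
    simp at hsc
  have hk0 : k ≠ 0 := by
    rintro rfl
    nlinarith [sq_nonneg (l - 1)]
  refine ⟨?_, ?_, fun z hz => ?_, ?_, fun h => ?_⟩
  · simp only [iA, iB', iB, iA']
    exact isCompact_rect hl hk hμ' (by positivity) hμ (by positivity) le_rfl le_rfl
  · simp only [e1, e2, iA2, iCB', iCB, iA'2]
    have := isCompact_rect (ν₁ := l * μ) (ν₂ := l ^ 2 * μ') (ν₃ := l * μ') (ν₄ := l ^ 2 * μ) hl hk
      (by positivity) (by positivity) (by positivity) (by positivity) (by nlinarith) (by nlinarith)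
    convert this using 2
    funext z
    apply propext
    tauto
  · rw [e1, iB', iCB']
    have h3 := (iA z).1 (by rw [hz, mul_zero])
    have h4 := (iA2 z).1 (by rw [hz, mul_zero])
    exact ⟨rho_anti hμ' h2 h4, rho_mono (by positivity) (by nlinarith) h3⟩
  · have hy : 0 < l * μ ^ 2 - ((1 - l) * μ / k) ^ 2 := by
      have : l * μ ^ 2 - ((1 - l) * μ / k) ^ 2 = μ ^ 2 * (k ^ 2 * l - (l - 1) ^ 2) / k ^ 2 := by
        field_simp
        ring
      rw [this]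
      have : 0 < k ^ 2 * l - (l - 1) ^ 2 := by linarith
      positivity
    let P : ℍ := ⟨⟨(1 - l) * μ / k, Real.sqrt (l * μ ^ 2 - ((1 - l) * μ / k) ^ 2)⟩,
      Real.sqrt_pos.2 hy⟩
    have hre : P.re = (1 - l) * μ / k := rfl
    have hn : nsq P = l * μ ^ 2 := by
      have him : P.im ^ 2 = l * μ ^ 2 - ((1 - l) * μ / k) ^ 2 := Real.sq_sqrt hy.le
      unfold nsq
      rw [him, hre]
      ring
    have r1 : rho k (l * μ) P = 0 := by
      unfold rho
      rw [hn, hre]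
      field_simp
      ring
    have r2 : rho (-k) μ P = 0 := by
      unfold rho
      rw [hn, hre]
      field_simp
      ring
    have hB0 : sig B P = 0 := by rw [sB, r2, mul_zero]
    have hle : μ ≤ l ^ 2 * μ := by nlinarith [mul_pos hμ (show 0 < l ^ 2 - 1 by nlinarith)]
    refine ⟨P, by rw [sA, r1, mul_zero], hB0, ?_, ?_⟩
    · rw [e2, iCB]
      exact rho_mono hμ hle r2.ge
    · rw [iB]
      have h3 := sig_conj (D * B) B P
      rw [hB0, e2, sCB] at h3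
      have h4 : rho (-k) (l ^ 2 * μ) ((D * B) • P) = 0 := by
        refine (mul_eq_zero.1 h3).resolve_left ?_
        have := ((D * B) • P).im_ne_zero
        positivity
      exact rho_anti hμ hle h4.le
  · have h3 : B' = B := mul_left_cancel h
    rw [h3, b10] at b10'
    rw [b10'] at hsc
    linarith

lemma entries_of_cross {l : ℝ} (hl : 1 < l) {B : SL(2, ℝ)} {s : ℝ}
    (htr : tr (diag l (by linarith) * B) = tr B) (h2 : 2 < tr B)
    (hc : Cross s (diag l (by linarith) * B) B) :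
    B 0 0 = tr B / (1 + l) ∧ B 1 1 = l * (tr B / (1 + l)) ∧ 0 < B 0 1 * B 1 0 ∧ s * B 1 0 < 0 := by
  have hl0 : 0 < l := by linarith
  set D := diag l hl0 with hD
  have d00 : D 0 0 = l := rfl
  have d01 : D 0 1 = 0 := rfl
  have d10 : D 1 0 = 0 := rfl
  have d11 : D 1 1 = l⁻¹ := rfl
  have h11 : B 1 1 = l * B 0 0 := by
    unfold tr at htr
    simp only [mul_entry, d00, d01, d10, d11] at htr
    field_simp at htr
    have : (l - 1) * (B 1 1 - l * B 0 0) = 0 := by linarith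
    rcases mul_eq_zero.1 this with h | h <;> linarith
  have h00 : B 0 0 = tr B / (1 + l) := by
    unfold tr
    rw [h11]
    field_simp
  have hp : 0 < B 0 0 := by rw [h00]; positivity
  have hdet := det_eq B
  have e1 : com10 (D * B) B = -((l - l⁻¹) * B 0 0) * B 1 0 * ((1 + l) / (1 + l)) := by
    unfold com10
    simp only [mul_entry, d00, d01, d10, d11, h11]
    field_simp
    ring
  have e2 : comDet (D * B) B = (l - l⁻¹) ^ 2 * (B 0 1 * B 1 0) := by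
    unfold comDet
    simp only [mul_entry, d00, d01, d10, d11]
    linear_combination ((l - l⁻¹) ^ 2 * (B 0 1 * B 1 0)) * hdet
  have hll : 0 < l - l⁻¹ := by
    have := inv_lt_one_of_one_lt₀ hl
    linarith
  refine ⟨h00, by rw [h11, ← h00], ?_, ?_⟩
  · have := hc.1
    rw [e2] at this
    exact (mul_pos_iff_of_pos_left (by positivity)).1 this
  · have := hc.2
    rw [e1, div_self (by positivity)] at this
    nlinarith [mul_pos hll hp]

lemma diag_mul {l m : ℝ} (hl : 0 < l) (hm : 0 < m) :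
    diag l hl * diag m hm = diag (l * m) (mul_pos hl hm) := by
  refine SL_ext ?_ ?_ ?_ ?_ <;> simp [mul_entry, diag, mul_comm]

lemma diag_one : diag 1 one_pos = 1 := by
  refine SL_ext ?_ ?_ ?_ ?_ <;> simp [diag]

lemma diag_inv {l : ℝ} (hl : 0 < l) : (diag l hl)⁻¹ = diag l⁻¹ (inv_pos.2 hl) := by
  refine SL_ext ?_ ?_ ?_ ?_ <;> simp [diag, inv00, inv01, inv10, inv11]

lemma diag_zpow {l : ℝ} (hl : 0 < l) (j : ℤ) : diag l hl ^ j = diag (l ^ j) (zpow_pos hl j) := by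
  induction j using Int.induction_on with
  | zero => simpa using diag_one.symm
  | succ j ih => simp only [zpow_add_one, ih, diag_mul, zpow_add_one₀ hl.ne']
  | pred j ih => simp only [zpow_sub_one, ih, diag_inv, diag_mul, zpow_sub_one₀ hl.ne']

theorem exists_config {s : ℝ} {A B A' B' : SL(2, ℝ)} (h2 : 2 < tr A) (hB : tr B = tr A)
    (hA' : tr A' = tr A) (hB' : tr B' = tr A) (hC : A * B⁻¹ = A' * B'⁻¹) (hc : Cross s A B)
    (hc' : Cross (-s) A' B') : ∃ j : ℤ, Config (-s) A B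
      ((A * B⁻¹) ^ j * A' * ((A * B⁻¹) ^ j)⁻¹) ((A * B⁻¹) ^ j * B' * ((A * B⁻¹) ^ j)⁻¹) := by
  obtain ⟨K, l, hl, hK⟩ := exists_diag _ (hc.tr_gt hB.symm h2)
  have hl0 : 0 < l := by linarith
  set D := diag l hl0 with hD
  obtain ⟨E, hE⟩ : ∃ E, E = K * B * K⁻¹ := ⟨_, rfl⟩
  obtain ⟨E', hE'⟩ : ∃ E', E' = K * B' * K⁻¹ := ⟨_, rfl⟩
  have hA1 : K * A * K⁻¹ = D * E := by rw [← hK, hE]; group
  have hA2 : K * A' * K⁻¹ = D * E' := by rw [← hK, hE', hC]; group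
  have tE : tr E = tr A := by rw [hE, tr_conj, hB]
  have tE' : tr E' = tr A := by rw [hE', tr_conj, hB']
  obtain ⟨a1, a2, a3, a4⟩ := entries_of_cross (s := s) (B := E) hl
    (by rw [← hA1, tr_conj, tE]) (by rwa [tE]) (by rw [← hA1, hE]; exact hc.conj K)
  obtain ⟨b1, b2, b3, b4⟩ := entries_of_cross (s := -s) (B := E') hl
    (by rw [← hA2, tr_conj, tE', hA']) (by rwa [tE']) (by rw [← hA2, hE']; exact hc'.conj K)
  rw [tE] at a1 a2
  rw [tE'] at b1 b2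
  obtain ⟨p, hp⟩ : ∃ p, p = tr A / (1 + l) := ⟨_, rfl⟩
  rw [← hp] at a1 a2 b1 b2
  have hc0 : E 1 0 ≠ 0 := fun h => by simp [h] at a3
  have hc0' : E' 1 0 ≠ 0 := fun h => by simp [h] at b3
  have q1 : 0 < E 0 1 / E 1 0 := by
    have : E 0 1 / E 1 0 = E 0 1 * E 1 0 / E 1 0 ^ 2 := by field_simp
    rw [this]
    positivity
  have q2 : 0 < E' 0 1 / E' 1 0 := by
    have : E' 0 1 / E' 1 0 = E' 0 1 * E' 1 0 / E' 1 0 ^ 2 := by field_simp
    rw [this]
    positivity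
  obtain ⟨μ, hμ, hμ2⟩ : ∃ μ : ℝ, 0 < μ ∧ μ ^ 2 = E 0 1 / E 1 0 :=
    ⟨_, Real.sqrt_pos.2 q1, Real.sq_sqrt q1.le⟩
  obtain ⟨ν, hν, hν2⟩ : ∃ ν : ℝ, 0 < ν ∧ ν ^ 2 = E' 0 1 / E' 1 0 :=
    ⟨_, Real.sqrt_pos.2 q2, Real.sq_sqrt q2.le⟩
  have e01 : E 0 1 = E 1 0 * μ ^ 2 := by rw [hμ2]; field_simp
  have e01' : E' 0 1 = E' 1 0 * ν ^ 2 := by rw [hν2]; field_simp
  have dE := det_eq E
  have dE' := det_eq E'
  rw [a1, a2, e01] at dE
  rw [b1, b2, e01'] at dE'
  have hopp : E' 1 0 * ν = -(E 1 0 * μ) := by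
    have h1 : (E' 1 0 * ν - E 1 0 * μ) * (E' 1 0 * ν + E 1 0 * μ) = 0 := by
      linear_combination dE - dE'
    rcases mul_eq_zero.1 h1 with h | h
    · exfalso
      have h3 : s * E' 1 0 * ν = s * E 1 0 * μ := by linear_combination s * h
      nlinarith [mul_pos hν (show 0 < s * E' 1 0 by linarith), mul_pos hμ (neg_pos.2 a4)]
    · linarith
  obtain ⟨j, hj1, hj2⟩ := exists_mem_Ioc_zpow (x := l * μ / ν) (y := l ^ 2) (by positivity)
    (by nlinarith)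
  refine ⟨j, Config.of_conj K ?_⟩
  obtain ⟨m, hm⟩ : ∃ m, m = l ^ j := ⟨_, rfl⟩
  have hm0 : 0 < m := hm ▸ zpow_pos hl0 j
  have hm2 : (l ^ 2) ^ j = m ^ 2 := by
    rw [hm, ← zpow_natCast, ← zpow_natCast, ← zpow_mul, ← zpow_mul, mul_comm]
  rw [zpow_add_one₀ (by positivity), hm2, div_le_iff₀ hν] at hj2
  rw [hm2, lt_div_iff₀ hν] at hj1
  have hpow : K * (A * B⁻¹) ^ j * K⁻¹ = diag m hm0 := by
    rw [← conj_zpow, hK, hD, diag_zpow]
    simp only [hm]
  have hcomm : diag m hm0 * D = D * diag m hm0 := by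
    simp only [hD, diag_mul, mul_comm]
  have f1 : K * ((A * B⁻¹) ^ j * B' * ((A * B⁻¹) ^ j)⁻¹) * K⁻¹ =
      diag m hm0 * E' * (diag m hm0)⁻¹ := by
    rw [← hpow, hE']
    group
  have f2 : K * ((A * B⁻¹) ^ j * A' * ((A * B⁻¹) ^ j)⁻¹) * K⁻¹ =
      D * (diag m hm0 * E' * (diag m hm0)⁻¹) := by
    rw [← mul_assoc D, ← mul_assoc D, ← hcomm, mul_assoc _ D, ← hA2, ← hpow]
    group
  rw [f1, f2, hA1, ← hE]
  have hcμ : E 1 0 * μ ≠ 0 := mul_ne_zero hc0 hμ.ne'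
  refine config_normal (p := p) (μ := μ) (μ' := m ^ 2 * ν) (c := E 1 0) (c' := E' 1 0 / m ^ 2)
    (k := (l - 1) * p / (E 1 0 * μ)) hl hμ (by positivity) (by linarith) ?_ ?_ ?_ hj1.le
    a1 a2 rfl e01 ?_ ?_ ?_ ?_ ?_ ?_
  · rw [← mul_div_assoc]
    exact div_neg_of_neg_of_pos b4 (by positivity)
  · rw [div_pow, div_mul_eq_mul_div, lt_div_iff₀ (by positivity)]
    have : 0 < (l - 1) ^ 2 := by
      have : 0 < l - 1 := by linarith
      positivity
    nlinarith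
  · nlinarith
  · simp only [mul_entry, diag, inv00, inv10, mkSL00, mkSL01, mkSL10, mkSL11, b1]
    field_simp
    ring
  · simp only [mul_entry, diag, inv01, inv11, mkSL00, mkSL01, mkSL10, mkSL11, b2]
    field_simp
    ring
  · simp only [mul_entry, diag, inv00, inv10, mkSL00, mkSL01, mkSL10, mkSL11]
    field_simp
    ring
  · simp only [mul_entry, diag, inv01, inv11, mkSL00, mkSL01, mkSL10, mkSL11, e01']
    field_simp
    ring
  · field_simp
  · field_simp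
    linear_combination (l - 1) * p * hopp

end Pool.Agent.MP_46f5ab_gt
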