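import Pool.Agent.Mg.F46f5abp.Gf0410d

/-! The highest line cannot be a side of a finite convex region whose other sides are lower. -/

namespace Pool.Agent.MP_46f5ab_gt

open MulAction

variable {G Ω : Type*} [Group G] [MulAction G Ω]

/-- `X` is an intersection of half planes bounded by translates of the line `v`; the line itself is
one side, and the other sides are translates by elements with the property `good`. -/
structure Quad (v : ℤ → Ω) (n : ℕ) (good : G → Prop) (X : Set Ω) : Prop where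
  fin : {p : G × Fin n | p.1 • v p.2 ∈ X}.Finite
  ex : ∃ (Hp : Option (Fin 3) → Set Ω) (gs : Option (Fin 3) → G), X = ⋂ j, Hp j ∧
    (∀ (g : G) j, (∀ i i', i ≤ i' → g • v i ∈ Hp j → g • v i' ∈ Hp j) ∨
      (∀ i i', i ≤ i' → g • v i' ∈ Hp j → g • v i ∈ Hp j)) ∧
    (∀ (g : G) j i, g • v i ∈ Hp j → g • v (i + 1) ∉ Hp j → ∃ i', g • v i = gs j • v i') ∧
    (∀ (g : G) j i, g • v i ∈ Hp j → g • v (i - 1) ∉ Hp j → ∃ i', g • v i = gs j • v i') ∧
    (∀ i, v i ∈ Hp none) ∧ ∀ j, good (gs (some j))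

lemma exists_equivariant (hfree : ∀ (g : G) (x : Ω), g • x = x → g = 1) (H : Subgroup G)
    (φ : G → ℝ) (hφ : ∀ a ∈ H, ∀ b ∈ H, φ (a * b) = φ a + φ b) :
    ∃ f : Ω → ℝ, ∀ h ∈ H, ∀ x, f (h • x) = φ h + f x := by
  have hex : ∀ x : Ω, ∃ g : H, (g : G) • (Quotient.mk (orbitRel H Ω) x).out = x := by
    intro x
    have : (orbitRel H Ω) x (Quotient.mk (orbitRel H Ω) x).out :=
      (orbitRel H Ω).symm (Quotient.mk_out x)
    obtain ⟨g, hg⟩ := this
    exact ⟨g, hg⟩
  choose k hk using hex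
  refine ⟨fun x => φ (k x), fun h hh x => ?_⟩
  have h1 : Quotient.mk (orbitRel H Ω) (h • x) = Quotient.mk (orbitRel H Ω) x :=
    Quotient.sound ⟨⟨h, hh⟩, rfl⟩
  have h2 : (k (h • x) : G) = h * k x := by
    have h3 := hk (h • x)
    rw [h1] at h3
    have h4 : ((h * k x)⁻¹ * k (h • x)) • (Quotient.mk (orbitRel H Ω) x).out =
        (Quotient.mk (orbitRel H Ω) x).out := by
      rw [mul_smul, h3, inv_smul_eq_iff, mul_smul, hk]
    have := hfree _ _ h4
    exact (inv_mul_eq_one.1 this).symm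
  simp only [h2]
  exact hφ h hh _ (k x).2

lemma line_shift {β : G} {n : ℕ} {v : ℤ → Ω} (hv : ∀ i, v (i + n) = β • v i) (m i : ℤ) :
    v (i + n * m) = β ^ m • v i := by
  induction m using Int.induction_on generalizing i with
  | zero => simp
  | succ m ih =>
    rw [zpow_add_one, mul_smul, ← hv, ← ih]
    congr 1
    ring
  | pred m ih =>
    have h1 := hv (i - n)
    rw [sub_add_cancel] at h1
    have h2 : β⁻¹ • v i = v (i - n) := by rw [h1, inv_smul_smul]
    rw [zpow_sub_one, mul_smul, h2, ← ih]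
    congr 1
    ring

/-- The weighted count of cut edges is negative when only the base line meets `D`. -/
lemma quad_sum_neg {β : G} (hβ : Function.Injective fun m : ℤ => β ^ m) {n : ℕ} (hn : 0 < n)
    {v : ℤ → Ω} (hv : ∀ i, v (i + n) = β • v i) {good : G → Prop} {X : Set Ω}
    (hX : Quad v n good X) (D : Set Ω) (hDX : D ⊆ X)
    (hgood : ∀ g, good g → ∀ i, g • v i ∉ D) (hD : ∃ i, v i ∈ D)
    (κ : G × Fin n → ℝ) (hκ1 : ∀ e, κ e ≤ 1)
    (hκ0 : ∀ e : G × Fin n, (e.1 • v e.2 ∈ D ↔ e.1 • v (e.2 + 1) ∈ D) → κ e = 0)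
    (hκm : ∀ e : G × Fin n, e.1 • v e.2 ∈ X → e.1 • v (e.2 + 1) ∈ X →
      ¬ (e.1 • v e.2 ∈ D ↔ e.1 • v (e.2 + 1) ∈ D) → κ e ≤ -1)
    (E1 : Finset (G × Fin n)) (hE1 : ∀ e : G × Fin n, e.1 • v e.2 ∈ D ∨ e.1 • v (e.2 + 1) ∈ D →
      e ∈ E1) : ∑ e ∈ E1, κ e < 0 := by
  classical
  obtain ⟨Hp, gs, hXeq, hmono, hcr, hcr', hown, hgs⟩ := hX.ex
  have hn' : (0 : ℤ) < n := by exact_mod_cast hn
  let rem : ℤ → Fin n := fun i => ⟨(i % n).toNat, by
    have h1 := Int.emod_nonneg i hn'.ne'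
    have h2 := Int.emod_lt_of_pos i hn'
    omega⟩
  have hrem : ∀ i, ((rem i : ℕ) : ℤ) = i % n := fun i =>
    Int.toNat_of_nonneg (Int.emod_nonneg i hn'.ne')
  let ψ : G → ℤ → G × Fin n := fun g i => (g * β ^ (i / n), rem i)
  have hψs : ∀ g i, (ψ g i).1 • v (ψ g i).2 = g • v i := by
    intro g i
    simp only [ψ, mul_smul, ← line_shift hv, hrem]
    rw [Int.emod_add_mul_ediv]
  have hψt : ∀ g i, (ψ g i).1 • v ((ψ g i).2 + 1) = g • v (i + 1) := by
    intro g i
    simp only [ψ, mul_smul, ← line_shift hv, hrem]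
    congr 2
    have := Int.emod_add_mul_ediv i n
    omega
  have hψinj : ∀ g, Function.Injective (ψ g) := by
    intro g i j h
    have h1 : i / n = j / n := hβ (mul_left_cancel (congrArg Prod.fst h))
    have h2 : i % n = j % n := by rw [← hrem, ← hrem]; exact congrArg _ (congrArg _ (congrArg Prod.snd h))
    rw [← Int.emod_add_mul_ediv i n, ← Int.emod_add_mul_ediv j n, h1, h2]
  let cos : G × Fin n → G ⧸ Subgroup.zpowers β := fun e => (e.1 : G ⧸ Subgroup.zpowers β)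
  have hrange : ∀ (q : G ⧸ Subgroup.zpowers β) e, cos e = q → e ∈ Set.range (ψ q.out) := by
    intro q e he
    have h1 : (q.out : G ⧸ Subgroup.zpowers β) = e.1 := by rw [QuotientGroup.out_eq', ← he]
    obtain ⟨m, hm⟩ := Subgroup.mem_zpowers_iff.1 (QuotientGroup.eq.1 h1)
    refine ⟨(e.2 : ℕ) + n * m, ?_⟩
    have h2 : ((e.2 : ℕ) : ℤ) < n := by exact_mod_cast e.2.2
    have h3 : (((e.2 : ℕ) : ℤ) + n * m) / n = m := by
      rw [Int.add_mul_ediv_left _ _ hn'.ne', Int.ediv_eq_zero_of_lt (by positivity) h2, zero_add]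
    refine Prod.ext ?_ (Fin.ext ?_)
    · simp only [ψ, h3, hm, mul_inv_cancel_left]
    · have := hrem ((e.2 : ℕ) + n * m)
      rw [Int.add_mul_emod_self_left, Int.emod_eq_of_lt (by positivity) h2] at this
      exact_mod_cast this
  have hfib : ∀ q : G ⧸ Subgroup.zpowers β, ∑ e ∈ E1.filter (fun e => cos e = q), κ e =
      ∑ i ∈ E1.preimage (ψ q.out) (hψinj _).injOn, κ (ψ q.out i) := by
    intro q
    symm
    refine Finset.sum_bij (fun i _ => ψ q.out i) ?_ ?_ ?_ fun _ _ => rfl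
    · intro i hi
      refine Finset.mem_filter.2 ⟨Finset.mem_preimage.1 hi, ?_⟩
      simp only [cos, ψ]
      rw [QuotientGroup.mk_mul_of_mem _ (Subgroup.zpow_mem_zpowers β _), QuotientGroup.out_eq']
    · exact fun i _ j _ h => hψinj _ h
    · intro e he
      obtain ⟨i, hi⟩ := hrange q e (Finset.mem_filter.1 he).2
      exact ⟨i, Finset.mem_preimage.2 (hi ▸ (Finset.mem_filter.1 he).1), hi⟩
  have hfinl : ∀ g : G, {i | g • v i ∈ X}.Finite := by
    intro g
    refine (hX.fin.preimage (hψinj g).injOn).subset fun i hi => ?_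
    simpa only [Set.mem_preimage, Set.mem_ofPred_eq, hψs] using hi
  have hconv : ∀ (g : G) i j k, i ≤ j → j ≤ k → g • v i ∈ X → g • v k ∈ X → g • v j ∈ X := by
    intro g i j k hij hjk hi hk
    rw [hXeq, Set.mem_iInter] at *
    intro l
    rcases hmono g l with h | h
    · exact h i j hij (hi l)
    · exact h j k hjk (hk l)
  -- leaving `X` from a point of `D` is possible only through the base side
  have hup : ∀ (g : G) k, g • v k ∈ D → g • v (k + 1) ∉ X → g • v (k + 1) ∉ Hp none := by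
    intro g k hk hk1
    rw [hXeq, Set.mem_iInter, not_forall] at hk1
    obtain ⟨j, hj⟩ := hk1
    have hkX := hDX hk
    rw [hXeq, Set.mem_iInter] at hkX
    obtain ⟨i', hi'⟩ := hcr g j k (hkX j) hj
    rcases j with _ | j
    · exact hj
    · exact absurd (hi' ▸ hk) (hgood _ (hgs j) i')
  have hdown : ∀ (g : G) k, g • v k ∈ D → g • v (k - 1) ∉ X → g • v (k - 1) ∉ Hp none := by
    intro g k hk hk1
    rw [hXeq, Set.mem_iInter, not_forall] at hk1
    obtain ⟨j, hj⟩ := hk1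
    have hkX := hDX hk
    rw [hXeq, Set.mem_iInter] at hkX
    obtain ⟨i', hi'⟩ := hcr' g j k (hkX j) hj
    rcases j with _ | j
    · exact hj
    · exact absurd (hi' ▸ hk) (hgood _ (hgs j) i')
  have hXn : ∀ x ∈ X, x ∈ Hp none := fun x hx => by
    rw [hXeq, Set.mem_iInter] at hx
    exact hx none
  have hle : ∀ g : G, ∑ i ∈ E1.preimage (ψ g) (hψinj _).injOn, κ (ψ g i) ≤ 0 := by
    intro g
    refine line_sum_nonpos (fun i => g • v i ∈ X) (fun i => g • v i ∈ D) _ _ (fun i h => hDX h)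
      (hfinl g) (hconv g) ?_ (fun i => hκ1 _) ?_ ?_ ?_
    · rintro i k hi hi1 hk hk1 ⟨h1, h2⟩
      have h3 := hdown g i h1 hi1
      have h4 := hup g k h2 hk1
      rcases hmono g none with h | h
      · exact h4 (h k (k + 1) (by omega) (hXn _ hk))
      · exact h3 (h (i - 1) i (by omega) (hXn _ hi))
    · intro i h
      exact hκ0 _ (by rwa [hψs, hψt])
    · intro i h1 h2 h3
      exact hκm _ (by rwa [hψs]) (by rwa [hψt]) (by rwa [hψs, hψt])
    · intro i h
      exact Finset.mem_preimage.2 (hE1 _ (by rwa [hψs, hψt]))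
  let q1 : G ⧸ Subgroup.zpowers β := ((1 : G) : G ⧸ Subgroup.zpowers β)
  have hlt : ∑ i ∈ E1.preimage (ψ q1.out) (hψinj _).injOn, κ (ψ q1.out i) < 0 := by
    have h1 : ((1 : G) : G ⧸ Subgroup.zpowers β) = q1.out := by rw [QuotientGroup.out_eq']
    obtain ⟨m, hm⟩ := Subgroup.mem_zpowers_iff.1 (QuotientGroup.eq.1 h1)
    rw [inv_one, one_mul] at hm
    generalize q1.out = g at hm
    have hg : ∀ i, g • v i = v (i + n * m) := fun i => by rw [line_shift hv, hm]
    refine line_sum_neg (fun i => g • v i ∈ X) (fun i => g • v i ∈ D) _ _ (fun i h => hDX h)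
      (hfinl g) (hconv g) ?_ ?_ ?_ ?_ ?_ ?_
    · intro i _ hi1 h1
      exact hdown g i h1 hi1 (hg _ ▸ hown _)
    · intro i _ hi1 h1
      exact hup g i h1 hi1 (hg _ ▸ hown _)
    · intro i h
      exact hκ0 _ (by rwa [hψs, hψt])
    · intro i h1 h2 h3
      exact hκm _ (by rwa [hψs]) (by rwa [hψt]) (by rwa [hψs, hψt])
    · intro i h
      exact Finset.mem_preimage.2 (hE1 _ (by rwa [hψs, hψt]))
    · obtain ⟨i, hi⟩ := hD
      exact ⟨i - n * m, by rwa [hg, sub_add_cancel]⟩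
  rw [← Finset.sum_fiberwise_of_maps_to (t := insert q1 (E1.image cos)) (g := cos)
    (fun e he => Finset.mem_insert_of_mem (Finset.mem_image_of_mem _ he))]
  refine Finset.sum_neg' (fun q _ => ?_) ⟨q1, Finset.mem_insert_self _ _, ?_⟩
  · rw [hfib]
    exact hle _
  · rw [hfib]
    exact hlt

lemma cost_out_le_one {V E : Type*} (τ : SignType) (s t : E → V) (D : Set V) (e : E) :
    cost τ (-outf s t D e) ≤ 1 := by
  refine (cost_le_abs _ _).trans ?_
  unfold outf
  split_ifs <;> simp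

lemma cost_out_uncut {V E : Type*} (τ : SignType) (s t : E → V) (D : Set V) (e : E)
    (h : s e ∈ D ↔ t e ∈ D) : cost τ (-outf s t D e) = 0 := by
  unfold outf
  by_cases h1 : s e ∈ D
  · simp [h1, h.1 h1, cost_zero]
  · simp [h1, mt h.2 h1, cost_zero]

theorem two_level (hfree : ∀ (g : G) (x : Ω), g • x = x → g = 1) {β : G}
    (hβ : Function.Injective fun m : ℤ => β ^ m) {n : ℕ} (hn : 0 < n)
    {v : ℤ → Ω} (hv : ∀ i, v (i + n) = β • v i)
    (φ₁ : G → ℝ) (hφ₁ : ∀ a b, φ₁ (a * b) = φ₁ a + φ₁ b) (H : Subgroup G) (hβH : β ∈ H)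
    (hH : ∀ h ∈ H, φ₁ h = 0) (φ₂ : G → ℝ) (hφ₂ : ∀ a ∈ H, ∀ b ∈ H, φ₂ (a * b) = φ₂ a + φ₂ b)
    (hφ₂β : φ₂ β = 0) {X X' : Set Ω}
    (hX : Quad v n (fun g => φ₁ g < 0 ∨ (g ∈ H ∧ φ₂ g < 0)) X)
    (hX' : Quad v n (fun g => φ₁ g < 0 ∨ (g ∈ H ∧ φ₂ g < 0)) X')
    (hcover : ∀ i, ∃ m : ℤ, β ^ m • v i ∈ X ∨ β ^ m • v i ∈ X') : False := by
  classical
  have hn' : (0 : ℤ) < n := by exact_mod_cast hn
  have hcancel : ∀ (g g' : G) (x : Ω), g • x = g' • x → g = g' := by
    intro g g' x h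
    have := hfree (g'⁻¹ * g) x (by rw [mul_smul, h, inv_smul_smul])
    exact (inv_mul_eq_one.1 this).symm
  have hdec : ∀ i : ℤ, ∃ (m : ℤ) (r : Fin n), v i = β ^ m • v r := by
    intro i
    have h1 := Int.emod_nonneg i hn'.ne'
    have h2 := Int.emod_lt_of_pos i hn'
    refine ⟨i / n, ⟨(i % n).toNat, by omega⟩, ?_⟩
    rw [← line_shift hv]
    congr 1
    simp only [Int.toNat_of_nonneg h1]
    exact (Int.emod_add_mul_ediv i n).symm
  have hφ₂pow : ∀ m : ℤ, φ₂ (β ^ m) = 0 := by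
    have h1 : φ₂ 1 = 0 := by
      have := hφ₂ 1 H.one_mem 1 H.one_mem
      rw [mul_one] at this
      linarith
    intro m
    induction m using Int.induction_on with
    | zero => simpa using h1
    | succ m ih => rw [zpow_add_one, hφ₂ _ (H.zpow_mem hβH _) _ hβH, ih, hφ₂β, add_zero]
    | pred m ih =>
      have := hφ₂ _ (H.zpow_mem hβH (-m - 1)) _ hβH
      rw [← zpow_add_one, sub_add_cancel, ih, hφ₂β, add_zero] at this
      exact this.symm
  -- the three graphs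
  let V0 := orbitRel.Quotient G Ω
  let V1 := orbitRel.Quotient H Ω
  let Q1 := orbitRel.Quotient H G
  let mk0 : Ω → V0 := Quotient.mk (orbitRel G Ω)
  let mk1 : Ω → V1 := Quotient.mk (orbitRel H Ω)
  let mkQ : G → Q1 := Quotient.mk (orbitRel H G)
  have hmk0 : ∀ x y, mk0 x = mk0 y ↔ ∃ g : G, g • y = x := fun x y => Quotient.eq
  have hmk1 : ∀ x y, mk1 x = mk1 y ↔ ∃ g : H, (g : G) • y = x := fun x y => Quotient.eq
  have hmkQ : ∀ x y, mkQ x = mkQ y ↔ ∃ g : H, (g : G) * y = x := fun x y => Quotient.eq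
  let act : Q1 → Ω → V1 := fun q x => Quotient.lift (fun g : G => mk1 (g • x)) (by
    rintro a b ⟨h, hh⟩
    exact (hmk1 _ _).2 ⟨h, by rw [← hh, ← mul_smul]; rfl⟩) q
  have hact : ∀ g x, act (mkQ g) x = mk1 (g • x) := fun g x => rfl
  let p10 : V1 → V0 := Quotient.lift mk0 (by
    rintro a b ⟨h, hh⟩
    exact (hmk0 _ _).2 ⟨h, hh⟩)
  have hp10 : ∀ x, p10 (mk1 x) = mk0 x := fun x => rfl
  let s0 : Fin n → V0 := fun r => mk0 (v r)
  let t0 : Fin n → V0 := fun r => mk0 (v (r + 1))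
  let s1 : Q1 × Fin n → V1 := fun e => act e.1 (v e.2)
  let t1 : Q1 × Fin n → V1 := fun e => act e.1 (v (e.2 + 1))
  let s2 : G × Fin n → Ω := fun e => e.1 • v e.2
  let t2 : G × Fin n → Ω := fun e => e.1 • v (e.2 + 1)
  let pE2 : G × Fin n → Q1 × Fin n := fun e => (mkQ e.1, e.2)
  have hact_inj : ∀ (x : Ω) (q q' : Q1), act q x = act q' x → q = q' := by
    intro x q q'
    induction q using Quotient.inductionOn with | _ g => ?_
    induction q' using Quotient.inductionOn with | _ g' => ?_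
    intro h
    obtain ⟨k, hk⟩ := (hmk1 _ _).1 h
    exact (hmkQ _ _).2 ⟨k, hcancel _ _ x (by rw [mul_smul, hk])⟩
  have hcov1 : ∀ (w : Fin n → Ω) (x : V1) (r : Fin n), mk0 (w r) = p10 x →
      ∃! e : Q1 × Fin n, e.2 = r ∧ act e.1 (w e.2) = x := by
    intro w x r
    induction x using Quotient.inductionOn with | _ y => ?_
    intro h
    obtain ⟨g, hg⟩ := (hmk0 _ _).1 h.symm
    refine ⟨(mkQ g, r), ⟨rfl, by rw [hact, hg]⟩, ?_⟩
    rintro ⟨q, r'⟩ ⟨h1, h2⟩
    obtain rfl : r' = r := h1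
    refine Prod.ext (hact_inj (w r') _ _ ?_) rfl
    rw [hact, hg]
    exact h2
  have hcov2 : ∀ (w : Fin n → Ω) (x : Ω) (e : Q1 × Fin n), act e.1 (w e.2) = mk1 x →
      ∃! e' : G × Fin n, pE2 e' = e ∧ e'.1 • w e'.2 = x := by
    rintro w x ⟨q, r⟩
    induction q using Quotient.inductionOn with | _ g => ?_
    intro h
    obtain ⟨k, hk⟩ := (hmk1 _ _).1 h.symm
    refine ⟨(k * g, r), ⟨Prod.ext ((hmkQ _ _).2 ⟨k, rfl⟩) rfl, by rw [mul_smul]; exact hk⟩, ?_⟩
    rintro ⟨g', r'⟩ ⟨h1, h2⟩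
    obtain rfl : r' = r := congrArg Prod.snd h1
    refine Prod.ext (hcancel _ _ (w r') ?_) rfl
    rw [mul_smul]
    exact h2.trans hk.symm
  -- first level
  obtain ⟨f0, hf0⟩ := exists_equivariant hfree ⊤ φ₁ fun a _ b _ => hφ₁ a b
  obtain ⟨u1, hu1⟩ := graph_opt s0 t0 (Finset.univ.image s0 ∪ Finset.univ.image t0) ∅ Finset.univ
    (fun _ _ => Set.notMem_empty _) (fun _ _ => Finset.mem_univ _)
    (fun r => f0 (v r) - f0 (v (r + 1)))
    (fun D _ => Finset.sum_nonneg fun e _ => by simp [lowSign, cost])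
    s1 t1 p10 Prod.snd
    (by
      rintro ⟨q, r⟩
      induction q using Quotient.inductionOn with | _ g => ?_
      exact ((hmk0 _ _).2 ⟨g, rfl⟩).symm)
    (by
      rintro ⟨q, r⟩
      induction q using Quotient.inductionOn with | _ g => ?_
      exact ((hmk0 _ _).2 ⟨g, rfl⟩).symm)
    (fun x r h => hcov1 (fun r => v r) x r h) (fun x r h => hcov1 (fun r => v (r + 1)) x r h)
  let f1 : Ω → ℝ := fun x => f0 x + u1 (mk0 x)
  have hf1 : ∀ (g : G) x, f1 (g • x) = φ₁ g + f1 x := by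
    intro g x
    have : mk0 (g • x) = mk0 x := (hmk0 _ _).2 ⟨g, rfl⟩
    simp only [f1, this, hf0 g (Subgroup.mem_top g), add_assoc]
  let F1 : V1 → ℝ := Quotient.lift f1 (by
    rintro a b ⟨h, hh⟩
    have : (h : G) • b = a := hh
    rw [← this, hf1, hH h h.2, zero_add])
  have hF1 : ∀ x, F1 (mk1 x) = f1 x := fun x => rfl
  have : Nonempty (Fin n) := ⟨⟨0, hn⟩⟩
  obtain ⟨r1, -, hr1⟩ := Finset.univ.exists_max_image (fun r : Fin n => f1 (v r))
    Finset.univ_nonempty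
  set M1 := f1 (v r1) with hM1
  have hM1le : ∀ i, f1 (v i) ≤ M1 := by
    intro i
    obtain ⟨m, r, h⟩ := hdec i
    rw [h, hf1, hH _ (H.zpow_mem hβH m), zero_add]
    exact hr1 r (Finset.mem_univ _)
  -- second level
  let Low : Set V1 := {x | F1 x < M1}
  let FX : Finset Ω := (hX.fin.toFinset ∪ hX'.fin.toFinset).image s2
  let W : Finset V1 := (FX.filter fun x => M1 ≤ f1 x).image mk1
  have hfinE : ∀ w : Fin n → Ω, {e : Q1 × Fin n | act e.1 (w e.2) ∈ W}.Finite := by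
    intro w
    refine Set.Finite.of_finite_image (f := fun e => (act e.1 (w e.2), e.2))
      ((W.finite_toSet.prod Set.finite_univ).subset ?_) ?_
    · rintro _ ⟨e, he, rfl⟩
      exact ⟨he, Set.mem_univ _⟩
    · rintro ⟨q, r⟩ _ ⟨q', r'⟩ _ h
      obtain rfl : r = r' := congrArg Prod.snd h
      exact Prod.ext (hact_inj (w r) _ _ (congrArg Prod.fst h)) rfl
  let E0 : Finset (Q1 × Fin n) := (hfinE fun r => v r).toFinset ∪ (hfinE fun r => v (r + 1)).toFinset
  have hE0 : ∀ e, s1 e ∈ W ∨ t1 e ∈ W → e ∈ E0 := by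
    rintro e (h | h)
    · exact Finset.mem_union_left _ ((Set.Finite.mem_toFinset _).2 h)
    · exact Finset.mem_union_right _ ((Set.Finite.mem_toFinset _).2 h)
  have hWge : ∀ x ∈ W, M1 ≤ F1 x := by
    intro x hx
    obtain ⟨y, hy, rfl⟩ := Finset.mem_image.1 hx
    exact (Finset.mem_filter.1 hy).2
  obtain ⟨g0, hg0⟩ := exists_equivariant hfree H φ₂ hφ₂
  let c2 : Q1 × Fin n → ℝ := fun e =>
    Quotient.lift (fun g : G => g0 (g • v e.2) - g0 (g • v (e.2 + 1))) (by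
      rintro a b ⟨h, hh⟩
      have : (h : G) * b = a := hh
      simp only [← this, mul_smul, hg0 h h.2]
      ring) e.1
  obtain ⟨u2, hu2⟩ := graph_opt s1 t1 W Low E0 (fun x hx => not_lt.2 (hWge x hx)) hE0 c2
    (by
      intro D hD
      refine (hu1 D E0 ?_ fun e h => hE0 e (h.imp (@hD _) (@hD _))).trans
        (Finset.sum_le_sum ?_)
      · intro x hx
        obtain ⟨y, hy, rfl⟩ := Finset.mem_image.1 (hD hx)
        obtain ⟨e, -, rfl⟩ := Finset.mem_image.1 (Finset.mem_filter.1 hy).1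
        refine Finset.mem_union_left _ (Finset.mem_image.2 ⟨e.2, Finset.mem_univ _, ?_⟩)
        exact ((hmk0 _ _).2 ⟨e.1, rfl⟩).symm
      · rintro ⟨q, r⟩ -
        induction q using Quotient.inductionOn with | _ g => ?_
        have hx : f0 (v r) - f0 (v (r + 1)) + (u1 (s0 r) - u1 (t0 r)) =
            F1 (s1 (mkQ g, r)) - F1 (t1 (mkQ g, r)) := by
          change _ = f1 (g • v r) - f1 (g • v (r + 1))
          rw [hf1, hf1]
          simp only [f1, s0, t0]
          ring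
        change cost (dsign (lowSign s0 t0 ∅ r)
          (f0 (v r) - f0 (v (r + 1)) + (u1 (s0 r) - u1 (t0 r)))) (-outf s1 t1 D (mkQ g, r)) ≤
          cost (lowSign s1 t1 Low (mkQ g, r)) (-outf s1 t1 D (mkQ g, r))
        rw [hx]
        generalize (mkQ g, r) = e
        have hl : lowSign s0 t0 ∅ r = 0 := by simp [lowSign]
        rw [hl]
        by_cases hc : s1 e ∈ (D : Set V1) ↔ t1 e ∈ (D : Set V1)
        · rw [cost_out_uncut _ _ _ _ _ hc, cost_out_uncut _ _ _ _ _ hc]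
        unfold lowSign
        split_ifs with ht hs
        · have h1 : t1 e ∉ (D : Set V1) := fun h => not_lt.2 (hWge _ (hD h)) ht
          have h2 : s1 e ∈ (D : Set V1) := by tauto
          have h3 : 0 < F1 (s1 e) - F1 (t1 e) := by
            have := hWge _ (hD h2)
            have h4 : F1 (t1 e) < M1 := ht
            linarith
          simp [dsign, sign_pos h3]
        · have h1 : s1 e ∉ (D : Set V1) := fun h => not_lt.2 (hWge _ (hD h)) hs
          have h2 : t1 e ∈ (D : Set V1) := by tauto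
          have h3 : F1 (s1 e) - F1 (t1 e) < 0 := by
            have := hWge _ (hD h2)
            have h4 : F1 (s1 e) < M1 := hs
            linarith
          simp [dsign, sign_neg h3]
        · exact (cost_le_abs _ _).trans (by simp [cost]))
    s2 t2 mk1 pE2 (fun e => rfl) (fun e => rfl)
    (fun x e h => hcov2 (fun r => v r) x e h) (fun x e h => hcov2 (fun r => v (r + 1)) x e h)
  let f2 : Ω → ℝ := fun x => g0 x + u2 (mk1 x)
  have hf2 : ∀ g ∈ H, ∀ x, f2 (g • x) = φ₂ g + f2 x := by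
    intro g hg x
    have : mk1 (g • x) = mk1 x := (hmk1 _ _).2 ⟨⟨g, hg⟩, rfl⟩
    simp only [f2, this, hg0 g hg, add_assoc]
  obtain ⟨r2, hr2, hr2'⟩ := (Finset.univ.filter fun r : Fin n => M1 ≤ f1 (v r)).exists_max_image
    (fun r : Fin n => f2 (v r)) ⟨r1, Finset.mem_filter.2 ⟨Finset.mem_univ _, le_rfl⟩⟩
  set M2 := f2 (v r2) with hM2
  have hM2le : ∀ i, M1 ≤ f1 (v i) → f2 (v i) ≤ M2 := by
    intro i hi
    obtain ⟨m, r, h⟩ := hdec i
    rw [h, hf1, hH _ (H.zpow_mem hβH m), zero_add] at hi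
    rw [h, hf2 _ (H.zpow_mem hβH m), hφ₂pow, zero_add]
    exact hr2' r (Finset.mem_filter.2 ⟨Finset.mem_univ _, hi⟩)
  have main : ∀ Y : Set Ω, Quad v n (fun g => φ₁ g < 0 ∨ (g ∈ H ∧ φ₂ g < 0)) Y →
      (∀ (g : G) (i : ℤ), g • v i ∈ Y → g • v i ∈ FX) → ∀ m : ℤ, β ^ m • v r2 ∉ Y := by
    intro Y hY hYF m hm
    let D : Finset Ω := FX.filter fun x => x ∈ Y ∧ M1 ≤ f1 x ∧ M2 ≤ f2 x
    have hfinE2 : ∀ w : Fin n → Ω, {e : G × Fin n | e.1 • w e.2 ∈ D}.Finite := by
      intro w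
      refine Set.Finite.of_finite_image (f := fun e => (e.1 • w e.2, e.2))
        ((D.finite_toSet.prod Set.finite_univ).subset ?_) ?_
      · rintro _ ⟨e, he, rfl⟩
        exact ⟨he, Set.mem_univ _⟩
      · rintro ⟨q, r⟩ _ ⟨q', r'⟩ _ h
        obtain rfl : r = r' := congrArg Prod.snd h
        exact Prod.ext (hcancel _ _ (w r) (congrArg Prod.fst h)) rfl
    let E1 : Finset (G × Fin n) :=
      (hfinE2 fun r => v r).toFinset ∪ (hfinE2 fun r => v (r + 1)).toFinset
    have hE1 : ∀ e, s2 e ∈ D ∨ t2 e ∈ D → e ∈ E1 := by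
      rintro e (h | h)
      · exact Finset.mem_union_left _ ((Set.Finite.mem_toFinset _).2 h)
      · exact Finset.mem_union_right _ ((Set.Finite.mem_toFinset _).2 h)
    have h1 := hu2 D E1 (fun x hx => Finset.mem_image_of_mem _
      (Finset.mem_filter.2 ⟨(Finset.mem_filter.1 hx).1, (Finset.mem_filter.1 hx).2.2.1⟩)) hE1
    refine absurd h1 (not_le.2 ?_)
    refine quad_sum_neg hβ hn hv hY (D : Set Ω) (fun x hx => (Finset.mem_filter.1 hx).2.1) ?_ ?_ _
      (fun e => cost_out_le_one _ _ _ _ _) (fun e h => cost_out_uncut _ _ _ _ _ h) ?_ E1 hE1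
    · rintro g (hg | ⟨hgH, hg⟩) i hi
      · have h2 := (Finset.mem_filter.1 hi).2.2.1
        rw [hf1] at h2
        linarith [hM1le i]
      · obtain ⟨-, -, h2, h3⟩ := Finset.mem_filter.1 hi
        rw [hf1, hH g hgH, zero_add] at h2
        rw [hf2 g hgH] at h3
        linarith [hM2le i h2]
    · refine ⟨r2 + n * m, ?_⟩
      rw [line_shift hv]
      refine Finset.mem_filter.2 ⟨hYF _ _ hm, hm, ?_, ?_⟩
      · rw [hf1, hH _ (H.zpow_mem hβH m), zero_add]
        exact (Finset.mem_filter.1 hr2).2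
      · rw [hf2 _ (H.zpow_mem hβH m), hφ₂pow, zero_add]
    · intro e hs ht hc
      have hx : c2 (pE2 e) + (u2 (s1 (pE2 e)) - u2 (t1 (pE2 e))) = f2 (s2 e) - f2 (t2 e) := by
        change g0 (s2 e) - g0 (t2 e) + (u2 (mk1 (s2 e)) - u2 (mk1 (t2 e))) = _
        simp only [f2]
        ring
      rw [hx]
      have hs' : s2 e ∈ Y := hs
      have ht' : t2 e ∈ Y := ht
      have hc' : ¬ (s2 e ∈ (D : Set Ω) ↔ t2 e ∈ (D : Set Ω)) := hc
      have hsD : s2 e ∈ (D : Set Ω) ↔ M1 ≤ f1 (s2 e) ∧ M2 ≤ f2 (s2 e) :=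
        ⟨fun h => (Finset.mem_filter.1 h).2.2, fun h => Finset.mem_filter.2 ⟨hYF _ _ hs, hs, h⟩⟩
      have htD : t2 e ∈ (D : Set Ω) ↔ M1 ≤ f1 (t2 e) ∧ M2 ≤ f2 (t2 e) :=
        ⟨fun h => (Finset.mem_filter.1 h).2.2, fun h => Finset.mem_filter.2 ⟨hYF _ _ ht, ht, h⟩⟩
      have hls : s1 (pE2 e) ∈ Low ↔ f1 (s2 e) < M1 := Iff.rfl
      have hlt : t1 (pE2 e) ∈ Low ↔ f1 (t2 e) < M1 := Iff.rfl
      by_cases h2 : s2 e ∈ (D : Set Ω)
      · have h3 : t2 e ∉ (D : Set Ω) := by tauto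
        have h4 : dsign (lowSign s1 t1 Low (pE2 e)) (f2 (s2 e) - f2 (t2 e)) = 1 := by
          by_cases h5 : f1 (t2 e) < M1
          · simp [lowSign, hlt, h5, dsign]
          · have h6 : ¬ f1 (s2 e) < M1 := not_lt.2 (hsD.1 h2).1
            have h7 : f2 (t2 e) < M2 := not_le.1 fun h => h3 (htD.2 ⟨not_lt.1 h5, h⟩)
            have h8 : 0 < f2 (s2 e) - f2 (t2 e) := by linarith [(hsD.1 h2).2]
            simp [lowSign, hlt, hls, h5, h6, dsign, sign_pos h8]
        rw [h4]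
        simp [cost, outf, h2, h3]
      · have h3 : t2 e ∈ (D : Set Ω) := by tauto
        have h4 : dsign (lowSign s1 t1 Low (pE2 e)) (f2 (s2 e) - f2 (t2 e)) = -1 := by
          have h6 : ¬ f1 (t2 e) < M1 := not_lt.2 (htD.1 h3).1
          by_cases h5 : f1 (s2 e) < M1
          · simp [lowSign, hlt, hls, h5, h6, dsign]
          · have h7 : f2 (s2 e) < M2 := not_le.1 fun h => h2 (hsD.2 ⟨not_lt.1 h5, h⟩)
            have h8 : f2 (s2 e) - f2 (t2 e) < 0 := by linarith [(htD.1 h3).2]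
            simp [lowSign, hlt, hls, h5, h6, dsign, sign_neg h8]
        rw [h4]
        simp [cost, outf, h2, h3]
  have hFX : ∀ (g : G) (i : ℤ), g • v i ∈ X ∨ g • v i ∈ X' → g • v i ∈ FX := by
    intro g i h
    obtain ⟨m, r, hr⟩ := hdec i
    rw [hr, ← mul_smul] at h ⊢
    refine Finset.mem_image.2 ⟨(g * β ^ m, r), ?_, rfl⟩
    rcases h with h | h
    · exact Finset.mem_union_left _ ((Set.Finite.mem_toFinset _).2 h)
    · exact Finset.mem_union_right _ ((Set.Finite.mem_toFinset _).2 h)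
  obtain ⟨m, hm | hm⟩ := hcover r2
  · exact main X hX (fun g i h => hFX g i (Or.inl h)) m hm
  · exact main X' hX' (fun g i h => hFX g i (Or.inr h)) m hm

end Pool.Agent.MP_46f5ab_gt
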