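import Pool.Agent.Mg.F46f5abp.Gd57f1d

/-! The hyperbolic case. -/

namespace Pool.Agent.MP_46f5ab_gt

open Set Filter Topology UpperHalfPlane MatrixGroups

variable {G X : Type*} [Group G] [MulAction G X] [TopologicalSpace X] {e : X ≃ₜ ℍ}

lemma conj_diag01 (M : SL(2, ℝ)) {l : ℝ} (hl : 0 < l) :
    (M * diag l hl * M⁻¹) 0 1 = -(M 0 0 * M 0 1) * (l - l⁻¹) := by
  simp only [mul_entry, inv01, inv11, diag, mkSL00, mkSL01, mkSL10, mkSL11]
  ring

lemma conj_diag10 (M : SL(2, ℝ)) {l : ℝ} (hl : 0 < l) :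
    (M * diag l hl * M⁻¹) 1 0 = M 1 0 * M 1 1 * (l - l⁻¹) := by
  simp only [mul_entry, inv00, inv10, diag, mkSL00, mkSL01, mkSL10, mkSL11]
  ring

variable {β : G} {l : ℝ}

lemma Fuchs.upper_zero (F : Fuchs G e) (hl : 0 < l) (hl1 : l ^ 2 ≠ 1) (hβ : Acts e β (diag l hl))
    {g : G} {M : SL(2, ℝ)} (hg : Acts e g M) (h : M 1 0 * M 1 1 = 0) : M 0 0 * M 0 1 = 0 := by
  have h1 := hg.conj hβ
  have h2 := conj_diag10 M hl
  have h3 := conj_diag01 M hl
  rw [h, zero_mul] at h2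
  generalize M * diag l hl * M⁻¹ = B at h1 h2 h3
  have hd := det_eq B
  rw [h2, mul_zero, sub_zero] at hd
  have h4 := (hβ.conj h1).mul h1.inv
  have h5 : diag l hl * B * (diag l hl)⁻¹ * B⁻¹ = transl ((l ^ 2 - 1) * B 0 0 * B 0 1) := by
    have := mul_inv_cancel₀ hl.ne'
    refine SL_ext ?_ ?_ ?_ ?_ <;>
      simp only [mul_entry, inv00, inv01, inv10, inv11, transl, diag, mkSL00, mkSL01, mkSL10,
        mkSL11, h2]
    · linear_combination hd + B 0 0 * B 1 1 * this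
    · linear_combination (-B 0 0 * B 0 1) * this
    · ring
    · linear_combination hd + B 0 0 * B 1 1 * this
  rw [h5] at h4
  by_contra h6
  refine hl1 (F.sq_eq_one hβ rfl h4 (mul_ne_zero (mul_ne_zero (sub_ne_zero.2 hl1) ?_) ?_))
  · exact left_ne_zero_of_mul_eq_one hd
  · rw [h3]
    refine mul_ne_zero (neg_ne_zero.2 h6) (sub_ne_zero.2 fun h7 => hl1 ?_)
    rw [sq]
    nth_rewrite 2 [h7]
    exact mul_inv_cancel₀ hl.ne'

lemma Fuchs.entries_ne (F : Fuchs G e) (hl : 1 < l) (hp : IsPrimitiveClass β)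
    (hβ : Acts e β (diag l (by linarith))) {g : G} {M : SL(2, ℝ)} (hg : Acts e g M)
    (hn : ¬ ∃ n : ℤ, g = β ^ n) : M 0 0 * M 1 0 * (M 0 1 * M 1 1) ≠ 0 := by
  intro h
  have hl0 : 0 < l := by linarith
  have hl1 : l ^ 2 ≠ 1 := by nlinarith
  have hd := det_eq M
  have h1 : M 1 0 * M 1 1 = 0 → M 0 0 * M 0 1 = 0 := F.upper_zero hl0 hl1 hβ hg
  have h2 : M 0 0 * M 0 1 = 0 → M 1 0 * M 1 1 = 0 := fun h2 => by
    let S : SL(2, ℝ) := mkSL 0 (-1) 1 0 (by ring)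
    have a1 : S * diag l hl0 * S⁻¹ = diag l⁻¹ (inv_pos.2 hl0) := by
      refine SL_ext ?_ ?_ ?_ ?_ <;> simp [S, mul_entry, inv00, inv01, inv10, inv11, diag]
    have a2 := (F.rechart S).upper_zero (inv_pos.2 hl0) (by simpa using hl1) (a1 ▸ hβ.rechart S)
      (hg.rechart S) (by
        simp only [S, mul_entry, inv00, inv01, inv10, inv11, mkSL00, mkSL01, mkSL10, mkSL11]
        linear_combination -h2)
    simp only [S, mul_entry, inv00, inv01, inv10, inv11, mkSL00, mkSL01, mkSL10, mkSL11] at a2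
    linear_combination -a2
  have h3 : M 0 0 * M 0 1 = 0 ∧ M 1 0 * M 1 1 = 0 := by
    have : M 0 0 * M 0 1 * (M 1 0 * M 1 1) = 0 := by linear_combination h
    rcases mul_eq_zero.1 this with a | a
    exacts [⟨a, h2 a⟩, ⟨h1 a, a⟩]
  by_cases h4 : M 0 0 = 0
  · have a1 : M 1 1 = 0 := by linear_combination -M 1 1 * hd + M 1 1 ^ 2 * h4 - M 0 1 * h3.2
    obtain ⟨z, hz⟩ := exists_fixed_of_elliptic M (by simp [tr, h4, a1])
    obtain ⟨x, rfl⟩ := e.surjective z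
    exact hn ⟨0, F.free g x (e.injective (by rw [hg, hz])) |>.trans (zpow_zero β).symm⟩
  have a1 : M 0 1 = 0 := (mul_eq_zero.1 h3.1).resolve_left h4
  have a2 : M 1 0 = 0 := by linear_combination -M 1 0 * hd + M 0 0 * h3.2 - M 1 0 ^ 2 * a1
  rw [a1, zero_mul, sub_zero] at hd
  obtain ⟨m, hm, a3⟩ : ∃ m hm, Acts e g (diag m hm) := by
    rcases lt_or_gt_of_ne h4 with a | a
    · refine ⟨-M 0 0, by linarith, ?_⟩
      convert hg.neg using 1
      refine SL_ext rfl (by simp [diag, a1]) (by simp [diag, a2]) ?_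
      rw [neg_entry]
      exact inv_eq_of_mul_eq_one_right (by linarith)
    · refine ⟨M 0 0, a, ?_⟩
      convert hg using 1
      exact SL_ext rfl a1.symm a2.symm (inv_eq_of_mul_eq_one_right hd)
  have a4 : ∀ {g : G} {m hm}, Acts e g (diag m hm) → ∀ t,
      g • e.symm (axisPt t) = e.symm (axisPt (t + 2 * Real.log m)) := fun h t =>
    e.injective (by rw [h, e.apply_symm_apply, e.apply_symm_apply, diag_smul_axisPt])
  exact hn (F.freePD.cyc (e.symm.continuous.comp continuous_axisPt)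
    (e.symm.injective.comp axisPt_injective) hp (a4 hβ) (a4 a3))

lemma ratio_smul (M : SL(2, ℝ)) (w : ℍ) : (M • w).re / (M • w).im =
    M 0 0 * M 1 0 * (1 + (w.re / w.im) ^ 2) * w.im +
      (M 0 0 * M 1 1 + M 0 1 * M 1 0) * (w.re / w.im) + M 0 1 * M 1 1 / w.im := by
  have h1 := (den_pos M w).ne'
  have h2 := w.im_ne_zero
  rw [smul_re, smul_im]
  field_simp
  ring

lemma big {P : ℝ} (hP : 0 < P) (Q R κ κ' U : ℝ) : ∀ᶠ θ in atTop, ∀ u v ρ : ℝ, 1 ≤ u → |v| ≤ U →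
    |ρ| ≤ κ' → κ < P * u * θ + Q * ρ + R * v / θ := by
  filter_upwards [eventually_ge_atTop 1, eventually_gt_atTop ((κ + |Q| * κ' + |R| * U) / P)]
    with θ h1 h2 u v ρ hu hv hρ
  rw [div_lt_iff₀ hP] at h2
  have a1 : |Q * ρ| ≤ |Q| * κ' := by
    rw [abs_mul]
    gcongr
  have a2 : |R * v / θ| ≤ |R| * U := by
    rw [abs_div, abs_mul, abs_of_pos (by linarith : 0 < θ)]
    exact (div_le_self (by positivity) h1).trans (by gcongr)
  have a3 : P * 1 * θ ≤ P * u * θ := by gcongr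
  linarith [neg_abs_le (Q * ρ), neg_abs_le (R * v / θ)]

lemma side_of_ratio {c : ℝ → X} {κ : ℝ} (hc : ∀ t, |(e (c t)).re / (e (c t)).im| ≤ κ) {P σ : ℝ}
    (hσ : (0 < P ∧ σ = 1) ∨ (P < 0 ∧ σ = -1)) {z : ℍ} (hz : κ < σ * (z.re / z.im)) :
    Side (fun u => cd e (c u)) z (if 0 < P then 1 else 0) := by
  rcases hσ with ⟨h, rfl⟩ | ⟨h, rfl⟩
  · refine Or.inr ⟨if_pos h, fun t => or_iff_not_imp_right.2 fun h1 => ?_⟩
    simp only [cd, Complex.sub_im, Complex.sub_re, coe_re, coe_im, ne_eq, not_not, sub_eq_zero,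
      sub_pos] at h1 ⊢
    have h2 := (le_abs_self _).trans (hc t)
    rw [← h1] at h2
    exact (div_lt_div_iff_of_pos_right z.im_pos).1 (by linarith)
  · refine Or.inl ⟨if_neg h.not_gt, fun t => or_iff_not_imp_right.2 fun h1 => ?_⟩
    simp only [cd, Complex.sub_im, Complex.sub_re, coe_re, coe_im, ne_eq, not_not, sub_eq_zero,
      sub_pos] at h1 ⊢
    have h2 := (neg_le_abs _).trans (hc t)
    rw [h1] at h2
    exact (div_lt_div_iff_of_pos_right z.im_pos).1 (by linarith)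

lemma scale_loop {c : ℝ → X} (hc : Continuous c) {m : ℝ} (hm : 1 < m)
    (h : ∀ t, cd e (c (t + 1)) = m * cd e (c t)) :
    (∃ κ, ∀ t, |(e (c t)).re / (e (c t)).im| ≤ κ) ∧ Tendsto (fun t => (e (c t)).im) atTop atTop ∧
      Tendsto (fun t => ((e (c t)).im)⁻¹) atBot atTop := by
  have h1 : ∀ t, (e (c (t + 1))).re = m * (e (c t)).re := fun t => by
    simpa [cd] using congrArg Complex.re (h t)
  have h2 : ∀ t, (e (c (t + 1))).im = m * (e (c t)).im := fun t => by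
    simpa [cd] using congrArg Complex.im (h t)
  have h3 := continuous_im.comp (e.continuous.comp hc)
  have hm0 : m ≠ 0 := by linarith
  obtain ⟨h4, h5⟩ := drift (f := fun t => Real.log (e (c t)).im)
    (h3.log fun t => im_ne_zero _) (Real.log_pos hm) fun t => by
      rw [h2, Real.log_mul hm0 (im_ne_zero _), add_comm]
  refine ⟨periodic_bound ((continuous_re.comp (e.continuous.comp hc)).div h3 fun t => im_ne_zero _)
    fun t => by rw [h1, h2, mul_div_mul_left _ _ hm0], ?_, ?_⟩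
  · exact (Real.tendsto_exp_atTop.comp h4).congr fun t => Real.exp_log (im_pos _)
  · refine (Real.tendsto_exp_atTop.comp (tendsto_neg_atBot_atTop.comp h5)).congr fun t => ?_
    simp only [Function.comp, Real.exp_neg, Real.exp_log (im_pos _)]

/-- The signed linking number of the axis `0, ∞` with its image by `M`. -/
noncomputable def lk (M : SL(2, ℝ)) : ℤ :=
  (if 0 < M 0 0 * M 1 0 then 1 else 0) - if 0 < M 0 1 * M 1 1 then 1 else 0

lemma Fuchs.fibSum_hyp (F : Fuchs G e) (hl : 1 < l) (hβ : Acts e β (diag l (by linarith)))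
    {c d : ℝ → X} (hc : IsLiftedLoop (cd e) β c) (hd : IsLiftedLoop (cd e) β⁻¹ d) :
    (∀ x, Span (fun u => cd e (c u)) (cd e x)) ∧ ∀ (g : G) (M : SL(2, ℝ)), Acts e g M →
      M 0 0 * M 1 0 * (M 0 1 * M 1 1) ≠ 0 → (∀ p ∈ fib β c d g, crossDet (cd e) c d p ≠ 0) →
        FibSum (cd e) β c d g (lk M) := by
  have hl0 : 0 < l := by linarith
  have hm : 1 < l ^ 2 := by nlinarith
  have ha : ∀ x, cd e (β • x) = (l ^ 2 : ℝ) * cd e x := fun x => by
    rw [cd, hβ, coe_diag_smul, cd]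
  obtain ⟨⟨κ, hκ⟩, c1, c2⟩ := scale_loop (continuous_of_cd hc.smooth.continuous) hm
    fun t => by rw [hc.closes, ha]
  have hd' := hd.reverse
  rw [inv_inv] at hd'
  obtain ⟨⟨κ', hκ'⟩, d1, d2⟩ := scale_loop (continuous_of_cd hd'.smooth.continuous) hm
    fun t => by rw [hd'.closes, ha]
  have hspan : ∀ x, Span (fun u => cd e (c u)) (cd e x) := fun x =>
    ⟨(c2.eventually (eventually_gt_atTop (e x).im⁻¹)).mono fun t ht =>
      (inv_lt_inv₀ (im_pos _) (im_pos _)).1 ht, c1.eventually (eventually_gt_atTop _)⟩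
  refine ⟨hspan, fun g M hM h0 ht => ?_⟩
  have hκd : ∀ s, |(e (d s)).re / (e (d s)).im| ≤ κ' := fun s => by simpa using hκ' (-s)
  have hU : ∀ s, |1 + ((e (d s)).re / (e (d s)).im) ^ 2| ≤ 1 + κ' ^ 2 := fun s => by
    rw [abs_of_pos (by positivity), ← sq_abs]
    gcongr
    exact hκd s
  have hsg : ∀ P : ℝ, P ≠ 0 → ∃ σ : ℝ, 0 < σ * P ∧ ((0 < P ∧ σ = 1) ∨ (P < 0 ∧ σ = -1)) := by
    intro P hP
    rcases hP.lt_or_gt with h | h
    · exact ⟨-1, by linarith, Or.inr ⟨h, rfl⟩⟩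
    · exact ⟨1, by linarith, Or.inl ⟨h, rfl⟩⟩
  refine fibSum_open cd_inj F.conf hc hd hspan (fun m n h => ?_) ?_ ?_ ht
  · have b1 : g * β ^ n * g⁻¹ = β ^ (-m) := by
      calc _ = β ^ (-m) * (β ^ m * g * β ^ n) * g⁻¹ := by group
        _ = _ := by rw [h]; group
    have b2 := hM.conj (hβ.zpow n)
    rw [b1] at b2
    have b3 : (M * diag l hl0 ^ n * M⁻¹) 1 0 = 0 := by
      rcases b2.eq_or (hβ.zpow (-m)) with h | h <;> rw [h, diag_zpow] <;> simp [diag]
    rw [diag_zpow, conj_diag10, mul_eq_zero, sub_eq_zero, ← zpow_neg] at b3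
    have b4 := zpow_right_injective₀ hl0 hl.ne' (b3.resolve_left fun h => h0 (by
      linear_combination M 0 0 * M 0 1 * h))
    have b5 : n = 0 := by omega
    rw [b5, zpow_zero, mul_one, mul_eq_right] at h
    exact ⟨zpow_injective_of_diag hl hβ (h.trans (zpow_zero β).symm), b5⟩
  · obtain ⟨σ, a1, a2⟩ := hsg _ (left_ne_zero_of_mul h0)
    filter_upwards [(d1.comp tendsto_neg_atBot_atTop).eventually (big a1
      (σ * (M 0 0 * M 1 1 + M 0 1 * M 1 0)) (σ * (M 0 1 * M 1 1)) κ κ' 1)] with s hs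
    simp only [Function.comp, neg_neg] at hs
    have a3 := hs (1 + ((e (d s)).re / (e (d s)).im) ^ 2) 1 _ (by nlinarith) (by simp) (hκd s)
    refine side_of_ratio hκ a2 (z := e (g • d s)) ?_
    rw [hM, ratio_smul]
    convert a3 using 1
    ring
  · obtain ⟨σ, a1, a2⟩ := hsg _ (right_ne_zero_of_mul h0)
    filter_upwards [(d2.comp tendsto_neg_atTop_atBot).eventually (big a1
      (σ * (M 0 0 * M 1 1 + M 0 1 * M 1 0)) (σ * (M 0 0 * M 1 0)) κ κ' (1 + κ' ^ 2))] with s hs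
    simp only [Function.comp, neg_neg] at hs
    have a3 := hs 1 _ _ le_rfl (hU s) (hκd s)
    refine side_of_ratio hκ a2 (z := e (g • d s)) ?_
    rw [hM, ratio_smul]
    convert a3 using 1
    rw [div_inv_eq_mul]
    ring

lemma lk_cases {M : SL(2, ℝ)} (h0 : M 0 0 * M 1 0 * (M 0 1 * M 1 1) ≠ 0) :
    (0 < M 0 0 * M 1 0 * (M 0 1 * M 1 1) ∧ lk M = 0) ∨
    (M 0 0 * M 1 0 * (M 0 1 * M 1 1) < 0 ∧ (lk M = 1 ∨ lk M = -1) ∧
      0 < (lk M : ℝ) * (M 1 0 * M 1 1)) := by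
  have hd := det_eq M
  have key : M 1 0 * M 1 1 * (M 0 0 * M 1 0 * M 1 1 ^ 2 - M 0 1 * M 1 1 * M 1 0 ^ 2) =
      (M 1 0 * M 1 1) ^ 2 := by linear_combination (M 1 0 * M 1 1) ^ 2 * hd
  have h1 : 0 < (M 1 0 * M 1 1) ^ 2 :=
    sq_pos_iff.2 fun h => h0 (by linear_combination M 0 0 * M 0 1 * h)
  unfold lk
  rcases (left_ne_zero_of_mul h0).lt_or_gt with a | a <;>
    rcases (right_ne_zero_of_mul h0).lt_or_gt with b | b
  · exact Or.inl ⟨mul_pos_of_neg_of_neg a b, by simp [a.not_gt, b.not_gt]⟩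
  · refine Or.inr ⟨mul_neg_of_neg_of_pos a b, by simp [a.not_gt, b], ?_⟩
    simp only [a.not_gt, b, if_true, if_false]
    push_cast
    by_contra h
    nlinarith [mul_nonneg (sq_nonneg (M 1 1)) (neg_pos.2 a).le, mul_nonneg (sq_nonneg (M 1 0)) b.le]
  · refine Or.inr ⟨mul_neg_of_pos_of_neg a b, by simp [a, b.not_gt], ?_⟩
    simp only [a, b.not_gt, if_true, if_false]
    push_cast
    by_contra h
    nlinarith [mul_nonneg (sq_nonneg (M 1 1)) a.le, mul_nonneg (sq_nonneg (M 1 0)) (neg_pos.2 b).le]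
  · exact Or.inl ⟨mul_pos a b, by simp [a, b]⟩

lemma cross_of_lk (hl : 1 < l) {M : SL(2, ℝ)} (h1 : M 0 0 * M 1 0 * (M 0 1 * M 1 1) < 0)
    (h2 : 0 < (lk M : ℝ) * (M 1 0 * M 1 1)) :
    Cross (-lk M) (diag l (by linarith)) (M * diag l (by linarith) * M⁻¹) := by
  have hl0 : 0 < l := by linarith
  have a1 := conj_diag01 M hl0
  have a2 := conj_diag10 M hl0
  have a3 := sub_inv_pos hl
  generalize M * diag l hl0 * M⁻¹ = B at a1 a2
  constructor
  · have : comDet (diag l hl0) B = (l - l⁻¹) ^ 4 * -(M 0 0 * M 1 0 * (M 0 1 * M 1 1)) := by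
      simp only [comDet, mul_entry, diag, mkSL00, mkSL01, mkSL10, mkSL11, a1, a2]
      ring
    rw [this]
    exact mul_pos (by positivity) (neg_pos.2 h1)
  · have : -(lk M : ℝ) * com10 (diag l hl0) B = (l - l⁻¹) ^ 2 * (lk M * (M 1 0 * M 1 1)) := by
      simp only [com10, mul_entry, diag, mkSL00, mkSL01, mkSL10, mkSL11, a2]
      ring
    rw [this]
    positivity

lemma Fuchs.lk_eq (F : Fuchs G e) (hG : HasHoms G) (hl : 1 < l)
    (hβ : Acts e β (diag l (by linarith))) {g h : G} {M N : SL(2, ℝ)} (hM : Acts e g M)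
    (hN : Acts e h N) (hc : IsConj (β * (g * β⁻¹ * g⁻¹)) (β * (h * β⁻¹ * h⁻¹)))
    (m1 : M 0 0 * M 1 0 * (M 0 1 * M 1 1) < 0) (n1 : N 0 0 * N 1 0 * (N 0 1 * N 1 1) < 0) :
    lk M = lk N := by
  obtain ⟨-, m2, m3⟩ := (lk_cases m1.ne).resolve_left fun h => h.1.not_gt m1
  obtain ⟨-, n2, n3⟩ := (lk_cases n1.ne).resolve_left fun h => h.1.not_gt n1
  by_contra hne
  have h1 : lk N = -lk M := by omega
  obtain ⟨k, hk⟩ := isConj_iff.1 hc.symm
  obtain ⟨K, hK⟩ := F.mob k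
  have h2 := two_lt_tr_diag hl
  have c1 := cross_of_lk hl m1 m3
  have c2 := (cross_of_lk hl n1 n3).conj K
  rw [h1, Int.cast_neg] at c2
  set D := diag l (by linarith : 0 < l) with hD
  have a1 : Acts e (k * h * β * (k * h)⁻¹) (K * (N * D * N⁻¹) * K⁻¹) := by
    have := hK.conj (hN.conj hβ)
    rwa [show k * (h * β * h⁻¹) * k⁻¹ = k * h * β * (k * h)⁻¹ by group] at this
  have t1 : tr (M * D * M⁻¹) = tr D := tr_conj _ _
  have t2 : tr (K * D * K⁻¹) = tr D := tr_conj _ _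
  have t3 : tr (K * (N * D * N⁻¹) * K⁻¹) = tr D := by rw [tr_conj, tr_conj]
  refine F.not_cancel hG (β := β) (k₁ := g) (k₂ := k) (k₃ := k * h)
    ⟨D, _, _, _, -lk M, by simpa using hβ, hM.conj hβ, hK.conj hβ, a1, h2, t1, t2, t3, ?_, c1, c2⟩
  have a2 := hβ.mul (hM.conj hβ).inv
  have a3 := (hK.conj hβ).mul a1.inv
  rw [show β * (g * β * g⁻¹)⁻¹ = k * β * k⁻¹ * (k * h * β * (k * h)⁻¹)⁻¹ by
    rw [show (g * β * g⁻¹)⁻¹ = g * β⁻¹ * g⁻¹ by group, ← hk]; group] at a2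
  exact a2.eq_of_tr a3 (by linarith [c1.tr_gt t1.symm h2])
    (by linarith [c2.tr_gt (t2.trans t3.symm) (by rwa [t2])])

/-- A curve at constant distance from the imaginary axis. -/
noncomputable def hyp (L y t : ℝ) : ℍ := ⟨⟨Real.exp (L * t) * y, Real.exp (L * t)⟩, Real.exp_pos _⟩

lemma hyp_re (L y t : ℝ) : (hyp L y t).re = Real.exp (L * t) * y := rfl

lemma hyp_im (L y t : ℝ) : (hyp L y t).im = Real.exp (L * t) := rfl

lemma hyp_ratio (L y t : ℝ) : (hyp L y t).re / (hyp L y t).im = y := by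
  rw [hyp_re, hyp_im, mul_div_cancel_left₀ _ (Real.exp_pos _).ne']

lemma coe_hyp (L y t : ℝ) : (hyp L y t : ℂ) = Real.exp (L * t) * (y + Complex.I) := by
  apply Complex.ext <;> simp [hyp_re, hyp_im, -Complex.ofReal_exp]

lemma continuous_hyp (L : ℝ) : Continuous fun p : ℝ × ℝ => hyp L p.1 p.2 := by
  refine isEmbedding_coe.continuous_iff.2 ?_
  simp only [Function.comp_def, coe_hyp]
  fun_prop

lemma hasDerivAt_hyp (L y t : ℝ) : HasDerivAt (fun u => (hyp L y u : ℂ)) (L * hyp L y t) t := by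
  simp only [coe_hyp]
  refine (((hasDerivAt_id t).const_mul L).exp.ofReal_comp.mul_const _).congr_deriv ?_
  simp only [id]
  push_cast
  ring

lemma hyp_lifted (hl : 1 < l) (hβ : Acts e β (diag l (by linarith))) (y : ℝ) :
    IsLiftedLoop (cd e) β fun t => e.symm (hyp (2 * Real.log l) y t) := by
  have hL : 0 < 2 * Real.log l := by have := Real.log_pos hl; linarith
  refine ⟨?_, fun t => ?_, fun t => e.injective ?_⟩
  · simp only [cd, e.apply_symm_apply, coe_hyp]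
    have : ContDiff ℝ 1 fun u : ℝ => Real.exp (2 * Real.log l * u) := by fun_prop
    exact (Complex.ofRealCLM.contDiff.comp this).mul contDiff_const
  · simp only [velocity, cd, e.apply_symm_apply, (hasDerivAt_hyp _ y t).deriv]
    exact mul_ne_zero (by exact_mod_cast hL.ne') (UpperHalfPlane.ne_zero _)
  · rw [hβ, e.apply_symm_apply, e.apply_symm_apply]
    apply UpperHalfPlane.ext
    rw [coe_diag_smul, coe_hyp, coe_hyp, mul_add _ t, mul_one, Real.exp_add, two_mul (Real.log l),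
      Real.exp_add (Real.log l), Real.exp_log (by linarith)]
    push_cast
    ring

lemma cross_im (M : SL(2, ℝ)) (w : ℍ) :
    (starRingEnd ℂ ((M • w : ℍ) : ℂ) * (1 / ((M 1 0 : ℂ) * w + M 1 1) ^ 2 * w)).im =
      w.im * (M 0 1 * M 1 1 - M 0 0 * M 1 0 * nsq w) / den M w ^ 2 := by
  have h1 := denom_ne M w
  have h2 : starRingEnd ℂ ((M 1 0 : ℂ) * w + M 1 1) ≠ 0 := (map_ne_zero _).2 h1
  have h3 : starRingEnd ℂ ((M • w : ℍ) : ℂ) * (1 / ((M 1 0 : ℂ) * w + M 1 1) ^ 2 * w) =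
      starRingEnd ℂ ((M 0 0 : ℂ) * w + M 0 1) * starRingEnd ℂ ((M 1 0 : ℂ) * w + M 1 1) * w /
        (den M w ^ 2 : ℝ) := by
    rw [coe_smul_SL, map_div₀, den_eq, Complex.ofReal_pow, ← Complex.mul_conj]
    field_simp
  rw [h3, Complex.div_ofReal_im]
  simp [nsq]
  ring

lemma crossDet_ne {c d : ℝ → X} {p : ℝ × ℝ × G} {M : SL(2, ℝ)} (hM : Acts e p.2.2 M)
    (hp : c p.1 = p.2.2 • d p.2.1) {L L' : ℝ} (hL : L ≠ 0) (hL' : L' ≠ 0)
    (hc : HasDerivAt (fun u => cd e (c u)) (L * cd e (c p.1)) p.1)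
    (hd : HasDerivAt (fun u => cd e (d u)) (L' * cd e (d p.2.1)) p.2.1)
    (h : M 0 0 * M 1 0 * (M 0 1 * M 1 1) < 0) : crossDet (cd e) c d p ≠ 0 := by
  have h1 := ((hasDerivAt_mob M (e (d p.2.1))).comp_of_eq (𝕜 := ℝ) p.2.1 hd rfl).deriv
  have h2 : velocity (cd e) (fun u => p.2.2 • d u) p.2.1 =
      1 / ((M 1 0 : ℂ) * e (d p.2.1) + M 1 1) ^ 2 * (L' * cd e (d p.2.1)) := by
    rw [← h1, velocity]
    simp only [cd, hM _, coe_smul_SL, Function.comp_def]
  rw [crossDet, h2, velocity, hc.deriv, hp, cd, cd, hM, map_mul, Complex.conj_ofReal,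
    mul_left_comm _ (L' : ℂ), mul_mul_mul_comm, ← Complex.ofReal_mul, Complex.im_ofReal_mul, cross_im]
  refine mul_ne_zero (mul_ne_zero hL hL') (div_ne_zero (mul_ne_zero (im_ne_zero _) fun h3 => ?_)
    (pow_ne_zero _ (den_pos _ _).ne'))
  rw [sub_eq_zero.1 h3] at h
  nlinarith [mul_nonneg (mul_self_nonneg (M 0 0 * M 1 0)) (nsq_pos (e (d p.2.1))).le]

lemma hyp_eqn {M : SL(2, ℝ)} {L y y' s t : ℝ} (h : hyp L y s = M • hyp L y' t) :
    M 0 0 * M 1 0 * (1 + y' ^ 2) * Real.exp (L * t) ^ 2 +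
      ((M 0 0 * M 1 1 + M 0 1 * M 1 0) * y' - y) * Real.exp (L * t) + M 0 1 * M 1 1 = 0 := by
  have h1 := ratio_smul M (hyp L y' t)
  rw [← h, hyp_ratio, hyp_ratio, hyp_im] at h1
  have := (Real.exp_pos (L * t)).ne'
  field_simp at h1
  linear_combination -h1

lemma det_zero {p q r p' q' r' N x : ℝ} (h : (p + 1) ^ 2 - 4 * (r * q) = 1)
    (h' : (p' + 1) ^ 2 - 4 * (r' * q') = 1) (n : r * q ≠ 0) (n' : r' * q' ≠ 0)
    (e₁ : r * N + p * x + q = 0) (e₂ : r' * N + p' * x + q' = 0) (hd : r * p' - r' * p = 0) :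
    p = p' ∧ q = q' ∧ r = r' := by
  have hr := left_ne_zero_of_mul n
  have hp : p ≠ 0 := fun a => n (by rw [a] at h; linarith)
  obtain ⟨θ, rfl⟩ : ∃ θ, r' = θ * r := ⟨r' / r, by field_simp⟩
  obtain rfl : p' = θ * p := mul_left_cancel₀ hr (by linarith)
  obtain rfl : q' = θ * q := by linear_combination e₂ - θ * e₁
  have h1 : θ * (θ - 1) * p = 0 := by linear_combination (θ ^ 2 * h - h') / 2
  have h2 : θ ≠ 0 := fun a => n' (by simp [a])
  obtain rfl : θ = 1 := sub_eq_zero.1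
    ((mul_eq_zero.1 ((mul_eq_zero.1 h1).resolve_right hp)).resolve_left h2)
  simp

theorem Fuchs.main_hyp (F : Fuchs G e) (hG : HasHoms G) (hl : 1 < l) (hp : IsPrimitiveClass β)
    (hβ : Acts e β (diag l (by linarith))) : Main (cd e) β := by
  classical
  choose M hM using F.mob
  have hL : 0 < 2 * Real.log l := by have := Real.log_pos hl; linarith
  set L := 2 * Real.log l with hLd
  let P : G → ℝ := fun g => M g 0 0 * M g 1 0
  let Q : G → ℝ := fun g => M g 0 0 * M g 1 1 + M g 0 1 * M g 1 0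
  let R : G → ℝ := fun g => M g 0 1 * M g 1 1
  have hne : ∀ g, (¬ ∃ n : ℤ, g = β ^ n) → P g * R g ≠ 0 := fun g => F.entries_ne hl hp hβ (hM g)
  let link : G → ℤ := fun g => if ∃ n : ℤ, g = β ^ n then 0 else lk (M g)
  have hlink : ∀ g, link g ≠ 0 → P g * R g < 0 ∧ link g = lk (M g) := fun g h => by
    by_cases h1 : ∃ n : ℤ, g = β ^ n
    · exact absurd (if_pos h1) h
    · exact ⟨((lk_cases (hne g h1)).resolve_left fun h2 => h ((if_neg h1).trans h2.2)).1, if_neg h1⟩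
  let c : ℝ → ℝ → X := fun y t => e.symm (hyp L y t)
  have hc : ∀ y, IsLiftedLoop (cd e) β (c y) := hyp_lifted hl hβ
  have hder : ∀ y t, HasDerivAt (fun u => cd e (c y u)) (L * cd e (c y t)) t := fun y t => by
    simpa only [c, cd, e.apply_symm_apply] using hasDerivAt_hyp L y t
  have hmat : ∀ {y y' s t : ℝ} {g : G}, c y s = g • c y' t → hyp L y s = M g • hyp L y' t :=
    fun h => by simpa only [c, hM _ _, e.apply_symm_apply] using congrArg e h
  have hinj : ∀ {y y' s t : ℝ}, c y s = c y' t → y = y' ∧ s = t := fun {y y' s t} h => by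
    have h1 := e.symm.injective h
    exact ⟨by rw [← hyp_ratio L y s, h1, hyp_ratio],
      mul_left_cancel₀ hL.ne' (Real.exp_injective (congrArg UpperHalfPlane.im h1))⟩
  have hpow : ∀ {y y' s t : ℝ} {n : ℤ}, c y s = β ^ n • c y' t → y = y' ∧ s = t + n :=
    fun h => hinj (h.trans (closes_zpow (hc _).closes _ _).symm)
  have hK : IsCompact ((fun p : ℝ × ℝ => c p.1 p.2) '' Icc 0 1 ×ˢ Icc (-1) 1) :=
    (isCompact_Icc.prod isCompact_Icc).image (e.symm.continuous.comp (continuous_hyp L))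
  let S : Set G := {g : G | ((g • ·) '' ((fun p : ℝ × ℝ => c p.1 p.2) '' Icc 0 1 ×ˢ Icc (-1) 1) ∩
    (fun p : ℝ × ℝ => c p.1 p.2) '' Icc 0 1 ×ˢ Icc (-1) 1).Nonempty}
  have hS : S.Finite := F.pd _ _ hK hK
  let bad : G × G → Set ℝ := fun g => {y | P g.1 * (Q g.2 - 1) - P g.2 * (Q g.1 - 1) ≠ 0 ∧
    ∃ w : ℍ, y = w.re / w.im ∧ P g.1 * nsq w + (Q g.1 - 1) * w.re + R g.1 = 0 ∧
      P g.2 * nsq w + (Q g.2 - 1) * w.re + R g.2 = 0}
  have hbad : ∀ g, (bad g).Subsingleton := by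
    rintro g _ ⟨h0, w, rfl, a1, a2⟩ _ ⟨-, w', rfl, b1, b2⟩
    have h1 : w.re = w'.re := mul_left_cancel₀ h0 (by
      linear_combination P g.1 * (a2 - b2) - P g.2 * (a1 - b1))
    have h2 : nsq w = nsq w' := mul_left_cancel₀ h0 (by
      linear_combination (Q g.2 - 1) * (a1 - b1) - (Q g.1 - 1) * (a2 - b2))
    rw [nsq, nsq, h1, add_right_inj] at h2
    rw [h1, (pow_left_inj₀ w.im_pos.le w'.im_pos.le two_ne_zero).1 h2]
  have ev1 := ((hS.prod hS).biUnion fun g _ => (hbad g).finite).eventually_cofinite_notMem.filter_mono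
    ((nhdsGT_le_nhdsNE 0).trans (nhdsNE_le_cofinite 0))
  have ev2 := (hS.eventually_all (l := 𝓝 (0 : ℝ)) (p := fun g y => 0 < P g * R g →
      (Q g * 0 - y) ^ 2 < 4 * (P g * R g) ∧ (Q g * y - y) ^ 2 < 4 * (P g * R g))).2 fun g _ => by
    by_cases h : 0 < P g * R g
    · have a1 : Continuous fun y : ℝ => (Q g * 0 - y) ^ 2 := by fun_prop
      have a2 : Continuous fun y : ℝ => (Q g * y - y) ^ 2 := by fun_prop
      filter_upwards [(a1.tendsto 0).eventually (gt_mem_nhds (a := 4 * (P g * R g)) (by simpa using h)),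
        (a2.tendsto 0).eventually (gt_mem_nhds (a := 4 * (P g * R g)) (by simpa using h))]
        with y b1 b2 _ using ⟨b1, b2⟩
    · exact Eventually.of_forall fun y h1 => absurd h1 h
  obtain ⟨y, hy1, hy2, hy⟩ := (ev1.and ((ev2.filter_mono nhdsWithin_le_nhds).and
    (Ioo_mem_nhdsGT one_pos))).exists
  have hmem : ∀ {y' s t : ℝ} {g : G}, y' = 0 ∨ y' = y → s ∈ Ico (0 : ℝ) 1 → t ∈ Icc (-1 : ℝ) 1 →
      c y s = g • c y' t → g ∈ S := fun {y' s t g} h1 h2 h3 h4 => by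
    refine ⟨_, ⟨_, ⟨(y', t), ⟨?_, h3⟩, rfl⟩, h4.symm⟩, (y, s),
      ⟨⟨hy.1.le, hy.2.le⟩, ?_, h2.2.le⟩, rfl⟩
    · rcases h1 with rfl | rfl
      exacts [⟨le_rfl, zero_le_one⟩, ⟨hy.1.le, hy.2.le⟩]
    · linarith [h2.1]
  have hneg : ∀ {y' s t : ℝ} {g : G}, y' = 0 ∨ y' = y → s ∈ Ico (0 : ℝ) 1 → t ∈ Icc (-1 : ℝ) 1 →
      c y s = g • c y' t → (¬ ∃ n : ℤ, g = β ^ n) → P g * R g < 0 := by
    intro y' s t g h1 h2 h3 h4 h5
    refine (hne g h5).lt_or_gt.resolve_right fun h6 => ?_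
    have a1 : (Q g * y' - y) ^ 2 < 4 * (P g * R g) := by
      rcases h1 with rfl | rfl
      exacts [(hy2 g (hmem (Or.inl rfl) h2 h3 h4) h6).1, (hy2 g (hmem (Or.inr rfl) h2 h3 h4) h6).2]
    have a2 : P g * (1 + y' ^ 2) * Real.exp (L * t) ^ 2 + (Q g * y' - y) * Real.exp (L * t) +
      R g = 0 := hyp_eqn (hmat h4)
    have a3 : (2 * P g * (1 + y' ^ 2) * Real.exp (L * t) + (Q g * y' - y)) ^ 2 =
        (Q g * y' - y) ^ 2 - 4 * (P g * R g) * (1 + y' ^ 2) := by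
      linear_combination 4 * P g * (1 + y' ^ 2) * a2
    nlinarith [sq_nonneg (2 * P g * (1 + y' ^ 2) * Real.exp (L * t) + (Q g * y' - y)),
      mul_nonneg h6.le (sq_nonneg y')]
  have hI : ∀ {t : ℝ}, t ∈ Ico (0 : ℝ) 1 → t ∈ Icc (-1 : ℝ) 1 := fun h => ⟨by linarith [h.1], h.2.le⟩
  have hnp : ∀ p ∈ meetings G (c y) (c y), p.1 ≠ p.2.1 → ¬ ∃ n : ℤ, p.2.2 = β ^ n := by
    rintro p ⟨h1, h2, h3⟩ h4 ⟨n, h5⟩
    have h6 := (hpow (h5 ▸ h3)).2
    rw [eq_of_int_shift h1 h2 h6, Int.cast_zero, add_zero] at h6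
    exact h4 h6
  have hneg' : ∀ p ∈ meetings G (c y) (c y), p.1 ≠ p.2.1 → P p.2.2 * R p.2.2 < 0 := fun p h1 h2 =>
    hneg (Or.inr rfl) h1.1 (hI h1.2.1) h1.2.2 (hnp p h1 h2)
  refine main_of_link link F.free (fun c d hc hd => F.freePD.finite_meet
    (continuous_of_cd hc.smooth.continuous) (continuous_of_cd hd.smooth.continuous))
    (fun c d hc hd g ht => ?_) (if_pos ⟨0, (zpow_zero β).symm⟩) (fun g h => ?_)
    (fun g h h1 h2 h3 => ?_) ⟨c y, _, hc y, (hc 0).reverse, fun p h => ?_⟩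
    ⟨c y, ⟨hc y, fun p h => ?_, ?_⟩, fun p h1 h2 => ?_, ?_⟩
  · obtain ⟨a1, a2⟩ := F.fibSum_hyp hl hβ hc hd
    by_cases h : ∃ n : ℤ, g = β ^ n
    · rw [show link g = 0 from if_pos h]
      obtain ⟨n, rfl⟩ := h
      exact fibSum_par cd_inj F.conf hc hd a1 (l := l ^ 2) (by positivity) (τ := 0)
        (fun x => by rw [cd, hβ, coe_diag_smul, cd, add_zero]) (zpow_injective_of_diag hl hβ)
        (Commute.self_zpow β n) ht
    · rw [show link g = lk (M g) from if_neg h]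
      exact a2 g _ (hM g) (hne g h) ht
  · obtain ⟨a1, a2⟩ := hlink g h
    rcases ((lk_cases a1.ne).resolve_left fun h => h.1.not_gt a1).2.1 with a3 | a3 <;>
      rw [a2, a3] <;> rfl
  · rw [(hlink g h2).2, (hlink h h3).2]
    exact F.lk_eq hG hl hβ (hM g) (hM h) h1 (hlink g h2).1 (hlink h h3).1
  · refine crossDet_ne (hM _) h.2.2 hL.ne' (neg_ne_zero.2 hL.ne') (hder _ _) ?_
      (hneg (Or.inl rfl) h.1 ⟨by linarith [h.2.1.2], by linarith [h.2.1.1]⟩ h.2.2 ?_)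
    · refine ((hder 0 (-p.2.1)).scomp p.2.1 (hasDerivAt_neg p.2.1)).congr_deriv ?_
      simp
    · rintro ⟨n, hn⟩
      exact hy.1.ne' (hpow (hn ▸ h.2.2)).1
  · exact crossDet_ne (hM _) h.1.2.2 hL.ne' hL.ne' (hder _ _) (hder _ _) (hneg' p h.1 h.2.ne)
  · rintro r hr s hs t ht h1 h2 ⟨⟨g, hg⟩, ⟨k, hk⟩⟩
    have g1 : (s, r, g) ∈ meetings G (c y) (c y) := ⟨hs, hr, hg.symm⟩
    have k1 : (t, r, k) ∈ meetings G (c y) (c y) := ⟨ht, hr, hk.symm⟩
    have g2 := hneg' _ g1 h1.ne'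
    have k2 := hneg' _ k1 (h1.trans h2).ne'
    have hE : ∀ {g : G} {s : ℝ}, c y s = g • c y r →
        P g * nsq (hyp L y r) + (Q g - 1) * (hyp L y r).re + R g = 0 := fun h => by
      rw [nsq, hyp_re, hyp_im]
      linear_combination hyp_eqn (hmat h)
    have hq : ∀ g, (Q g - 1 + 1) ^ 2 - 4 * (P g * R g) = 1 := fun g => by
      simp only [P, Q, R]
      linear_combination (M g 0 0 * M g 1 1 - M g 0 1 * M g 1 0 + 1) * det_eq (M g)
    obtain ⟨a1, a2, a3⟩ := det_zero (hq g) (hq k) g2.ne k2.ne (hE g1.2.2) (hE k1.2.2) (by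
      by_contra h
      exact hy1 (mem_biUnion (x := (g, k)) ⟨hmem (Or.inr rfl) hs (hI hr) g1.2.2,
        hmem (Or.inr rfl) ht (hI hr) k1.2.2⟩
        ⟨h, _, (hyp_ratio L y r).symm, hE g1.2.2, hE k1.2.2⟩))
    have a4 : (M k * (M g)⁻¹) 0 1 = 0 := by
      simp only [P, Q, R] at a1 a2
      refine mul_right_cancel₀ (right_ne_zero_of_mul (right_ne_zero_of_mul k2.ne)) ?_
      simp only [mul_entry, inv01, inv11]
      linear_combination M g 0 1 / 2 * (a1 + det_eq (M g) - det_eq (M k)) - M g 0 0 * a2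
    obtain ⟨n, hn⟩ : ∃ n : ℤ, k * g⁻¹ = β ^ n := by
      by_contra h
      exact F.entries_ne hl hp hβ ((hM k).mul (hM g).inv) h (by simp only [a4, zero_mul, mul_zero])
    refine hnp (t, s, k * g⁻¹) ⟨ht, hs, ?_⟩ h2.ne' ⟨n, hn⟩
    rw [mul_smul, show c y s = g • c y r from hg.symm, inv_smul_smul]
    exact hk.symm
  · have a1 := hneg' p h1 h2
    rw [show link p.2.2 = lk (M p.2.2) from if_neg (hnp p h1 h2)]
    rcases ((lk_cases a1.ne).resolve_left fun h => h.1.not_gt a1).2.1 with a3 | a3 <;>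
      rw [a3] <;> decide
  · rintro p h1 q h2 h3 ⟨m, n, h4⟩
    obtain ⟨a1, -⟩ : c y (q.1 - m) = p.2.2 • c y (q.2.1 + n) ∧ True := by
      have e1 := closes_zpow (hc y).closes (-m) q.1
      rw [Int.cast_neg, ← sub_eq_add_neg] at e1
      rw [e1, closes_zpow (hc y).closes, h2.2.2, h4, ← mul_smul, ← mul_smul]
      exact ⟨by congr 1; group, trivial⟩
    have a2 := hneg' p h1 h3
    have a3 : P p.2.2 * (1 + y ^ 2) * Real.exp (L * p.2.1) ^ 2 +
      (Q p.2.2 * y - y) * Real.exp (L * p.2.1) + R p.2.2 = 0 := hyp_eqn (hmat h1.2.2)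
    have a4 : P p.2.2 * (1 + y ^ 2) * Real.exp (L * (q.2.1 + n)) ^ 2 +
      (Q p.2.2 * y - y) * Real.exp (L * (q.2.1 + n)) + R p.2.2 = 0 := hyp_eqn (hmat a1)
    have a5 : Real.exp (L * p.2.1) = Real.exp (L * (q.2.1 + n)) := by
      have b1 := Real.exp_pos (L * p.2.1)
      have b2 := Real.exp_pos (L * (q.2.1 + n))
      generalize Real.exp (L * p.2.1) = u at *
      generalize Real.exp (L * (q.2.1 + n)) = v at *
      have b3 : (u - v) * (P p.2.2 * (1 + y ^ 2) * u * v - R p.2.2) = 0 := by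
        linear_combination v * a3 - u * a4
      refine sub_eq_zero.1 ((mul_eq_zero.1 b3).resolve_right fun h => ?_)
      rw [← sub_eq_zero.1 h] at a2
      have b4 : 0 ≤ P p.2.2 * P p.2.2 * ((1 + y ^ 2) * u * v) :=
        mul_nonneg (mul_self_nonneg _) (by positivity)
      linarith
    have a6 := mul_left_cancel₀ hL.ne' (Real.exp_injective a5)
    rw [← a6, ← h1.2.2] at a1
    have a7 : q.1 = p.1 + m := by rw [← (hinj a1).2, sub_add_cancel]
    have a8 := eq_of_int_shift h1.2.1 h2.2.1 a6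
    have a9 := eq_of_int_shift h2.1 h1.1 a7
    subst a8 a9
    exact Prod.ext (by simpa using a7.symm) (Prod.ext (by simpa using a6) (by simpa using h4.symm))

theorem Fuchs.main (F : Fuchs G e) (hG : HasHoms G) (hp : IsPrimitiveClass β) : Main (cd e) β := by
  obtain ⟨M, hM, h2⟩ := F.exists_tr hp.ne_one
  rcases h2.eq_or_lt with h | h
  · obtain ⟨K, τ, hτ, h3⟩ := exists_parab M h.symm fun h1 =>
      hp.ne_one (F.eq_of_acts (h1 ▸ hM) Acts.one)
    exact F.main_rechart K ((F.rechart K).main_par hp (τ := τ) (h3 ▸ hM.rechart K :) hτ)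
  · obtain ⟨K, l, hl, h3⟩ := exists_diag M h
    exact F.main_rechart K ((F.rechart K).main_hyp hG hl hp (h3 ▸ hM.rechart K))

end Pool.Agent.MP_46f5ab_gt
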