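import Mathlib
import Pool.Agent.MP_46f5ab_gt.Defs

section

/-! The signed count of the crossings of two plane curves, by a logarithmic integral. -/

namespace Pool.Agent.MP_46f5ab_gt

open Complex Set Filter Topology

/-- The integral of `dz / (z - p)` along a piece of a curve. -/
noncomputable def ang (Γ : ℝ → ℂ) (A B : ℝ) (p : ℂ) : ℂ := ∫ t in A..B, deriv Γ t / (Γ t - p)

variable {Γ c : ℝ → ℂ}

lemma hasDerivAt_of_contDiff (h : ContDiff ℝ 1 Γ) (t : ℝ) : HasDerivAt Γ (deriv Γ t) t :=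
  (h.differentiable one_ne_zero t).hasDerivAt

lemma ang_integrable (h : ContDiff ℝ 1 Γ) {A B : ℝ} {p : ℂ} (hp : ∀ t ∈ uIcc A B, Γ t ≠ p) :
    IntervalIntegrable (fun t => deriv Γ t / (Γ t - p)) MeasureTheory.volume A B :=
  ((h.continuous_deriv le_rfl).continuousOn.div (h.continuous.sub continuous_const).continuousOn
    fun t ht => sub_ne_zero.2 (hp t ht)).intervalIntegrable

lemma ang_log (h : ContDiff ℝ 1 Γ) {A B : ℝ} {p v : ℂ} (hv : v ≠ 0)
    (hp : ∀ t ∈ uIcc A B, (Γ t - p) / v ∈ slitPlane) :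
    ang Γ A B p = log ((Γ B - p) / v) - log ((Γ A - p) / v) := by
  have h0 : ∀ t ∈ uIcc A B, Γ t ≠ p := fun t ht h1 => by
    have := slitPlane_ne_zero (hp t ht)
    simp [h1] at this
  refine intervalIntegral.integral_eq_sub_of_hasDerivAt
    (f := fun t => log ((Γ t - p) / v)) (fun t ht => ?_) (ang_integrable h h0)
  have h1 := (((hasDerivAt_of_contDiff h t).sub_const p).div_const v).clog_real (hp t ht)
  rwa [div_div_div_cancel_right₀ hv] at h1

lemma ang_add (h : ContDiff ℝ 1 Γ) {A B C : ℝ} {p : ℂ} (h1 : ∀ t ∈ uIcc A B, Γ t ≠ p)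
    (h2 : ∀ t ∈ uIcc B C, Γ t ≠ p) : ang Γ A B p + ang Γ B C p = ang Γ A C p :=
  intervalIntegral.integral_add_adjacent_intervals (ang_integrable h h1) (ang_integrable h h2)

lemma exp_ang (h : ContDiff ℝ 1 Γ) {A B : ℝ} (hAB : A ≤ B) {p : ℂ} (hp : ∀ t ∈ Icc A B, Γ t ≠ p) :
    exp (-ang Γ A B p) * (Γ B - p) = Γ A - p := by
  have hd : ∀ x ∈ Icc A B, HasDerivAt (fun x => exp (-ang Γ A x p) * (Γ x - p)) 0 x := by
    intro x hx
    have h0 := sub_ne_zero.2 (hp x hx)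
    have h1 : HasDerivAt (fun x => ang Γ A x p) (deriv Γ x / (Γ x - p)) x := by
      refine intervalIntegral.integral_hasDerivAt_right (ang_integrable h fun t ht => hp t ?_) ?_ ?_
      · rw [uIcc_of_le hx.1] at ht
        exact ⟨ht.1, ht.2.trans hx.2⟩
      · exact ((h.continuous_deriv le_rfl).measurable.div
          (h.continuous.sub continuous_const).measurable).stronglyMeasurable.stronglyMeasurableAtFilter
      · exact (h.continuous_deriv le_rfl).continuousAt.div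
          (h.continuous.sub continuous_const).continuousAt h0
    have h2 := h1.neg.cexp.mul ((hasDerivAt_of_contDiff h x).sub_const p)
    refine h2.congr_deriv ?_
    field_simp
    ring
  have := constant_of_has_deriv_right_zero (fun x hx => (hd x hx).continuousAt.continuousWithinAt)
    (fun x hx => (hd x (Ico_subset_Icc_self hx)).hasDerivWithinAt) B ⟨hAB, le_rfl⟩
  simpa [ang] using this

lemma ang_continuousAt (h : ContDiff ℝ 1 Γ) {A B : ℝ} {p : ℂ} (hp : ∀ t ∈ uIcc A B, Γ t ≠ p) :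
    ContinuousAt (ang Γ A B) p := by
  obtain ⟨t0, ht0, hm⟩ := isCompact_uIcc.exists_isMinOn (nonempty_uIcc (a := A) (b := B))
    (f := fun t => ‖Γ t - p‖) (h.continuous.sub continuous_const).norm.continuousOn
  have hε : 0 < ‖Γ t0 - p‖ := norm_pos_iff.2 (sub_ne_zero.2 (hp t0 ht0))
  set ε := ‖Γ t0 - p‖ with hεd
  refine intervalIntegral.continuousAt_of_dominated_interval
    (bound := fun t => ‖deriv Γ t‖ / (ε / 2)) (Eventually.of_forall fun x => ?_) ?_ ?_ ?_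
  · exact ((h.continuous_deriv le_rfl).measurable.div
      (h.continuous.sub continuous_const).measurable).aestronglyMeasurable
  · filter_upwards [Metric.ball_mem_nhds p (half_pos hε)] with x hx
    refine Eventually.of_forall fun t ht => ?_
    rw [norm_div]
    refine div_le_div_of_nonneg_left (norm_nonneg _) (half_pos hε) ?_
    have h1 : ε ≤ ‖Γ t - p‖ := hm (uIoc_subset_uIcc ht)
    have h2 := norm_sub_le_norm_sub_add_norm_sub (Γ t) x p
    rw [mem_ball_iff_norm] at hx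
    linarith
  · exact ((h.continuous_deriv le_rfl).norm.div_const _).intervalIntegrable _ _
  · refine Eventually.of_forall fun t ht => ?_
    exact continuousAt_const.div (continuousAt_const.sub continuousAt_id)
      (sub_ne_zero.2 (hp t (uIoc_subset_uIcc ht)))

lemma glue {a b : ℝ} (good : Set ℝ) (hd : ∀ y ∈ Icc a b, y ∈ closure good) (R : ℝ → ℝ → Prop)
    (htr : ∀ x ∈ good, ∀ y ∈ good, ∀ z ∈ good, R x y → R y z → R x z)
    (hloc : ∀ x ∈ Icc a b, ∃ U ∈ 𝓝 x, ∀ y ∈ U ∩ good, ∀ z ∈ U ∩ good, R y z) (hab : a ≤ b)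
    (ha : a ∈ good) (hb : b ∈ good) : R a b := by
  have key := isPreconnected_Icc.induction₂' (fun x y => y ∈ closure good ∧
    ∀ᶠ x' in 𝓝 x, ∀ᶠ y' in 𝓝 y, x' ∈ good → y' ∈ good → R x' y') ?_ ?_
    (left_mem_Icc.2 hab) (right_mem_Icc.2 hab)
  · exact key.2.self_of_nhds.self_of_nhds ha hb
  · intro x hx
    obtain ⟨U, hU, h⟩ := hloc x hx
    filter_upwards [self_mem_nhdsWithin, nhdsWithin_le_nhds (eventually_mem_nhds_iff.2 hU)]
      with y hy hUy
    refine ⟨⟨hd y hy, ?_⟩, hd x hx, ?_⟩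
    · filter_upwards [hU] with x' hx'
      filter_upwards [hUy] with y' hy' g1 g2 using h _ ⟨hx', g1⟩ _ ⟨hy', g2⟩
    · filter_upwards [hUy] with x' hx'
      filter_upwards [hU] with y' hy' g1 g2 using h _ ⟨hx', g1⟩ _ ⟨hy', g2⟩
  · rintro x y z - - - ⟨h1, h2⟩ ⟨h3, h4⟩
    refine ⟨h3, ?_⟩
    filter_upwards [h2] with x' hx'
    obtain ⟨y', g1, g2, g3⟩ := ((mem_closure_iff_frequently.1 h1).and_eventually (hx'.and h4)).exists
    filter_upwards [g3] with z' hz' g4 g5 using htr _ g4 _ g1 _ g5 (g2 g4 g1) (hz' g1 g5)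

lemma mem_closure_diff {a b : ℝ} (hab : a < b) {S : Set ℝ} (hS : S.Finite) :
    ∀ y ∈ Icc a b, y ∈ closure (Icc a b \ S) := by
  intro y hy
  rw [← closure_Ioo hab.ne] at hy
  have h1 : Dense Sᶜ := by
    rw [compl_eq_univ_sdiff]
    exact dense_univ.sdiff_finite hS
  have h2 := h1.open_subset_closure_inter (isOpen_Ioo (a := a) (b := b))
  exact closure_mono (inter_subset_inter_left _ Ioo_subset_Icc_self)
    (closure_minimal h2 isClosed_closure hy)

lemma sum_loc {ι : Type*} (Z : Finset ι) (π : ι → ℝ) (f : ι → ℂ) (x : ℝ) :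
    ∀ᶠ z in 𝓝 x, ∑ p ∈ Z with π p < z, f p =
      ∑ p ∈ Z with π p < x, f p + if x < z then ∑ p ∈ Z with π p = x, f p else 0 := by
  have h1 : ∀ᶠ z in 𝓝 x, ∀ p ∈ Z, (π p < x → π p < z) ∧ (x < π p → z < π p) := by
    rw [Filter.eventually_all_finset]
    intro p _
    rcases lt_trichotomy (π p) x with h | h | h
    · filter_upwards [lt_mem_nhds h] with z hz using ⟨fun _ => hz, fun h' => absurd h h'.not_gt⟩
    · exact Eventually.of_forall fun z => ⟨fun h' => absurd h h'.ne, fun h' => absurd h h'.ne'⟩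
    · filter_upwards [gt_mem_nhds h] with z hz using ⟨fun h' => absurd h h'.not_gt, fun _ => hz⟩
  filter_upwards [h1] with z hz
  have h2 : (if x < z then ∑ p ∈ Z with π p = x, f p else 0) =
      ∑ p ∈ Z, if x < z ∧ π p = x then f p else 0 := by
    by_cases h : x < z <;> simp [h, Finset.sum_filter]
  rw [h2, Finset.sum_filter, Finset.sum_filter, ← Finset.sum_add_distrib]
  refine Finset.sum_congr rfl fun p hp => ?_
  obtain ⟨g1, g2⟩ := hz p hp
  rcases lt_trichotomy (π p) x with h | h | h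
  · simp [h, g1 h, h.ne]
  · simp [h]
  · simp [h.not_gt, (g2 h).not_gt, h.ne']

lemma local_cone (hΓ : ContDiff ℝ 1 Γ) (hc : ContDiff ℝ 1 c) {t0 s0 : ℝ} (h0 : Γ t0 = c s0)
    (hq : (deriv Γ t0 / deriv c s0).im ≠ 0) :
    ∀ᶠ p : ℝ × ℝ in 𝓝 (t0, s0),
      (s0 < p.2 → (Γ p.1 - c p.2) / (-deriv c s0) ∈ slitPlane) ∧
      (p.2 < s0 → (Γ p.1 - c p.2) / deriv c s0 ∈ slitPlane) ∧
      (p.1 ≠ t0 → 0 < (p.1 - t0) * (deriv Γ t0 / deriv c s0).im *
        ((Γ p.1 - c s0) / deriv c s0).im) := by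
  set v := deriv c s0 with hv
  set q := deriv Γ t0 / v with hqd
  have hv0 : v ≠ 0 := fun h => hq (by simp [hqd, h])
  have ha : Tendsto (fun p : ℝ × ℝ => dslope Γ t0 p.1 / v) (𝓝 (t0, s0)) (𝓝 q) := by
    have h1 := continuousAt_dslope_same.2 (hΓ.differentiable one_ne_zero t0)
    have h2 := (h1.tendsto.comp (continuousAt_fst (p := (t0, s0))).tendsto).div_const v
    rwa [dslope_same] at h2
  have hb : Tendsto (fun p : ℝ × ℝ => dslope c s0 p.2 / v) (𝓝 (t0, s0)) (𝓝 1) := by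
    have h1 := continuousAt_dslope_same.2 (hc.differentiable one_ne_zero s0)
    have h2 := (h1.tendsto.comp (continuousAt_snd (p := (t0, s0))).tendsto).div_const v
    rwa [dslope_same, ← hv, div_self hv0] at h2
  have ar := (continuous_re.tendsto _).comp ha
  have ai := (continuous_im.tendsto _).comp ha
  have br := (continuous_re.tendsto _).comp hb
  have bi := (continuous_im.tendsto _).comp hb
  have hq2 : 0 < q.im * q.im := mul_self_pos.2 hq
  have e1 := (ai.const_mul q.im).eventually (lt_mem_nhds hq2)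
  have e2 := (((br.mul ai).sub (ar.mul bi)).mul ai).eventually (lt_mem_nhds (a := 0) (by simpa using hq2))
  filter_upwards [e1, e2] with p g1 g2
  simp only [Function.comp] at g1 g2
  have d1 : Γ p.1 - c s0 = (p.1 - t0 : ℝ) * dslope Γ t0 p.1 := by
    rw [← h0, ← sub_smul_dslope Γ t0 p.1, real_smul]
  have d2 : c p.2 - c s0 = (p.2 - s0 : ℝ) * dslope c s0 p.2 := by
    rw [← sub_smul_dslope c s0 p.2, real_smul]
  have d3 : (Γ p.1 - c p.2) / v =
      (p.1 - t0 : ℝ) * (dslope Γ t0 p.1 / v) - (p.2 - s0 : ℝ) * (dslope c s0 p.2 / v) := by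
    rw [← mul_div_assoc, ← mul_div_assoc, ← d1, ← d2]
    ring
  have d4 : (Γ p.1 - c s0) / v = (p.1 - t0 : ℝ) * (dslope Γ t0 p.1 / v) := by
    rw [d1, mul_div_assoc]
  generalize dslope Γ t0 p.1 / v = α at *
  generalize dslope c s0 p.2 / v = β at *
  have hα : 0 < α.im * α.im := mul_self_pos.2 fun h => by simp [h] at g1
  have key : ((Γ p.1 - c p.2) / v).im = 0 → ((Γ p.1 - c p.2) / v).re * (α.im * α.im) =
      -(p.2 - s0) * ((β.re * α.im - α.re * β.im) * α.im) := by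
    rw [d3]
    simp only [sub_im, sub_re, re_ofReal_mul, im_ofReal_mul]
    intro h
    linear_combination α.re * α.im * h
  refine ⟨fun h => ?_, fun h => ?_, fun h => ?_⟩
  · rw [div_neg, mem_slitPlane_iff, neg_re, neg_im, neg_ne_zero, or_iff_not_imp_right, not_not]
    intro h1
    have h2 := key h1
    have h3 := mul_pos (sub_pos.2 h) g2
    nlinarith
  · rw [mem_slitPlane_iff, or_iff_not_imp_right, not_not]
    intro h1
    have h2 := key h1
    have h3 := mul_pos (sub_pos.2 h) g2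
    nlinarith
  · rw [d4, im_ofReal_mul]
    have h3 := mul_pos (mul_self_pos.2 (sub_ne_zero.2 h)) g1
    linarith

/-- The determinant of the two velocities. -/
noncomputable def dt (Γ c : ℝ → ℂ) (p : ℝ × ℝ) : ℝ := (starRingEnd ℂ (deriv Γ p.1) * deriv c p.2).im

/-- The sign of a crossing. -/
noncomputable def sg (Γ c : ℝ → ℂ) (p : ℝ × ℝ) : ℤ := (SignType.sign (dt Γ c p) : SignType)

lemma div_im_dt {p : ℝ × ℝ} (h : dt Γ c p ≠ 0) : (deriv Γ p.1 / deriv c p.2).im * dt Γ c p < 0 := by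
  unfold dt at *
  generalize deriv Γ p.1 = u at *
  generalize deriv c p.2 = v at *
  have hv : 0 < normSq v := normSq_pos.2 fun h1 => h (by simp [h1])
  have h1 : (u / v).im = -(starRingEnd ℂ u * v).im / normSq v := by
    rw [div_im]
    simp
    ring
  rw [h1, div_mul_eq_mul_div]
  exact div_neg_of_neg_of_pos (by nlinarith [mul_self_pos.2 h]) hv

lemma local_box (hΓ : ContDiff ℝ 1 Γ) (hc : ContDiff ℝ 1 c) {t0 s0 : ℝ} (h0 : Γ t0 = c s0)
    (hq : dt Γ c (t0, s0) ≠ 0) : ∃ l r, t0 ∈ Ioo l r ∧ (∀ᶠ s in 𝓝 s0, ∀ t ∈ Ioo l r,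
      (s0 < s → (Γ t - c s) / (-deriv c s0) ∈ slitPlane) ∧
      (s < s0 → (Γ t - c s) / deriv c s0 ∈ slitPlane)) ∧ ∀ t ∈ Ioo l r, t ≠ t0 →
        (t - t0) * dt Γ c (t0, s0) * ((Γ t - c s0) / deriv c s0).im < 0 := by
  have h1 := div_im_dt hq
  have h2 := local_cone hΓ hc h0 (fun h => by simp [h] at h1)
  rw [nhds_prod_eq, eventually_prod_iff] at h2
  obtain ⟨pa, ha, pb, hb, h3⟩ := h2
  obtain ⟨l, r, h4, h5⟩ := mem_nhds_iff_exists_Ioo_subset.1 ha
  refine ⟨l, r, h4, hb.mono fun s hs t ht => ⟨(h3 (h5 ht) hs).1, (h3 (h5 ht) hs).2.1⟩,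
    fun t ht h6 => ?_⟩
  have h7 := (h3 (h5 ht) hb.self_of_nhds).2.2 h6
  simp only at h1 h7
  by_contra h8
  have h9 := mul_pos h7 (neg_pos.2 h1)
  nlinarith [mul_nonneg (not_lt.1 h8) (mul_self_nonneg (deriv Γ t0 / deriv c s0).im)]

/-- The crossings in a rectangle of parameters. -/
def zeros (Γ c : ℝ → ℂ) (A B a b : ℝ) : Set (ℝ × ℝ) := {p | p ∈ Icc A B ×ˢ Icc a b ∧ Γ p.1 = c p.2}

lemma zeros_finite (hΓ : ContDiff ℝ 1 Γ) (hc : ContDiff ℝ 1 c) {A B a b : ℝ}
    (htr : ∀ p ∈ zeros Γ c A B a b, dt Γ c p ≠ 0) : (zeros Γ c A B a b).Finite := by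
  refine IsCompact.finite ((isCompact_Icc.prod isCompact_Icc).inter_right
    (isClosed_eq (hΓ.continuous.comp continuous_fst) (hc.continuous.comp continuous_snd))) ?_
  rw [isDiscrete_iff_nhdsNE]
  rintro ⟨t0, s0⟩ hp
  obtain ⟨l, r, h1, h2, h3⟩ := local_box hΓ hc hp.2 (htr _ hp)
  rw [inf_principal_eq_bot]
  have h4 : ∀ᶠ p : ℝ × ℝ in 𝓝 (t0, s0), p.1 ∈ Ioo l r :=
    continuousAt_fst.eventually (Ioo_mem_nhds h1.1 h1.2)
  have h5 := (continuousAt_snd (p := (t0, s0))).eventually h2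
  filter_upwards [self_mem_nhdsWithin, nhdsWithin_le_nhds h4, nhdsWithin_le_nhds h5]
    with p g1 g2 g3 g4
  have g5 := g3 _ g2
  rw [g4.2, sub_self, zero_div, zero_div] at g5
  rcases lt_trichotomy s0 p.2 with h | h | h
  · exact zero_notMem_slitPlane (g5.1 h)
  · have g6 := h3 _ g2 fun h6 => g1 (Prod.ext h6 h.symm)
    rw [g4.2, h] at g6
    simp at g6
  · exact zero_notMem_slitPlane (g5.2 h)

/-- The integral jumps by `j` when the point `c s` passes `c s0`. -/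
def Jmp (Γ c : ℝ → ℂ) (s0 y z : ℝ) (j : ℂ) : Prop :=
  ∃ w, Tendsto (fun s => ang Γ y z (c s)) (𝓝[<] s0) (𝓝 w) ∧
    Tendsto (fun s => ang Γ y z (c s)) (𝓝[>] s0) (𝓝 (w + j))

lemma log_neg_sub {w : ℂ} {σ : ℝ} (h : σ * w.im < 0) :
    log (-w) - log w = Real.pi * I * ((SignType.sign σ : SignType) : ℤ) := by
  rcases lt_trichotomy σ 0 with h1 | h1 | h1
  · have h2 : 0 < w.im := by nlinarith
    simp only [log, arg_neg_eq_arg_sub_pi_of_im_pos h2, norm_neg, sign_neg h1]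
    push_cast
    simp
    ring
  · simp [h1] at h
  · have h2 : w.im < 0 := by nlinarith
    simp only [log, arg_neg_eq_arg_add_pi_of_im_neg h2, norm_neg, sign_pos h1]
    push_cast
    simp
    ring

lemma jmp_local (hΓ : ContDiff ℝ 1 Γ) (hc : ContDiff ℝ 1 c) {t0 s0 : ℝ} (h0 : Γ t0 = c s0)
    (hq : dt Γ c (t0, s0) ≠ 0) : ∃ U ∈ 𝓝 t0, ∀ y ∈ U, ∀ z ∈ U, y ≠ t0 → z ≠ t0 →
      Jmp Γ c s0 y z ((if t0 < z then 2 * Real.pi * I * sg Γ c (t0, s0) else 0) -
        if t0 < y then 2 * Real.pi * I * sg Γ c (t0, s0) else 0) := by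
  obtain ⟨l, r, h1, h2, h3⟩ := local_box hΓ hc h0 hq
  set v := deriv c s0 with hv
  have hv0 : v ≠ 0 := fun h => hq (by simp [dt, ← hv, h])
  have him : ∀ t ∈ Ioo l r, t ≠ t0 → ((Γ t - c s0) / v).im ≠ 0 := fun t ht h h4 => by
    simpa [h4] using h3 t ht h
  have hlim : ∀ u : ℂ, ∀ t, ((Γ t - c s0) / u).im ≠ 0 →
      Tendsto (fun s => log ((Γ t - c s) / u)) (𝓝 s0) (𝓝 (log ((Γ t - c s0) / u))) := fun u t h =>
    ((continuousAt_const.sub hc.continuous.continuousAt).div_const u).clog (Or.inr h)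
  have hL : ∀ t ∈ Ioo l r, t ≠ t0 → log ((Γ t - c s0) / (-v)) = log ((Γ t - c s0) / v) +
      ((if t0 < t then 2 * Real.pi * I * sg Γ c (t0, s0) else 0) -
        Real.pi * I * sg Γ c (t0, s0)) := by
    intro t ht h
    rw [div_neg, ← sub_eq_iff_eq_add', log_neg_sub (h3 t ht h), sign_mul, sg]
    rcases h.lt_or_gt with h4 | h4
    · simp [h4.not_gt, sign_neg (sub_neg.2 h4)]
    · simp only [h4, sign_pos (sub_pos.2 h4), one_mul, if_true]
      ring
  refine ⟨Ioo l r, Ioo_mem_nhds h1.1 h1.2, fun y hy z hz hy0 hz0 =>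
    ⟨log ((Γ z - c s0) / v) - log ((Γ y - c s0) / v), ?_, ?_⟩⟩
  · refine (((hlim v z (him z hz hz0)).sub (hlim v y (him y hy hy0))).mono_left
      nhdsWithin_le_nhds).congr' ?_
    filter_upwards [self_mem_nhdsWithin, nhdsWithin_le_nhds h2] with s g1 g2
    exact (ang_log hΓ hv0 fun t ht => (g2 t (ordConnected_Ioo.uIcc_subset hy hz ht)).2 g1).symm
  · have hn : ∀ t ∈ Ioo l r, t ≠ t0 → ((Γ t - c s0) / (-v)).im ≠ 0 := fun t ht h => by
      rw [div_neg, neg_im, neg_ne_zero]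
      exact him t ht h
    have h4 := (hlim (-v) z (hn z hz hz0)).sub (hlim (-v) y (hn y hy hy0))
    rw [hL z hz hz0, hL y hy hy0] at h4
    refine ((h4.mono_left nhdsWithin_le_nhds).congr' ?_).trans (le_of_eq ?_)
    · filter_upwards [self_mem_nhdsWithin, nhdsWithin_le_nhds h2] with s g1 g2
      exact (ang_log hΓ (neg_ne_zero.2 hv0)
        fun t ht => (g2 t (ordConnected_Ioo.uIcc_subset hy hz ht)).1 g1).symm
    · congr 1
      ring

lemma jmp_global (hΓ : ContDiff ℝ 1 Γ) (hc : ContDiff ℝ 1 c) {A B s0 : ℝ} (hAB : A < B)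
    (hne : ∀ᶠ s in 𝓝[≠] s0, ∀ t ∈ Icc A B, Γ t ≠ c s) (Z : Finset (ℝ × ℝ))
    (hZ : ∀ p, p ∈ Z ↔ (p.1 ∈ Icc A B ∧ p.2 = s0 ∧ Γ p.1 = c s0))
    (htr : ∀ p ∈ Z, dt Γ c p ≠ 0) (hA : Γ A ≠ c s0) (hB : Γ B ≠ c s0) :
    Jmp Γ c s0 A B (∑ p ∈ Z, 2 * Real.pi * I * sg Γ c p) := by
  set f : ℝ × ℝ → ℂ := fun p => 2 * Real.pi * I * sg Γ c p with hf
  set N : ℝ → ℂ := fun z => ∑ p ∈ Z with p.1 < z, f p with hN
  have hgood : ∀ t, t ∈ Icc A B \ (Prod.fst '' (Z : Set (ℝ × ℝ))) ↔ t ∈ Icc A B ∧ Γ t ≠ c s0 := by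
    intro t
    refine and_congr_right fun ht => not_congr ⟨?_, fun h => ⟨(t, s0), (hZ _).2 ⟨ht, rfl, h⟩, rfl⟩⟩
    rintro ⟨p, hp, rfl⟩
    exact ((hZ p).1 hp).2.2
  have key := glue _ (mem_closure_diff hAB (Z.finite_toSet.image Prod.fst))
    (fun y z => Jmp Γ c s0 y z (N z - N y)) ?_ ?_ hAB.le
    ((hgood A).2 ⟨left_mem_Icc.2 hAB.le, hA⟩) ((hgood B).2 ⟨right_mem_Icc.2 hAB.le, hB⟩)
  · have h1 : N A = 0 := Finset.sum_eq_zero fun p hp => by
      rw [Finset.mem_filter] at hp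
      exact absurd hp.2 ((hZ p).1 hp.1).1.1.not_gt
    have h2 : N B = ∑ p ∈ Z, f p := by
      refine Finset.sum_congr (Finset.filter_true_of_mem fun p hp => ?_) fun _ _ => rfl
      obtain ⟨g1, -, g2⟩ := (hZ p).1 hp
      exact g1.2.lt_of_ne fun h => hB (h ▸ g2)
    simpa only [h1, h2, sub_zero] using key
  · rintro x hx y hy z hz ⟨w, a1, a2⟩ ⟨w', b1, b2⟩
    have h1 : ∀ᶠ s in 𝓝[≠] s0, ang Γ x y (c s) + ang Γ y z (c s) = ang Γ x z (c s) :=
      hne.mono fun s hs => ang_add hΓ (fun t ht => hs t (ordConnected_Icc.uIcc_subset hx.1 hy.1 ht))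
        fun t ht => hs t (ordConnected_Icc.uIcc_subset hy.1 hz.1 ht)
    refine ⟨w + w', (a1.add b1).congr' (h1.filter_mono (nhdsLT_le_nhdsNE s0)),
      ((a2.add b2).congr' (h1.filter_mono (nhdsGT_le_nhdsNE s0))).trans (le_of_eq ?_)⟩
    congr 1
    ring
  · intro x hx
    have h1 := sum_loc Z Prod.fst f x
    by_cases h0 : Γ x = c s0
    · have hm : (x, s0) ∈ Z := (hZ _).2 ⟨hx, rfl, h0⟩
      have h2 : ∑ p ∈ Z with p.1 = x, f p = f (x, s0) := by
        refine Finset.sum_eq_single_of_mem _ (Finset.mem_filter.2 ⟨hm, rfl⟩) fun p hp h => ?_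
        rw [Finset.mem_filter] at hp
        exact absurd (Prod.ext hp.2 ((hZ p).1 hp.1).2.1) h
      obtain ⟨U, hU, h3⟩ := jmp_local hΓ hc h0 (htr _ hm)
      refine ⟨_, inter_mem hU h1, fun y hy z hz => ?_⟩
      have h4 := h3 y hy.1.1 z hz.1.1 (fun h => ((hgood y).1 hy.2).2 (h ▸ h0))
        fun h => ((hgood z).1 hz.2).2 (h ▸ h0)
      have e1 : N y = _ := hy.1.2
      have e2 : N z = _ := hz.1.2
      rwa [e1, e2, h2, add_sub_add_left_eq_sub]
    · have h2 : ∑ p ∈ Z with p.1 = x, f p = 0 := Finset.sum_eq_zero fun p hp => by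
        rw [Finset.mem_filter] at hp
        exact absurd (hp.2 ▸ ((hZ p).1 hp.1).2.2) h0
      obtain ⟨l, r, h3, h4⟩ := mem_nhds_iff_exists_Ioo_subset.1
        (hΓ.continuous.continuousAt.eventually_ne h0)
      refine ⟨_, inter_mem (Ioo_mem_nhds h3.1 h3.2) h1, fun y hy z hz => ?_⟩
      have e1 : N y = _ := hy.1.2
      have e2 : N z = _ := hz.1.2
      have h5 := (ang_continuousAt hΓ (p := c s0) fun t ht =>
        h4 (ordConnected_Ioo.uIcc_subset hy.1.1 hz.1.1 ht)).tendsto.comp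
        (hc.continuous.tendsto s0)
      rw [e1, e2, h2, ite_self, ite_self, sub_self]
      exact ⟨_, h5.mono_left nhdsWithin_le_nhds, by
        rw [add_zero]
        exact h5.mono_left nhdsWithin_le_nhds⟩

/-- The integral corrected by the logarithms at the two ends. -/
noncomputable def kk (Γ : ℝ → ℂ) (A B : ℝ) (p : ℂ) : ℂ := ang Γ A B p - log (Γ B - p) + log (Γ A - p)

lemma kk_int (h : ContDiff ℝ 1 Γ) {A B : ℝ} (hAB : A ≤ B) {p : ℂ} (hp : ∀ t ∈ Icc A B, Γ t ≠ p) :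
    ∃ n : ℤ, kk Γ A B p = n * (2 * Real.pi * I) := by
  have h1 := exp_ang h hAB hp
  have hA := sub_ne_zero.2 (hp A (left_mem_Icc.2 hAB))
  have hB := sub_ne_zero.2 (hp B (right_mem_Icc.2 hAB))
  rw [← exp_eq_one_iff, kk, exp_add, exp_sub, exp_log hA, exp_log hB, ← h1, exp_neg]
  have := exp_ne_zero (ang Γ A B p)
  field_simp

theorem rect (hΓ : ContDiff ℝ 1 Γ) (hc : ContDiff ℝ 1 c) {A B a b : ℝ} (hAB : A < B) (hab : a < b)
    (hup : ∀ s ∈ Icc a b, (Γ A).im < (c s).im ∧ (c s).im < (Γ B).im)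
    (ha : ∀ t ∈ Icc A B, Γ t ≠ c a) (hb : ∀ t ∈ Icc A B, Γ t ≠ c b)
    (htr : ∀ p ∈ zeros Γ c A B a b, dt Γ c p ≠ 0) :
    kk Γ A B (c b) - kk Γ A B (c a) =
      2 * Real.pi * I * (∑ᶠ p ∈ zeros Γ c A B a b, sg Γ c p : ℤ) := by
  have hfin := zeros_finite hΓ hc htr
  rw [finsum_mem_eq_finite_toFinset_sum _ hfin]
  set Z := hfin.toFinset with hZd
  have hZ : ∀ p, p ∈ Z ↔ (p.1 ∈ Icc A B ∧ p.2 ∈ Icc a b) ∧ Γ p.1 = c p.2 := fun p =>
    hfin.mem_toFinset
  set f : ℝ × ℝ → ℂ := fun p => 2 * Real.pi * I * sg Γ c p with hf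
  set N : ℝ → ℂ := fun z => ∑ p ∈ Z with p.2 < z, f p with hN
  have hS := Z.finite_toSet.image Prod.snd
  have hgood : ∀ s, s ∈ Icc a b \ (Prod.snd '' (Z : Set (ℝ × ℝ))) ↔
      s ∈ Icc a b ∧ ∀ t ∈ Icc A B, Γ t ≠ c s := by
    intro s
    refine and_congr_right fun hs => ⟨fun h t ht h1 => h ⟨(t, s), (hZ _).2 ⟨⟨ht, hs⟩, h1⟩, rfl⟩, ?_⟩
    rintro h ⟨p, hp, rfl⟩
    exact h _ ((hZ p).1 hp).1.1 ((hZ p).1 hp).2
  have key := glue _ (mem_closure_diff hab hS)
    (fun y z => kk Γ A B (c y) - N y = kk Γ A B (c z) - N z) (fun _ _ _ _ _ _ => Eq.trans) ?_ hab.le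
    ((hgood a).2 ⟨left_mem_Icc.2 hab.le, ha⟩) ((hgood b).2 ⟨right_mem_Icc.2 hab.le, hb⟩)
  · have h1 : N a = 0 := Finset.sum_eq_zero fun p hp => by
      rw [Finset.mem_filter] at hp
      exact absurd hp.2 ((hZ p).1 hp.1).1.2.1.not_gt
    have h2 : N b = ∑ p ∈ Z, f p := by
      refine Finset.sum_congr (Finset.filter_true_of_mem fun p hp => ?_) fun _ _ => rfl
      obtain ⟨⟨g1, g2⟩, g3⟩ := (hZ p).1 hp
      exact g2.2.lt_of_ne fun h => hb _ g1 (h ▸ g3)
    rw [h1, h2] at key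
    push_cast
    rw [Finset.mul_sum]
    linear_combination -key
  intro x hx
  set good := Icc a b \ (Prod.snd '' (Z : Set (ℝ × ℝ))) with hgd
  have hlog : Tendsto (fun s => -log (Γ B - c s) + log (Γ A - c s)) (𝓝 x)
      (𝓝 (-log (Γ B - c x) + log (Γ A - c x))) := by
    refine ContinuousAt.add (ContinuousAt.neg ?_) ?_ <;>
      refine (continuousAt_const.sub hc.continuous.continuousAt).clog (Or.inr ?_)
    · exact (sub_pos.2 (hup x hx).2).ne'
    · exact (sub_neg.2 (hup x hx).1).ne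
  have h1 := sum_loc Z Prod.snd f x
  obtain ⟨v, hv⟩ : ∃ v, Tendsto (fun s => kk Γ A B (c s) - N s) (𝓝[good] x) (𝓝 v) := by
    by_cases hxg : x ∈ good
    · have h2 : ∑ p ∈ Z with p.2 = x, f p = 0 := Finset.sum_eq_zero fun p hp => by
        rw [Finset.mem_filter] at hp
        exact absurd ⟨p, hp.1, hp.2⟩ hxg.2
      have h5 := (ang_continuousAt hΓ (p := c x) (A := A) (B := B) fun t ht =>
        ((hgood x).1 hxg).2 t (uIcc_of_le hAB.le ▸ ht)).tendsto.comp (hc.continuous.tendsto x)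
      refine ⟨_, (((h5.add hlog).sub_const (N x)).congr' ?_).mono_left nhdsWithin_le_nhds⟩
      filter_upwards [h1] with s hs
      rw [h2, ite_self, add_zero] at hs
      simp only [hN, hs, kk, Function.comp]
      ring
    · have hxa : a < x := hx.1.lt_of_ne fun h => hxg (h ▸ (hgood a).2 ⟨left_mem_Icc.2 hab.le, ha⟩)
      have hxb : x < b := hx.2.lt_of_ne fun h => hxg (h ▸ (hgood b).2 ⟨right_mem_Icc.2 hab.le, hb⟩)
      have h2 : ∀ᶠ s in 𝓝[≠] x, s ∈ good := by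
        have h6 : ((Prod.snd '' (Z : Set (ℝ × ℝ))) \ {x})ᶜ ∈ 𝓝 x :=
          hS.sdiff.isClosed.isOpen_compl.mem_nhds (by simp)
        filter_upwards [nhdsWithin_le_nhds (Icc_mem_nhds hxa hxb), nhdsWithin_le_nhds h6,
          self_mem_nhdsWithin] with s g1 g2 g3
        exact ⟨g1, fun h => g2 ⟨h, g3⟩⟩
      obtain ⟨w, a1, a2⟩ := jmp_global hΓ hc hAB (h2.mono fun s hs => ((hgood s).1 hs).2)
        (Z.filter fun p => p.2 = x) (fun p => by
          rw [Finset.mem_filter, hZ]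
          constructor
          · rintro ⟨⟨⟨g1, -⟩, g2⟩, g3⟩
            exact ⟨g1, g3, g3 ▸ g2⟩
          · rintro ⟨g1, g2, g3⟩
            exact ⟨⟨⟨g1, g2 ▸ hx⟩, g2 ▸ g3⟩, g2⟩)
        (fun p hp => htr p ((hZ p).1 (Finset.mem_filter.1 hp).1))
        (fun h => (hup x hx).1.ne (congrArg im h)) fun h => (hup x hx).2.ne' (congrArg im h)
      refine ⟨w + (-log (Γ B - c x) + log (Γ A - c x)) - N x, Tendsto.mono_left ?_
        (nhdsWithin_mono x (t := {x}ᶜ) fun s hs h => hxg (h ▸ hs))⟩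
      rw [← nhdsLT_sup_nhdsGT, tendsto_sup]
      constructor
      · refine ((a1.add (hlog.mono_left nhdsWithin_le_nhds)).sub_const (N x)).congr' ?_
        filter_upwards [nhdsWithin_le_nhds h1, self_mem_nhdsWithin] with s hs g1
        rw [if_neg (mem_Iio.1 g1).not_gt, add_zero] at hs
        simp only [hN, hs, kk]
        ring
      · refine (((a2.add (hlog.mono_left nhdsWithin_le_nhds)).sub_const
          (N x + ∑ p ∈ Z with p.2 = x, f p)).congr' ?_).trans (le_of_eq ?_)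
        · filter_upwards [nhdsWithin_le_nhds h1, self_mem_nhdsWithin] with s hs g1
          rw [if_pos (mem_Ioi.1 g1)] at hs
          simp only [hN, hs, kk]
          ring
        · congr 1
          ring
  have h3 := hv.eventually (Metric.ball_mem_nhds v one_pos)
  rw [eventually_nhdsWithin_iff] at h3
  have hint : ∀ s ∈ good, ∃ n : ℤ, kk Γ A B (c s) - N s = n * (2 * Real.pi * I) := by
    intro s hs
    obtain ⟨n, hn⟩ := kk_int hΓ hAB.le ((hgood s).1 hs).2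
    refine ⟨n - ∑ p ∈ Z with p.2 < s, sg Γ c p, ?_⟩
    push_cast
    rw [hn, sub_mul, Finset.sum_mul]
    simp only [hN, hf, mul_comm]
  refine ⟨_, h3, fun y hy z hz => ?_⟩
  obtain ⟨n, hn⟩ := hint y hy.2
  obtain ⟨m, hm⟩ := hint z hz.2
  have g1 := hy.1 hy.2
  have g2 := hz.1 hz.2
  rw [hn] at g1 ⊢
  rw [hm] at g2 ⊢
  have g3 := (dist_triangle_right _ _ v).trans_lt (add_lt_add g1 g2)
  rw [dist_eq_norm, ← sub_mul, norm_mul, ← Int.cast_sub, norm_intCast] at g3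
  have g4 : ‖2 * (Real.pi : ℂ) * I‖ = 2 * Real.pi := by simp [abs_of_pos Real.pi_pos]
  have g5 : |((n - m : ℤ) : ℝ)| < 1 := by
    rw [g4] at g3
    nlinarith [Real.pi_gt_three, abs_nonneg ((n - m : ℤ) : ℝ)]
  rw [← Int.cast_abs, ← Int.cast_one, Int.cast_lt, Int.abs_lt_one_iff, sub_eq_zero] at g5
  rw [g5]

lemma ne_of_slit {u p : ℂ} (h : u - p ∈ slitPlane) : u ≠ p := sub_ne_zero.1 (slitPlane_ne_zero h)

lemma ang_log' (h : ContDiff ℝ 1 Γ) {A B : ℝ} {p : ℂ} (hp : ∀ t ∈ uIcc A B, Γ t - p ∈ slitPlane) :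
    ang Γ A B p = log (Γ B - p) - log (Γ A - p) := by
  simpa using ang_log h one_ne_zero (by simpa using hp)

lemma kk_left (h : ContDiff ℝ 1 Γ) {A B : ℝ} {p : ℂ} (hp : ∀ t, Γ t - p ∈ slitPlane) :
    kk Γ A B p = 0 := by
  rw [kk, ang_log' h fun t _ => hp t]
  ring

lemma kk_right (h : ContDiff ℝ 1 Γ) {A B : ℝ} {p : ℂ} (hp : ∀ t, p - Γ t ∈ slitPlane)
    (hA : (Γ A).im < p.im) (hB : p.im < (Γ B).im) : kk Γ A B p = -(2 * Real.pi * I) := by
  have h1 := log_neg_sub (w := Γ A - p) (σ := 1) (by simpa using hA)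
  have h2 := log_neg_sub (w := Γ B - p) (σ := -1) (by simpa using hB)
  rw [kk, ang_log h (v := -1) (by simp) fun t _ => by simpa [div_neg] using hp t]
  simp only [div_neg, div_one]
  simp only [sign_one, SignType.coe_one, Int.cast_one, Left.sign_neg, SignType.coe_neg,
    Int.cast_neg] at h1 h2
  linear_combination h2 - h1

lemma kk_ext (h : ContDiff ℝ 1 Γ) {A' A B B' : ℝ} {p : ℂ} (hp : ∀ t, Γ t ≠ p)
    (hA : ∀ t ∈ uIcc A' A, (Γ t).im < p.im) (hB : ∀ t ∈ uIcc B B', p.im < (Γ t).im) :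
    kk Γ A' B' p = kk Γ A B p := by
  have h1 := ang_log' h (p := p) fun t ht => Or.inr (sub_neg.2 (hA t ht)).ne
  have h2 := ang_log' h (p := p) fun t ht => Or.inr (sub_pos.2 (hB t ht)).ne'
  have h3 := ang_add h (A := A') (B := A) (C := B) (fun t _ => hp t) fun t _ => hp t
  have h4 := ang_add h (A := A') (B := B) (C := B') (fun t _ => hp t) fun t _ => hp t
  unfold kk
  linear_combination h1 + h2 - h3 - h4

lemma kk_affine {l : ℝ} (hl : 0 < l) {τ : ℂ} (h : ∀ t, Γ (t + 1) = l * Γ t + τ) {A B : ℝ} {p : ℂ}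
    (hp : ∀ t, Γ t ≠ p) : kk Γ (A + 1) (B + 1) (l * p + τ) = kk Γ A B p := by
  have h1 : ∀ t, Γ (t + 1) - (l * p + τ) = l * (Γ t - p) := fun t => by rw [h]; ring
  have h2 : ∀ t, deriv Γ (t + 1) = l * deriv Γ t := fun t => by
    rw [← deriv_comp_add_const]
    simp only [h, deriv_add_const', deriv_const_mul_field']
  have hl0 : (l : ℂ) ≠ 0 := by exact_mod_cast hl.ne'
  have h3 : ang Γ (A + 1) (B + 1) (l * p + τ) = ang Γ A B p := by
    unfold ang
    rw [← intervalIntegral.integral_comp_add_right]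
    simp only [h1, h2, mul_div_mul_left _ _ hl0]
  unfold kk
  rw [h3, h1, h1, log_ofReal_mul hl (sub_ne_zero.2 (hp A)), log_ofReal_mul hl (sub_ne_zero.2 (hp B))]
  ring

/-- The curve starts below the point and ends above it. -/
def Span (Γ : ℝ → ℂ) (p : ℂ) : Prop :=
  (∀ᶠ t in atBot, (Γ t).im < p.im) ∧ ∀ᶠ t in atTop, p.im < (Γ t).im

lemma span_box (hc : ContDiff ℝ 1 c) (hs : ∀ s, Span Γ (c s)) {a b : ℝ} (hab : a ≤ b) :
    ∃ A B, A < B ∧ ∀ s ∈ Icc a b, (∀ t ≤ A, (Γ t).im < (c s).im) ∧ ∀ t ≥ B, (c s).im < (Γ t).im := by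
  have hcont : ContinuousOn (fun s => (c s).im) (Icc a b) :=
    (continuous_im.comp hc.continuous).continuousOn
  obtain ⟨s1, -, h1⟩ := isCompact_Icc.exists_isMinOn (nonempty_Icc.2 hab) hcont
  obtain ⟨s2, -, h2⟩ := isCompact_Icc.exists_isMaxOn (nonempty_Icc.2 hab) hcont
  obtain ⟨A, hA⟩ := eventually_atBot.1 (hs s1).1
  obtain ⟨B, hB⟩ := eventually_atTop.1 (hs s2).2
  refine ⟨A, max B (A + 1), lt_max_of_lt_right (lt_add_one A), fun s hs =>
    ⟨fun t ht => (hA t ht).trans_le (h1 hs), fun t ht => ?_⟩⟩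
  exact lt_of_le_of_lt (h2 hs) (hB t (le_trans (le_max_left _ _) ht))

/-- The point is on the left (`ε = 0`) or on the right (`ε = 1`) of the curve. -/
def Side (Γ : ℝ → ℂ) (p : ℂ) (ε : ℤ) : Prop :=
  (ε = 0 ∧ ∀ t, Γ t - p ∈ slitPlane) ∨ (ε = 1 ∧ ∀ t, p - Γ t ∈ slitPlane)

lemma Side.ne {p : ℂ} {ε : ℤ} (h : Side Γ p ε) (t : ℝ) : Γ t ≠ p :=
  h.elim (fun h => ne_of_slit (h.2 t)) fun h => (ne_of_slit (h.2 t)).symm

lemma Side.kk (hΓ : ContDiff ℝ 1 Γ) {p : ℂ} {ε : ℤ} (h : Side Γ p ε) {A B : ℝ}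
    (hA : (Γ A).im < p.im) (hB : p.im < (Γ B).im) : kk Γ A B p = -(2 * Real.pi * I) * ε := by
  rcases h with ⟨rfl, h⟩ | ⟨rfl, h⟩
  · simp [kk_left hΓ h]
  · simp [kk_right hΓ h hA hB]

lemma mem_box {A B : ℝ} {p : ℂ} (h : (∀ t ≤ A, (Γ t).im < p.im) ∧ ∀ t ≥ B, p.im < (Γ t).im) {t : ℝ}
    (ht : Γ t = p) : t ∈ Icc A B :=
  ⟨le_of_not_ge fun h1 => (h.1 t h1).ne (congrArg im ht),
    le_of_not_ge fun h1 => (h.2 t h1).ne' (congrArg im ht)⟩

theorem count_open (hΓ : ContDiff ℝ 1 Γ) (hc : ContDiff ℝ 1 c) (hs : ∀ s, Span Γ (c s)) {ε ε' : ℤ}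
    (h1 : ∀ᶠ s in atBot, Side Γ (c s) ε) (h2 : ∀ᶠ s in atTop, Side Γ (c s) ε')
    (htr : ∀ p : ℝ × ℝ, Γ p.1 = c p.2 → dt Γ c p ≠ 0) :
    {p : ℝ × ℝ | Γ p.1 = c p.2}.Finite ∧ ∑ᶠ p ∈ {p : ℝ × ℝ | Γ p.1 = c p.2}, sg Γ c p = ε - ε' := by
  obtain ⟨a, ha⟩ := eventually_atBot.1 h1
  obtain ⟨b, hb, hab⟩ := ((eventually_forall_ge_atTop.2 h2).and (eventually_gt_atTop a)).exists
  obtain ⟨A, B, hAB, h3⟩ := span_box hc hs hab.le
  have h4 : {p : ℝ × ℝ | Γ p.1 = c p.2} = zeros Γ c A B a b := by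
    ext p
    refine ⟨fun h => ?_, fun h => h.2⟩
    have h5 : p.2 ∈ Icc a b := ⟨le_of_not_ge fun g => (ha _ g).ne _ h,
      le_of_not_ge fun g => (hb _ g).ne _ h⟩
    exact ⟨⟨mem_box (h3 _ h5) h, h5⟩, h⟩
  rw [h4]
  refine ⟨zeros_finite hΓ hc fun p hp => htr p hp.2, ?_⟩
  have hup := fun s hs => And.intro ((h3 s hs).1 A le_rfl) ((h3 s hs).2 B le_rfl)
  have h5 := rect hΓ hc hAB hab hup (fun t _ => (ha a le_rfl).ne t) (fun t _ => (hb b le_rfl).ne t)
    fun p hp => htr p hp.2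
  have g1 := hup a (left_mem_Icc.2 hab.le)
  have g2 := hup b (right_mem_Icc.2 hab.le)
  rw [(ha a le_rfl).kk hΓ g1.1 g1.2, (hb b le_rfl).kk hΓ g2.1 g2.2] at h5
  have h6 : ((∑ᶠ p ∈ zeros Γ c A B a b, sg Γ c p : ℤ) : ℂ) = (ε - ε' : ℤ) := by
    refine mul_left_cancel₀ two_pi_I_ne_zero ?_
    rw [← h5]
    push_cast
    ring
  exact_mod_cast h6

theorem count_par (hΓ : ContDiff ℝ 1 Γ) (hc : ContDiff ℝ 1 c) (hs : ∀ s, Span Γ (c s)) {l : ℝ}
    (hl : 0 < l) {τ : ℂ} (h1 : ∀ t, Γ (t + 1) = l * Γ t + τ) (h2 : ∀ s, c s = l * c (s + 1) + τ)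
    (htr : ∀ p : ℝ × ℝ, Γ p.1 = c p.2 → dt Γ c p ≠ 0) :
    ∃ a, {p : ℝ × ℝ | Γ p.1 = c p.2 ∧ p.2 ∈ Ico a (a + 1)}.Finite ∧
      ∑ᶠ p ∈ {p : ℝ × ℝ | Γ p.1 = c p.2 ∧ p.2 ∈ Ico a (a + 1)}, sg Γ c p = 0 := by
  obtain ⟨A, B, hAB, h3⟩ := span_box (Γ := Γ) hc hs (zero_le_two : (0 : ℝ) ≤ 2)
  have h4 := (zeros_finite hΓ hc (A := A) (B := B) (a := 0) (b := 2)
    fun p hp => htr p hp.2).image Prod.snd
  obtain ⟨a, ha, ha'⟩ := (Icc_infinite (zero_lt_one' ℝ)).exists_notMem_finite h4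
  have hsub : Icc a (a + 1) ⊆ Icc 0 2 := Icc_subset_Icc ha.1 (by linarith [ha.2])
  have hab : a < a + 1 := lt_add_one a
  have m1 := hsub (left_mem_Icc.2 hab.le)
  have m2 := hsub (right_mem_Icc.2 hab.le)
  have n1 : ∀ t, Γ t ≠ c a := fun t h => ha' ⟨(t, a), ⟨⟨mem_box (h3 a m1) h, m1⟩, h⟩, rfl⟩
  have n2 : ∀ t, Γ t ≠ c (a + 1) := fun t h => n1 (t + 1) (by rw [h1, h, ← h2])
  have h5 : {p : ℝ × ℝ | Γ p.1 = c p.2 ∧ p.2 ∈ Ico a (a + 1)} = zeros Γ c A B a (a + 1) := by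
    ext p
    refine ⟨fun h => ?_, fun h => ⟨h.2, h.1.2.1, h.1.2.2.lt_of_ne fun g => n2 _ (g ▸ h.2)⟩⟩
    have h5 := Ico_subset_Icc_self h.2
    exact ⟨⟨mem_box (h3 _ (hsub h5)) h.1, h5⟩, h.1⟩
  refine ⟨a, ?_⟩
  rw [h5]
  refine ⟨zeros_finite hΓ hc fun p hp => htr p hp.2, ?_⟩
  have h6 := rect hΓ hc hAB hab
    (fun s hs => ⟨(h3 s (hsub hs)).1 A le_rfl, (h3 s (hsub hs)).2 B le_rfl⟩)
    (fun t _ => n1 t) (fun t _ => n2 t) fun p hp => htr p hp.2
  have e1 := kk_affine hl h1 (A := A - 1) (B := B) n2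
  have e2 : kk Γ (A - 1) B (c (a + 1)) = kk Γ A B (c (a + 1)) :=
    kk_ext hΓ n2 (fun t ht => (h3 _ m2).1 t (uIcc_of_le (sub_one_lt A).le ▸ ht).2)
      fun t ht => (h3 _ m2).2 t (uIcc_self (a := B) ▸ ht).ge
  have e3 : kk Γ A (B + 1) (c a) = kk Γ A B (c a) :=
    kk_ext hΓ n1 (fun t ht => (h3 _ m1).1 t (uIcc_self (a := A) ▸ ht).le)
      fun t ht => (h3 _ m1).2 t (uIcc_of_le (lt_add_one B).le ▸ ht).1
  rw [← h2, sub_add_cancel, e2, e3] at e1
  rw [e1, sub_self] at h6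
  exact_mod_cast (mul_eq_zero.1 h6.symm).resolve_left two_pi_I_ne_zero

end Pool.Agent.MP_46f5ab_gt

end

section

/-! Counting the terms of the bracket double coset by double coset. -/

namespace Pool.Agent.MP_46f5ab_gt

open Set Filter Topology

variable {G X : Type*} [Group G] [MulAction G X]

/-- The change of coordinate from `co` to `co'` is conformal. -/
def Conf (co co' : X → ℂ) : Prop :=
  ∃ m : X → ℂ, (∀ x, m x ≠ 0) ∧ ∀ c : ℝ → X, ContDiff ℝ 1 (fun u => co (c u)) →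
    ContDiff ℝ 1 (fun u => co' (c u)) ∧ ∀ t, velocity co' c t = m (c t) * velocity co c t

lemma Conf.of_analytic {co co' : X → ℂ} (F : ℂ → ℂ) (h : ∀ x, co' x = F (co x))
    (hF : ∀ x, ContDiffAt ℂ 1 F (co x)) (h0 : ∀ x, deriv F (co x) ≠ 0) : Conf co co' := by
  refine ⟨fun x => deriv F (co x), h0, fun c hc => ?_⟩
  have e : (fun u => co' (c u)) = F ∘ fun u => co (c u) := funext fun u => h _
  constructor
  · rw [e, contDiff_iff_contDiffAt]
    exact fun t => ((hF (c t)).restrict_scalars ℝ).comp t hc.contDiffAt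
  · intro t
    unfold velocity
    rw [e]
    have := (((hF (c t)).differentiableAt one_ne_zero).hasDerivAt.comp_of_eq (h₂ := F) (𝕜 := ℝ) t
      (hasDerivAt_of_contDiff hc t) rfl).deriv
    exact this

variable {co co' : X → ℂ} {β : G} {c d : ℝ → X}

lemma Conf.lifted (h : Conf co co') (hc : IsLiftedLoop co β c) : IsLiftedLoop co' β c := by
  obtain ⟨m, h1, h2⟩ := h
  exact ⟨(h2 c hc.smooth).1, fun t => by
    rw [(h2 c hc.smooth).2]
    exact mul_ne_zero (h1 _) (hc.immersed t), hc.closes⟩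

lemma im_conj_mul (m u v : ℂ) :
    (starRingEnd ℂ (m * u) * (m * v)).im = Complex.normSq m * (starRingEnd ℂ u * v).im := by
  simp [Complex.normSq_apply]
  ring

lemma Conf.crossDet (h : Conf co co') (hG : ∀ g : G, Conf co fun x => co (g • x))
    (hc : ContDiff ℝ 1 fun u => co (c u)) (hd : ContDiff ℝ 1 fun u => co (d u))
    {p : ℝ × ℝ × G} (hp : p ∈ meetings G c d) :
    ∃ r : ℝ, 0 < r ∧ crossDet co' c d p = r * crossDet co c d p := by
  obtain ⟨m, h1, h2⟩ := h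
  obtain ⟨m', -, h3⟩ := hG p.2.2
  refine ⟨Complex.normSq (m (c p.1)), Complex.normSq_pos.2 (h1 _), ?_⟩
  unfold Pool.Agent.MP_46f5ab_gt.crossDet
  rw [(h2 c hc).2, (h2 (fun u => p.2.2 • d u) (h3 d hd).1).2, ← hp.2.2, im_conj_mul]

lemma Conf.generic (h : Conf co co') (hG : ∀ g : G, Conf co fun x => co (g • x))
    (hc : IsGenericLoop co β c) : IsGenericLoop co' β c := by
  refine ⟨h.lifted hc.toIsLiftedLoop, fun p hp => ?_, hc.noTriplePoint⟩
  obtain ⟨r, h1, h2⟩ := h.crossDet hG hc.smooth hc.smooth hp.1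
  rw [h2]
  exact mul_ne_zero h1.ne' (hc.transverse p hp)

lemma Conf.transversal (h : Conf co co') (hG : ∀ g : G, Conf co fun x => co (g • x))
    (hc : ContDiff ℝ 1 fun u => co (c u)) (hd : ContDiff ℝ 1 fun u => co (d u))
    (ht : MeetTransversally G co c d) : MeetTransversally G co' c d := fun p hp => by
  obtain ⟨r, h1, h2⟩ := h.crossDet hG hc hd hp
  rw [h2]
  exact mul_ne_zero h1.ne' (ht p hp)

/-- The statement of the theorem for one class. -/
def Main (co : X → ℂ) (β : G) : Prop :=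
  (∃ c d, IsLiftedLoop co β c ∧ IsLiftedLoop co β⁻¹ d ∧ MeetTransversally G co c d) ∧
  ∀ c d, IsLiftedLoop co β c → IsLiftedLoop co β⁻¹ d → MeetTransversally G co c d →
    (meetings G c d).Finite ∧
      (numberOfTerms (goldmanBracket co β β⁻¹ c d) : ℕ∞) = 2 * selfIntersection co β

lemma Main.transfer (h : Conf co co') (h' : Conf co' co)
    (hG : ∀ g : G, Conf co fun x => co (g • x)) (hG' : ∀ g : G, Conf co' fun x => co' (g • x))
    (hm : Main co' β) : Main co β := by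
  obtain ⟨⟨c, d, h1, h2, h3⟩, h4⟩ := hm
  refine ⟨⟨c, d, h'.lifted h1, h'.lifted h2, h'.transversal hG' h1.smooth h2.smooth h3⟩,
    fun c d h1 h2 h3 => ?_⟩
  obtain ⟨h5, h6⟩ := h4 c d (h.lifted h1) (h.lifted h2) (h.transversal hG h1.smooth h2.smooth h3)
  refine ⟨h5, ?_⟩
  have e1 : goldmanBracket co β β⁻¹ c d = goldmanBracket co' β β⁻¹ c d := by
    refine finsum_mem_congr rfl fun p hp => ?_
    obtain ⟨r, g1, g2⟩ := h.crossDet hG h1.smooth h2.smooth hp
    rw [g2, sign_mul, sign_pos g1, one_mul]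
  have e2 : selfIntersection co β = selfIntersection co' β :=
    iInf_congr fun c => iInf_congr_Prop ⟨h.generic hG, h'.generic hG'⟩ fun _ => rfl
  rw [e1, e2, h6]

lemma closes_zpow (h : ∀ t, c (t + 1) = β • c t) (n : ℤ) (t : ℝ) : c (t + n) = β ^ n • c t := by
  induction n using Int.induction_on with
  | zero => simp
  | succ n ih =>
    rw [add_comm (n : ℤ), zpow_one_add, mul_smul, ← ih, ← h]
    congr 1
    push_cast
    ring
  | pred n ih =>
    rw [sub_eq_neg_add, zpow_add, zpow_neg_one, mul_smul, ← ih, eq_inv_smul_iff, ← h]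
    congr 1
    push_cast
    ring

/-- The double cosets of the cyclic group generated by `β`. -/
def dc (β : G) : Setoid G where
  r g h := ∃ m n : ℤ, h = β ^ m * g * β ^ n
  iseqv := ⟨fun g => ⟨0, 0, by simp⟩, by
    rintro g _ ⟨m, n, rfl⟩
    exact ⟨-m, -n, by group⟩, by
    rintro g _ _ ⟨m, n, rfl⟩ ⟨m', n', rfl⟩
    exact ⟨m' + m, n + n', by group⟩⟩

/-- The meetings over one double coset. -/
def fib (β : G) (c d : ℝ → X) (g : G) : Set (ℝ × ℝ × G) := {p | p ∈ meetings G c d ∧ dc β g p.2.2}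

/-- Reduction of the two parameters modulo one. -/
noncomputable def red (β g : G) (p : ℝ × ℝ) : ℝ × ℝ × G :=
  (Int.fract p.1, Int.fract p.2, β ^ (-⌊p.1⌋) * g * β ^ (-⌊p.2⌋))

lemma red_spec (hG : ∀ g : G, Conf co fun x => co (g • x)) (hc : IsLiftedLoop co β c)
    (hd : IsLiftedLoop co β⁻¹ d) (g : G) {p : ℝ × ℝ} (hp : c p.1 = g • d p.2) :
    red β g p ∈ fib β c d g ∧ ∃ r : ℝ, 0 < r ∧
      dt (fun u => co (c u)) (fun u => co (g • d u)) p = r * crossDet co c d (red β g p) := by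
  set g' := β ^ (-⌊p.1⌋) * g * β ^ (-⌊p.2⌋) with hg'
  have e1 : ∀ u, c (u + ⌊p.1⌋) = β ^ ⌊p.1⌋ • c u := closes_zpow hc.closes _
  have e2 : ∀ u, g • d (u + ⌊p.2⌋) = β ^ ⌊p.1⌋ • g' • d u := fun u => by
    rw [closes_zpow hd.closes, ← mul_smul, ← mul_smul, hg']
    congr 1
    group
  have e3 : c (Int.fract p.1) = g' • d (Int.fract p.2) := by
    rw [← smul_left_cancel_iff (β ^ ⌊p.1⌋), ← e1, ← e2, Int.fract_add_floor, Int.fract_add_floor, hp]
  refine ⟨⟨⟨⟨Int.fract_nonneg _, Int.fract_lt_one _⟩, ⟨Int.fract_nonneg _, Int.fract_lt_one _⟩, e3⟩,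
    _, _, rfl⟩, ?_⟩
  obtain ⟨m, h1, h2⟩ := hG (β ^ ⌊p.1⌋)
  obtain ⟨m', -, h3⟩ := hG g'
  have a1 : deriv (fun u => co (c u)) p.1 = m (c (Int.fract p.1)) * velocity co c (Int.fract p.1) := by
    rw [← (h2 c hc.smooth).2, velocity]
    simp only [← e1]
    rw [deriv_comp_add_const (fun u => co (c u)), Int.fract_add_floor]
  have a2 : deriv (fun u => co (g • d u)) p.2 =
      m (c (Int.fract p.1)) * velocity co (fun u => g' • d u) (Int.fract p.2) := by
    rw [e3, ← (h2 (fun u => g' • d u) (h3 d hd.smooth).1).2, velocity]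
    simp only [← e2]
    rw [deriv_comp_add_const (fun u => co (g • d u)), Int.fract_add_floor]
  refine ⟨Complex.normSq (m (c (Int.fract p.1))), Complex.normSq_pos.2 (h1 _), ?_⟩
  rw [dt, a1, a2, im_conj_mul]
  rfl

lemma red_surj (hc : ∀ t, c (t + 1) = β • c t) (hd : ∀ t, d (t + 1) = β⁻¹ • d t) {g : G}
    {q : ℝ × ℝ × G} (hq : q ∈ meetings G c d) {m n : ℤ} (h : q.2.2 = β ^ m * g * β ^ n) :
    c (q.1 - m) = g • d (q.2.1 - n) ∧ red β g (q.1 - m, q.2.1 - n) = q := by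
  obtain ⟨h1, h2, h3⟩ := hq
  constructor
  · have e1 := closes_zpow hc (-m) q.1
    have e2 := closes_zpow hd (-n) q.2.1
    rw [Int.cast_neg, ← sub_eq_add_neg] at e1 e2
    rw [e1, e2, h3, h, ← mul_smul, ← mul_smul]
    congr 1
    group
  · simp only [red, Int.fract_sub_intCast, Int.floor_sub_intCast, Int.fract_eq_self.2 h1,
      Int.fract_eq_self.2 h2, Int.floor_eq_zero_iff.2 h1, Int.floor_eq_zero_iff.2 h2, zero_sub,
      neg_neg, ← h]

lemma eq_of_fract {s t : ℝ} (h1 : Int.fract s = Int.fract t) (h2 : ⌊s⌋ = ⌊t⌋) : s = t := by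
  rw [← Int.fract_add_floor s, h1, h2, Int.fract_add_floor]

/-- The signed number of meetings over one double coset is finite and equals `n`. -/
def FibSum (co : X → ℂ) (β : G) (c d : ℝ → X) (g : G) (n : ℤ) : Prop :=
  (fib β c d g).Finite ∧
    ∑ᶠ p ∈ fib β c d g, ((SignType.sign (crossDet co c d p) : SignType) : ℤ) = n

lemma fibSum_of_bij (hG : ∀ g : G, Conf co fun x => co (g • x)) (hc : IsLiftedLoop co β c)
    (hd : IsLiftedLoop co β⁻¹ d) {g : G} {Z : Set (ℝ × ℝ)} (hZ : ∀ p ∈ Z, c p.1 = g • d p.2)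
    (h1 : InjOn (red β g) Z) (h2 : SurjOn (red β g) Z (fib β c d g)) {n : ℤ} (h3 : Z.Finite)
    (h4 : ∑ᶠ p ∈ Z, sg (fun u => co (c u)) (fun u => co (g • d u)) p = n) : FibSum co β c d g n := by
  refine ⟨(h3.image _).subset h2, ?_⟩
  rw [← h4]
  refine (finsum_mem_eq_of_bijOn (red β g)
    ⟨fun p hp => (red_spec hG hc hd g (hZ p hp)).1, h1, h2⟩ fun p hp => ?_).symm
  obtain ⟨r, g1, g2⟩ := (red_spec hG hc hd g (hZ p hp)).2
  rw [sg, g2, sign_mul, sign_pos g1, one_mul]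

lemma dt_ne (hG : ∀ g : G, Conf co fun x => co (g • x)) (hc : IsLiftedLoop co β c)
    (hd : IsLiftedLoop co β⁻¹ d) {g : G} (ht : ∀ p ∈ fib β c d g, crossDet co c d p ≠ 0)
    {p : ℝ × ℝ} (hp : c p.1 = g • d p.2) :
    dt (fun u => co (c u)) (fun u => co (g • d u)) p ≠ 0 := by
  obtain ⟨h1, r, g1, g2⟩ := red_spec hG hc hd g hp
  rw [g2]
  exact mul_ne_zero g1.ne' (ht _ h1)

lemma fibSum_open (hi : Function.Injective co) (hG : ∀ g : G, Conf co fun x => co (g • x))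
    (hc : IsLiftedLoop co β c) (hd : IsLiftedLoop co β⁻¹ d) {g : G}
    (hs : ∀ x, Span (fun u => co (c u)) (co x))
    (hm : ∀ m n : ℤ, β ^ m * g * β ^ n = g → m = 0 ∧ n = 0) {ε ε' : ℤ}
    (h1 : ∀ᶠ s in atBot, Side (fun u => co (c u)) (co (g • d s)) ε)
    (h2 : ∀ᶠ s in atTop, Side (fun u => co (c u)) (co (g • d s)) ε')
    (ht : ∀ p ∈ fib β c d g, crossDet co c d p ≠ 0) : FibSum co β c d g (ε - ε') := by
  obtain ⟨m, -, h3⟩ := hG g
  obtain ⟨h4, h5⟩ := count_open hc.smooth (h3 d hd.smooth).1 (fun s => hs _) h1 h2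
    fun p hp => dt_ne hG hc hd ht (hi hp)
  refine fibSum_of_bij hG hc hd (fun p hp => hi hp) ?_ ?_ h4 h5
  · intro p _ q _ h
    simp only [red, Prod.mk.injEq] at h
    obtain ⟨g1, g2⟩ := hm (⌊q.1⌋ - ⌊p.1⌋) (⌊q.2⌋ - ⌊p.2⌋) (by
      calc _ = β ^ ⌊q.1⌋ * (β ^ (-⌊p.1⌋) * g * β ^ (-⌊p.2⌋)) * β ^ ⌊q.2⌋ := by group
        _ = g := by rw [h.2.2]; group)
    exact Prod.ext (eq_of_fract h.1 (by omega)) (eq_of_fract h.2.1 (by omega))
  · rintro q ⟨hq, m, n, h⟩
    obtain ⟨g1, g2⟩ := red_surj hc.closes hd.closes hq h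
    exact ⟨_, congrArg co g1, g2⟩

lemma fibSum_par (hi : Function.Injective co) (hG : ∀ g : G, Conf co fun x => co (g • x))
    (hc : IsLiftedLoop co β c) (hd : IsLiftedLoop co β⁻¹ d) {g : G}
    (hs : ∀ x, Span (fun u => co (c u)) (co x)) {l : ℝ} (hl : 0 < l) {τ : ℂ}
    (ha : ∀ x, co (β • x) = l * co x + τ) (ho : Function.Injective fun n : ℤ => β ^ n)
    (hg : Commute β g) (ht : ∀ p ∈ fib β c d g, crossDet co c d p ≠ 0) : FibSum co β c d g 0 := by
  obtain ⟨m, -, h3⟩ := hG g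
  obtain ⟨a, h4, h5⟩ := count_par hc.smooth (h3 d hd.smooth).1 (fun s => hs _) hl (τ := τ)
    (fun t => by rw [hc.closes, ha])
    (fun s => by rw [← ha, ← mul_smul, hg.eq, mul_smul, hd.closes, smul_inv_smul])
    fun p hp => dt_ne hG hc hd ht (hi hp)
  refine fibSum_of_bij hG hc hd (fun p hp => hi hp.1) ?_ ?_ h4 h5
  · intro p hp q hq h
    simp only [red, Prod.mk.injEq] at h
    obtain ⟨z, hz⟩ := Int.fract_eq_fract.1 h.2.1
    have g1 : z = 0 := by
      have a1 : (z : ℝ) < 1 := by linarith [hp.2.2, hq.2.1]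
      have a2 : (-1 : ℝ) < z := by linarith [hp.2.1, hq.2.2]
      have a3 : z < 1 := by exact_mod_cast a1
      have a4 : -1 < z := by exact_mod_cast a2
      omega
    have g2 : p.2 = q.2 := by simpa [g1, sub_eq_zero] using hz
    have g3 := h.2.2
    rw [g2, mul_left_inj, mul_left_inj] at g3
    exact Prod.ext (eq_of_fract h.1 (neg_injective (ho g3))) g2
  · rintro q ⟨hq, m, n, h⟩
    obtain ⟨g1, g2⟩ := red_surj hc.closes hd.closes hq (g := g) (m := m + n - ⌊q.2.1 - a⌋)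
      (n := ⌊q.2.1 - a⌋) (by
        rw [h, (hg.zpow_left m).eq, (hg.zpow_left _).eq]
        group)
    refine ⟨_, ⟨congrArg co g1, ?_, ?_⟩, g2⟩
    · linarith [Int.floor_le (q.2.1 - a)]
    · linarith [Int.lt_floor_add_one (q.2.1 - a)]

lemma numberOfTerms_sum {ι κ : Type*} (T : Finset ι) (f : ι → κ) (m : ι → ℤ)
    (h1 : ∀ i ∈ T, (m i).natAbs = 1) (h2 : ∀ i ∈ T, ∀ j ∈ T, f i = f j → m i = m j) :
    numberOfTerms (∑ i ∈ T, Finsupp.single (f i) (m i)) = T.card := by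
  classical
  have h3 : ∀ x, (∑ i ∈ T, Finsupp.single (f i) (m i)) x = ∑ i ∈ T with f i = x, m i := fun x => by
    simp only [Finsupp.finsetSum_apply, Finsupp.single_apply, Finset.sum_filter]
  rw [numberOfTerms, Finsupp.sum_of_support_subset _ (s := T.image f) ?_ _ (by simp),
    Finset.card_eq_sum_card_image f]
  · refine Finset.sum_congr rfl fun x hx => ?_
    obtain ⟨i, hi, rfl⟩ := Finset.mem_image.1 hx
    rw [h3, Finset.sum_congr rfl (g := fun _ => m i) fun j hj =>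
      h2 j (Finset.mem_filter.1 hj).1 i hi (Finset.mem_filter.1 hj).2]
    simp [Int.natAbs_mul, h1 i hi]
  · intro x hx
    rw [Finsupp.mem_support_iff, h3] at hx
    obtain ⟨i, hi, -⟩ := Finset.exists_ne_zero_of_sum_ne_zero hx
    exact Finset.mem_image.2 ⟨i, (Finset.mem_filter.1 hi).1, (Finset.mem_filter.1 hi).2⟩

lemma FibSum.nonempty {g : G} {n : ℤ} (h : FibSum co β c d g n) (hn : n ≠ 0) :
    (fib β c d g).Nonempty := by
  by_contra h1
  rw [not_nonempty_iff_eq_empty] at h1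
  have h2 := h.2
  rw [h1, finsum_mem_empty] at h2
  exact hn h2.symm

lemma fib_congr {g h : G} (e : dc β g h) : fib β c d g = fib β c d h :=
  Set.ext fun _ => and_congr_right fun _ =>
    ⟨fun a => (dc β).trans ((dc β).symm e) a, fun a => (dc β).trans e a⟩

lemma IsLiftedLoop.reverse (hc : IsLiftedLoop co β c) : IsLiftedLoop co β⁻¹ fun u => c (-u) := by
  refine ⟨hc.smooth.comp contDiff_neg, fun t => ?_, fun t => ?_⟩
  · unfold velocity
    rw [deriv_comp_neg (fun u => co (c u)), neg_ne_zero]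
    exact hc.immersed _
  · rw [eq_inv_smul_iff, ← hc.closes]
    congr 1
    ring

theorem main_of_link (link : G → ℤ) (free : ∀ (g : G) (x : X), g • x = x → g = 1)
    (hfin : ∀ c d, IsLiftedLoop co β c → IsLiftedLoop co β⁻¹ d →
      ((fun p => p.2.2) '' meetings G c d).Finite)
    (hsum : ∀ c d, IsLiftedLoop co β c → IsLiftedLoop co β⁻¹ d → ∀ g,
      (∀ p ∈ fib β c d g, crossDet co c d p ≠ 0) → FibSum co β c d g (link g))
    (hone : link 1 = 0) (habs : ∀ g, link g ≠ 0 → (link g).natAbs = 1)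
    (hnc : ∀ g h, IsConj (β * (g * β⁻¹ * g⁻¹)) (β * (h * β⁻¹ * h⁻¹)) → link g ≠ 0 → link h ≠ 0 →
      link g = link h)
    (hex : ∃ c d, IsLiftedLoop co β c ∧ IsLiftedLoop co β⁻¹ d ∧ MeetTransversally G co c d)
    (hgen : ∃ c, IsGenericLoop co β c ∧ (∀ p ∈ meetings G c c, p.1 ≠ p.2.1 → link p.2.2 ≠ 0) ∧
      ∀ p ∈ meetings G c c, ∀ q ∈ meetings G c c, p.1 ≠ p.2.1 → dc β p.2.2 q.2.2 → p = q) :
    Main co β := by
  classical
  refine ⟨hex, fun c d hc hd ht => ?_⟩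
  have hs := fun g => hsum c d hc hd g fun p hp => ht p hp.1
  have hlink : ∀ g h, dc β g h → link g = link h := fun g h e => by
    rw [← (hs g).2, ← (hs h).2, fib_congr e]
  have hP : (meetings G c d).Finite := ((hfin c d hc hd).biUnion fun g _ => (hs g).1).subset
    fun p hp => mem_biUnion (mem_image_of_mem _ hp) ⟨hp, (dc β).refl _⟩
  refine ⟨hP, ?_⟩
  let q : G → Quotient (dc β) := Quotient.mk _
  have hq : ∀ g h, q g = q h ↔ dc β g h := fun g h => Quotient.eq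
  have hout : ∀ D : Quotient (dc β), q D.out = D := Quotient.out_eq
  let cls : G → ConjClasses G := fun g => ConjClasses.mk (β * (g * β⁻¹ * g⁻¹))
  have hcls : ∀ g h, dc β g h → cls g = cls h := by
    rintro g _ ⟨m, n, rfl⟩
    exact ConjClasses.mk_eq_mk_iff_isConj.2 (isConj_iff.2 ⟨β ^ m, by group⟩)
  let T : Set (Quotient (dc β)) := {D | link D.out ≠ 0}
  have hT : ∀ g, q g ∈ T ↔ link g ≠ 0 := fun g => by
    rw [← hlink _ _ ((hq _ _).1 (hout (q g)))]
    rfl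
  have e1 : (numberOfTerms (goldmanBracket co β β⁻¹ c d) : ℕ∞) = T.encard := by
    let Qf := hP.toFinset.image fun p => q p.2.2
    have a1 : T = ↑(Qf.filter fun D => link D.out ≠ 0) := by
      ext D
      rw [Finset.coe_filter]
      refine ⟨fun h => ⟨?_, h⟩, fun h => h.2⟩
      obtain ⟨p, h1, h2⟩ := (hs D.out).nonempty h
      exact Finset.mem_image.2 ⟨p, hP.mem_toFinset.2 h1, ((hq _ _).2 h2).symm.trans (hout D)⟩
    rw [a1, encard_coe_eq_coe_finsetCard, ← numberOfTerms_sum _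
      (fun D : Quotient (dc β) => cls D.out)
      (fun D : Quotient (dc β) => link D.out) (fun D hD => habs _ (Finset.mem_filter.1 hD).2)
      fun D hD D' hD' h => hnc _ _ (ConjClasses.mk_eq_mk_iff_isConj.1 h)
        (Finset.mem_filter.1 hD).2 (Finset.mem_filter.1 hD').2]
    congr 2
    rw [goldmanBracket, finsum_mem_eq_finite_toFinset_sum _ hP,
      ← Finset.sum_fiberwise_of_maps_to (t := Qf) (g := fun p => q p.2.2)
        fun p hp => Finset.mem_image_of_mem _ hp, Finset.sum_filter]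
    refine Finset.sum_congr rfl fun D _ => ?_
    have a2 : (hP.toFinset.filter fun p => q p.2.2 = D) = (hs D.out).1.toFinset := by
      ext p
      rw [Finset.mem_filter, hP.mem_toFinset, Finite.mem_toFinset]
      exact and_congr_right fun _ => by rw [← hq, hout, eq_comm]
    have a3 := (hs D.out).2
    rw [finsum_mem_eq_finite_toFinset_sum _ (hs D.out).1] at a3
    rw [a2, Finset.sum_congr rfl (g := fun p => Finsupp.single (cls D.out)
      ((SignType.sign (crossDet co c d p) : SignType) : ℤ)) fun p hp => by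
        rw [hcls _ _ ((hs D.out).1.mem_toFinset.1 hp).2], ← Finsupp.single_finsetSum, a3]
    split_ifs with h
    · rfl
    · rw [not_not.1 h, Finsupp.single_zero]
  rw [e1]
  apply le_antisymm
  · unfold selfIntersection
    simp only [ENat.mul_iInf_of_ne two_ne_zero]
    refine le_iInf₂ fun c hc => ?_
    have a1 : T ⊆ (fun p => q p.2.2) '' doublePoints G c ∪
        (fun p => q p.2.2⁻¹) '' doublePoints G c := by
      intro D hD
      obtain ⟨p, ⟨h1, h2, h3⟩, h4⟩ : (fib β c (fun u => c (-u)) D.out).Nonempty := by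
        by_contra h
        exact h ((hsum c _ hc.toIsLiftedLoop hc.reverse D.out
          fun p hp => (h ⟨p, hp⟩).elim).nonempty hD)
      have h5 : dc β D.out (p.2.2 * β ^ ⌊-p.2.1⌋) :=
        (dc β).trans h4 ⟨0, ⌊-p.2.1⌋, by simp⟩
      have h6 : c p.1 = (p.2.2 * β ^ ⌊-p.2.1⌋) • c (Int.fract (-p.2.1)) := by
        rw [mul_smul, ← closes_zpow hc.closes, Int.fract_add_floor, h3]
      have h7 : Int.fract (-p.2.1) ∈ Ico (0 : ℝ) 1 := ⟨Int.fract_nonneg _, Int.fract_lt_one _⟩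
      have h8 := ((hq _ _).2 h5).symm.trans (hout D)
      rcases lt_trichotomy p.1 (Int.fract (-p.2.1)) with h | h | h
      · exact Or.inl ⟨(p.1, Int.fract (-p.2.1), p.2.2 * β ^ ⌊-p.2.1⌋), ⟨⟨h1, h7, h6⟩, h⟩, h8⟩
      · rw [← h] at h6
        rw [free _ _ h6.symm] at h5
        exact absurd ((hlink _ _ h5).trans hone) hD
      · exact Or.inr ⟨(Int.fract (-p.2.1), p.1, (p.2.2 * β ^ ⌊-p.2.1⌋)⁻¹),
          ⟨⟨h7, h1, eq_inv_smul_iff.2 h6.symm⟩, h⟩, by simpa using h8⟩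
    rw [two_mul]
    exact (encard_le_encard a1).trans ((encard_union_le _ _).trans
      (add_le_add (encard_image_le _ _) (encard_image_le _ _)))
  · obtain ⟨c, hc, h1, h2⟩ := hgen
    let sw : ℝ × ℝ × G → ℝ × ℝ × G := fun p => (p.2.1, p.1, p.2.2⁻¹)
    have a1 : Function.Injective sw := by
      rintro ⟨a, b, g⟩ ⟨a', b', g'⟩ h
      simp only [sw, Prod.mk.injEq, inv_inj] at h
      simp [h]
    have a2 : ∀ p ∈ doublePoints G c ∪ sw '' doublePoints G c,
        p ∈ meetings G c c ∧ p.1 ≠ p.2.1 := by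
      rintro p (h | ⟨p, h, rfl⟩)
      · exact ⟨h.1, h.2.ne⟩
      · exact ⟨⟨h.1.2.1, h.1.1, by simp only [sw]; rw [h.1.2.2, inv_smul_smul]⟩, h.2.ne'⟩
    have a3 : Disjoint (doublePoints G c) (sw '' doublePoints G c) := by
      rw [Set.disjoint_left]
      rintro _ h ⟨p, h', rfl⟩
      exact lt_asymm h.2 h'.2
    calc 2 * selfIntersection co β ≤ 2 * (doublePoints G c).encard := by
          gcongr
          exact iInf₂_le c hc
      _ = (doublePoints G c ∪ sw '' doublePoints G c).encard := by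
          rw [encard_union_eq a3, a1.injOn.encard_image, two_mul]
      _ ≤ T.encard := encard_le_encard_of_injOn (f := fun p => q p.2.2)
          (fun p hp => (hT _).2 (h1 p (a2 p hp).1 (a2 p hp).2))
          fun p hp p' hp' h => h2 p (a2 p hp).1 p' (a2 p' hp').1 (a2 p hp).2 ((hq _ _).1 h)

end Pool.Agent.MP_46f5ab_gt

end

section

/-! Common lemmas for the three geometric cases, and the flat case. -/

namespace Pool.Agent.MP_46f5ab_gt

open Set Filter Topology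

variable {G X : Type*} [Group G] [MulAction G X] [TopologicalSpace X]

variable (G X) in
/-- The action is free and properly discontinuous. -/
structure FreePD : Prop where
  free : ∀ (g : G) (x : X), g • x = x → g = 1
  pd : ∀ K L : Set X, IsCompact K → IsCompact L → {g : G | ((g • ·) '' K ∩ L).Nonempty}.Finite

lemma FreePD.cancel (F : FreePD G X) {g h : G} {x : X} (hx : g • x = h • x) : g = h := by
  have := F.free (h⁻¹ * g) x (by rw [mul_smul, hx, inv_smul_smul])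
  exact (inv_mul_eq_one.1 this).symm

lemma FreePD.finite_shift (F : FreePD G X) {ax : ℝ → X} (hc : Continuous ax)
    (hi : Function.Injective ax) (R : ℝ) : {x | |x| ≤ R ∧ ∃ g : G, g • ax 0 = ax x}.Finite := by
  have h1 := F.pd {ax 0} (ax '' Icc (-R) R) isCompact_singleton (isCompact_Icc.image hc)
  refine ((h1.image fun g => g • ax 0).preimage hi.injOn).subset ?_
  rintro x ⟨h2, g, h3⟩
  exact ⟨g, ⟨ax x, ⟨_, rfl, h3⟩, x, abs_le.1 h2, rfl⟩, h3⟩

lemma IsPrimitiveClass.ne_one {β : G} (h : IsPrimitiveClass β) : β ≠ 1 := by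
  rintro rfl
  exact h 1 2 le_rfl (by simp)

lemma FreePD.cyc (F : FreePD G X) {ax : ℝ → X} (hc : Continuous ax) (hi : Function.Injective ax)
    {β : G} (hp : IsPrimitiveClass β) {τ : ℝ} (hβ : ∀ t, β • ax t = ax (t + τ)) {g : G} {x : ℝ}
    (hg : ∀ t, g • ax t = ax (t + x)) : ∃ n : ℤ, g = β ^ n := by
  let H : AddSubgroup ℝ :=
    { carrier := {x | ∃ g : G, ∀ t, g • ax t = ax (t + x)}
      add_mem' := by
        rintro a b ⟨g, hg⟩ ⟨h, hh⟩
        exact ⟨h * g, fun t => by rw [mul_smul, hg, hh, add_assoc]⟩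
      zero_mem' := ⟨1, fun t => by simp⟩
      neg_mem' := by
        rintro a ⟨g, hg⟩
        exact ⟨g⁻¹, fun t => by rw [inv_smul_eq_iff, hg]; simp⟩ }
  have h1 : ∀ᶠ y in 𝓝[>] (0 : ℝ), y ∉ (H : Set ℝ) := by
    have h2 := (F.finite_shift hc hi 1).eventually_cofinite_notMem.filter_mono
      ((nhdsGT_le_nhdsNE 0).trans (nhdsNE_le_cofinite 0))
    filter_upwards [h2, Ioo_mem_nhdsGT one_pos] with y a1 a2 ⟨g, a3⟩
    exact a1 ⟨abs_le.2 ⟨by linarith [a2.1], a2.2.le⟩, g, by simpa using a3 0⟩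
  obtain ⟨a, ha, h2⟩ := (mem_nhdsGT_iff_exists_Ioo_subset).1 h1
  obtain ⟨b, hb⟩ := AddSubgroup.cyclic_of_isolated_zero (H := H) ha
    (Set.disjoint_left.2 fun y hy hy' => h2 hy' hy)
  obtain ⟨γ, hγ⟩ : b ∈ H := hb ▸ AddSubgroup.subset_closure rfl
  have key : ∀ (g : G) x, (∀ t, g • ax t = ax (t + x)) → ∃ n : ℤ, g = γ ^ n := by
    intro g x hg
    have hx : x ∈ H := ⟨g, hg⟩
    rw [hb] at hx
    obtain ⟨n, hn⟩ := AddSubgroup.mem_closure_singleton.1 hx
    have h3 := closes_zpow (c := fun t => ax (t * b)) (β := γ) (fun t => by rw [hγ, add_one_mul]) n 0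
    refine ⟨n, F.cancel (x := ax 0) ?_⟩
    simp only [zero_add, zero_mul] at h3
    rw [hg, ← h3, ← hn, zero_add, zsmul_eq_mul]
  obtain ⟨k, hk⟩ := key β τ hβ
  obtain ⟨n, rfl⟩ := key g x hg
  obtain ⟨j, rfl | rfl⟩ := k.eq_nat_or_neg
  · rcases j with _ | _ | j
    · exact absurd (by simpa using hk) hp.ne_one
    · exact ⟨n, by simp [hk]⟩
    · exact (hp γ (j + 2) (by omega) (by rw [hk, zpow_natCast])).elim
  · rcases j with _ | _ | j
    · exact absurd (by simpa using hk) hp.ne_one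
    · exact ⟨-n, by simp [hk]⟩
    · exact (hp γ⁻¹ (j + 2) (by omega) (by rw [hk, zpow_neg, zpow_natCast, inv_pow])).elim

lemma FreePD.finite_meet (F : FreePD G X) {c d : ℝ → X} (hc : Continuous c) (hd : Continuous d) :
    ((fun p => p.2.2) '' meetings G c d).Finite := by
  refine (F.pd _ _ ((isCompact_Icc (a := 0) (b := 1)).image hd)
    ((isCompact_Icc (a := 0) (b := 1)).image hc)).subset ?_
  rintro _ ⟨p, ⟨h1, h2, h3⟩, rfl⟩
  exact ⟨_, ⟨_, ⟨_, Ico_subset_Icc_self h2, rfl⟩, h3.symm⟩, _, Ico_subset_Icc_self h1, rfl⟩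

lemma periodic_bound {f : ℝ → ℝ} (hf : Continuous f) (h : ∀ t, f (t + 1) = f t) :
    ∃ C, ∀ t, |f t| ≤ C := by
  obtain ⟨C, hC⟩ := (Function.Periodic.isBounded_of_continuous h one_ne_zero hf).exists_norm_le
  exact ⟨C, fun t => hC _ ⟨t, rfl⟩⟩

lemma drift {f : ℝ → ℝ} (hf : Continuous f) {L : ℝ} (hL : 0 < L) (h : ∀ t, f (t + 1) = f t + L) :
    Tendsto f atTop atTop ∧ Tendsto f atBot atBot := by
  obtain ⟨C, hC⟩ := periodic_bound (f := fun t => f t - L * t) (by fun_prop) fun t => by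
    rw [h]; ring
  constructor
  · refine tendsto_atTop_mono (f := fun t => L * t + -C) (fun t => ?_)
      (tendsto_atTop_add_const_right _ _ (tendsto_id.const_mul_atTop hL))
    linarith [(abs_le.1 (hC t)).1]
  · refine tendsto_atBot_mono (f := fun t => L * t + C) (fun t => ?_)
      (tendsto_atBot_add_const_right _ _ (tendsto_id.const_mul_atBot hL))
    linarith [(abs_le.1 (hC t)).2]

omit [TopologicalSpace X]

lemma Conf.trans {co co' co'' : X → ℂ} (h : Conf co co') (h' : Conf co' co'') : Conf co co'' := by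
  obtain ⟨m, h1, h2⟩ := h
  obtain ⟨m', h3, h4⟩ := h'
  refine ⟨fun x => m' x * m x, fun x => mul_ne_zero (h3 x) (h1 x), fun c hc =>
    ⟨(h4 c (h2 c hc).1).1, fun t => ?_⟩⟩
  rw [(h4 c (h2 c hc).1).2, (h2 c hc).2, mul_assoc]

lemma Conf.act {co co' : X → ℂ} (h : Conf co co') (h' : Conf co' co)
    (hG : ∀ g : G, Conf co fun x => co (g • x)) (g : G) : Conf co' fun x => co' (g • x) := by
  refine h'.trans ((hG g).trans ?_)
  obtain ⟨m, h1, h2⟩ := h
  exact ⟨fun x => m (g • x), fun x => h1 _, fun c hc => h2 (fun u => g • c u) hc⟩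

lemma conf_affine {co co' : X → ℂ} {a b : ℂ} (ha : a ≠ 0) (h : ∀ x, co' x = a * co x + b) :
    Conf co co' :=
  Conf.of_analytic (fun z => a * z + b) h (fun _ => by fun_prop) fun x => by simpa using ha

lemma span_of_shift {co : X → ℂ} {β : G} (h : ∀ x, co (β • x) = co x + Complex.I) {c : ℝ → X}
    (hc : IsLiftedLoop co β c) (p : ℂ) : Span (fun u => co (c u)) p := by
  obtain ⟨h1, h2⟩ := drift (f := fun u => (co (c u)).im)
    (Complex.continuous_im.comp hc.smooth.continuous) one_pos fun t => by simp [hc.closes, h]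
  exact ⟨h2.eventually (eventually_lt_atBot _), h1.eventually (eventually_gt_atTop _)⟩

lemma zpow_inj_of_shift {co : X → ℂ} {β : G} (h : ∀ x, co (β • x) = co x + Complex.I) (x : X) :
    Function.Injective fun n : ℤ => β ^ n := by
  have key : ∀ n : ℤ, co (β ^ n • x) = co x + n * Complex.I := by
    intro n
    induction n using Int.induction_on with
    | zero => simp
    | succ n ih =>
      rw [add_comm (n : ℤ), zpow_one_add, mul_smul, h, ih]
      push_cast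
      ring
    | pred n ih =>
      have := h (β ^ (-(n : ℤ) - 1) • x)
      rw [← mul_smul, ← zpow_one_add, add_sub_cancel, ih] at this
      push_cast at this ⊢
      linear_combination -this
  intro m n hmn
  have h1 := key m
  rw [show β ^ m = β ^ n from hmn, key n, add_right_inj, mul_left_inj' Complex.I_ne_zero] at h1
  exact_mod_cast h1.symm

lemma generic_of_simple {co : X → ℂ} {β : G} {c : ℝ → X} (hc : IsLiftedLoop co β c)
    (h : ∀ p ∈ meetings G c c, p.1 = p.2.1) : IsGenericLoop co β c := by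
  refine ⟨hc, fun p hp => absurd (h p hp.1) hp.2.ne, ?_⟩
  rintro r hr s hs t - h1 - ⟨⟨g, hg⟩, -⟩
  exact h1.ne' (h (s, r, g) ⟨hs, hr, hg.symm⟩)

lemma eq_of_int_shift {s t : ℝ} (hs : s ∈ Ico (0 : ℝ) 1) (ht : t ∈ Ico (0 : ℝ) 1) {n : ℤ}
    (h : s = t + n) : n = 0 := by
  have a1 : (n : ℝ) < 1 := by linarith [hs.2, ht.1]
  have a2 : (-1 : ℝ) < n := by linarith [hs.1, ht.2]
  have a3 : n < 1 := by exact_mod_cast a1
  have a4 : -1 < n := by exact_mod_cast a2
  omega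

theorem main_flat {G : Type*} [Group G] [MulAction G ℂ] (F : FreePD G ℂ)
    (hT : ∀ g : G, ∃ w, ∀ z : ℂ, g • z = z + w) {β : G} (hp : IsPrimitiveClass β) :
    Main (fun z : ℂ => z) β := by
  choose u hu using hT
  have hw : u β ≠ 0 := fun h => hp.ne_one (F.free β 0 (by simp [hu, h]))
  set w := u β with hwd
  have hG : ∀ g : G, Conf (fun z : ℂ => z) fun z => g • z := fun g =>
    conf_affine one_ne_zero (b := u g) fun z => by rw [hu, one_mul]
  have hIw : Complex.I / w ≠ 0 := div_ne_zero Complex.I_ne_zero hw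
  let co : ℂ → ℂ := fun z => Complex.I / w * z
  have c1 : Conf (fun z : ℂ => z) co := conf_affine hIw (b := 0) fun z => (add_zero _).symm
  have c2 : Conf co fun z : ℂ => z := conf_affine (inv_ne_zero hIw) (b := 0) fun z => by
    simp only [co, add_zero, inv_mul_cancel_left₀ hIw]
  have hG' := c1.act c2 hG
  refine Main.transfer c1 c2 hG hG' ?_
  have hsh : ∀ z, co (β • z) = co z + Complex.I := fun z => by
    simp only [co, hu, ← hwd, mul_add, div_mul_cancel₀ _ hw]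
  have hcont : ∀ {b : G} {c : ℝ → ℂ}, IsLiftedLoop co b c → Continuous c := fun h =>
    (c2.lifted h).smooth.continuous
  let ln : ℝ → ℝ → ℂ := fun y t => (t + y * Complex.I) * w
  have hln : ∀ y, IsLiftedLoop co β (ln y) := fun y => c1.lifted
    ⟨by
      have : ContDiff ℝ 1 fun t : ℝ => (t : ℂ) := Complex.ofRealCLM.contDiff
      exact (this.add contDiff_const).mul contDiff_const,
    fun t => by
      have := ((Complex.ofRealCLM.hasDerivAt (x := t)).add_const (y * Complex.I)).mul_const w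
      rw [velocity]
      exact this.deriv ▸ by simpa using hw,
    fun t => by
      simp only [ln, hu, ← hwd]
      push_cast
      ring⟩
  have hinj : Function.Injective (ln 0) := fun s t h => by simpa [ln, hw] using h
  have hsimple : ∀ p ∈ meetings G (ln 0) (ln 0), p.1 = p.2.1 := by
    rintro ⟨s, t, g⟩ ⟨h1, h2, h3⟩
    obtain ⟨n, hn⟩ := F.cyc (hcont (hln 0)) hinj hp (τ := 1) (fun t => ((hln 0).closes t).symm)
      (g := g) (x := s - t) fun r => by
        simp only [ln, hu] at h3 ⊢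
        push_cast
        linear_combination -h3
    simp only at h1 h2 h3 ⊢
    rw [hn, ← closes_zpow (hln 0).closes] at h3
    have h4 := hinj h3
    rw [h4, eq_of_int_shift h1 h2 h4, Int.cast_zero, add_zero]
  refine main_of_link (fun _ => 0) F.free (fun c d hc hd => F.finite_meet (hcont hc) (hcont hd))
    (fun c d hc hd g ht => fibSum_par (mul_right_injective₀ hIw) hG' hc hd
      (fun x => span_of_shift hsh hc _) one_pos (τ := Complex.I) (by simpa using hsh)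
      (zpow_inj_of_shift hsh 0) (F.cancel (x := 0) (by rw [mul_smul, mul_smul]; simp [hu, add_comm])) ht)
    rfl (fun g h => absurd rfl h) (fun _ _ _ _ _ => rfl) ?_
    ⟨ln 0, generic_of_simple (hln 0) hsimple, fun p h1 h2 => absurd (hsimple p h1) h2,
      fun p h1 _ _ h2 => absurd (hsimple p h1) h2⟩
  have hK : IsCompact ((fun p : ℝ × ℝ => ln p.1 p.2) '' Icc 0 1 ×ˢ Icc (-1) 1) :=
    (isCompact_Icc.prod isCompact_Icc).image (by simp only [ln]; fun_prop)
  obtain ⟨y, hy, hy'⟩ := (Icc_infinite (zero_lt_one' ℝ)).exists_notMem_finite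
    ((F.pd _ _ hK hK).image fun g => (u g / w).im)
  refine ⟨ln y, _, hln y, (hln 0).reverse, ?_⟩
  rintro ⟨s, t, g⟩ ⟨h1, h2, h3⟩
  refine (hy' ⟨g, ⟨_, ⟨_, ⟨(0, -t), ⟨⟨le_rfl, zero_le_one⟩, ?_, ?_⟩, rfl⟩, h3.symm⟩,
    (y, s), ⟨hy, ?_, h1.2.le⟩, rfl⟩, ?_⟩).elim
  · linarith [h2.2]
  · linarith [h2.1]
  · linarith [h1.1]
  · have h4 : u g = (s + t + y * Complex.I) * w := by
      simp only [ln, hu] at h3
      push_cast at h3
      linear_combination -h3
    simp [h4, hw]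

end Pool.Agent.MP_46f5ab_gt

end
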