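import Pool.Agent.Mg.F46f5abp.G03b188
import Pool.Agent.MP_46f5ab_gt.Defs
import Pool.Agent.Mg.F46f5abp.G3687fa
import Pool.Agent.Mg.F46f5abp.Gdd6656

section

/-! Groups acting freely and properly discontinuously by Moebius transformations. -/

namespace Pool.Agent.MP_46f5ab_gt

open UpperHalfPlane MatrixGroups

variable {G X : Type*} [Group G] [MulAction G X] [TopologicalSpace X]

/-- In the chart `e` the element `g` acts as the matrix `M`. -/
def Acts (e : X ≃ₜ ℍ) (g : G) (M : SL(2, ℝ)) : Prop := ∀ x, e (g • x) = M • e x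

variable (G) in
/-- The action is free, properly discontinuous, and by Moebius maps in the chart `e`. -/
structure Fuchs (e : X ≃ₜ ℍ) : Prop where
  mob : ∀ g : G, ∃ M, Acts e g M
  free : ∀ (g : G) (x : X), g • x = x → g = 1
  pd : ∀ K L : Set X, IsCompact K → IsCompact L → {g : G | ((g • ·) '' K ∩ L).Nonempty}.Finite

variable {e : X ≃ₜ ℍ}

lemma Acts.mul {g h : G} {M N : SL(2, ℝ)} (hg : Acts e g M) (hh : Acts e h N) :
    Acts e (g * h) (M * N) := fun x => by rw [mul_smul, hg, hh, mul_smul]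

lemma Acts.inv {g : G} {M : SL(2, ℝ)} (hg : Acts e g M) : Acts e g⁻¹ M⁻¹ := fun x => by
  rw [eq_inv_smul_iff, ← hg, smul_inv_smul]

lemma Acts.one : Acts e (1 : G) 1 := fun x => by rw [one_smul, one_smul]

lemma Acts.neg {g : G} {M : SL(2, ℝ)} (hg : Acts e g M) : Acts e g (-M) := fun x => by
  rw [neg_smul_SL, hg]

lemma Acts.zpow {g : G} {M : SL(2, ℝ)} (hg : Acts e g M) (j : ℤ) : Acts e (g ^ j) (M ^ j) := by
  induction j using Int.induction_on with
  | zero => simpa using Acts.one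
  | succ j ih => simpa only [zpow_add_one] using ih.mul hg
  | pred j ih => simpa only [zpow_sub_one] using ih.mul hg.inv

lemma Acts.conj {g h : G} {M N : SL(2, ℝ)} (hg : Acts e g M) (hh : Acts e h N) :
    Acts e (g * h * g⁻¹) (M * N * M⁻¹) := (hg.mul hh).mul hg.inv

lemma Acts.eq_or {g : G} {M N : SL(2, ℝ)} (hM : Acts e g M) (hN : Acts e g N) :
    M = N ∨ M = -N :=
  eq_or_eq_neg_of_smul_eq fun z => by
    obtain ⟨x, rfl⟩ := e.surjective z
    rw [← hM, ← hN]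

lemma Acts.eq_of_tr {g : G} {M N : SL(2, ℝ)} (hM : Acts e g M) (hN : Acts e g N)
    (h1 : 0 < tr M) (h2 : 0 < tr N) : M = N := by
  refine (hM.eq_or hN).resolve_right fun h => ?_
  rw [h, tr_neg] at h1
  linarith

lemma Fuchs.eq_of_acts (F : Fuchs G e) {g h : G} {M : SL(2, ℝ)} (hg : Acts e g M)
    (hh : Acts e h M) : g = h := by
  have h1 := F.free (h⁻¹ * g) (e.symm I) (by
    rw [mul_smul, inv_smul_eq_iff]
    exact e.injective (by rw [hg, hh]))
  exact (inv_mul_eq_one.1 h1).symm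

lemma Fuchs.cancel (F : Fuchs G e) {g h : G} {x : X} (hx : g • x = h • x) : g = h := by
  have := F.free (h⁻¹ * g) x (by rw [mul_smul, hx, inv_smul_smul])
  exact (inv_mul_eq_one.1 this).symm

/-- The chart moved by a matrix. -/
noncomputable def rechart (e : X ≃ₜ ℍ) (K : SL(2, ℝ)) : X ≃ₜ ℍ := e.trans (Homeomorph.smul K)

lemma rechart_apply (K : SL(2, ℝ)) (x : X) : rechart e K x = K • e x := rfl

lemma Acts.rechart {g : G} {M : SL(2, ℝ)} (hg : Acts e g M) (K : SL(2, ℝ)) :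
    Acts (rechart e K) g (K * M * K⁻¹) := fun x => by
  rw [rechart_apply, rechart_apply, hg, mul_smul, mul_smul, inv_smul_smul]

lemma Fuchs.rechart (F : Fuchs G e) (K : SL(2, ℝ)) : Fuchs G (rechart e K) :=
  ⟨fun g => (F.mob g).elim fun _ h => ⟨_, h.rechart K⟩, F.free, F.pd⟩

lemma Fuchs.subgroup (F : Fuchs G e) (H : Subgroup G) : Fuchs H e :=
  ⟨fun g => F.mob g, fun g x h => Subtype.ext (F.free g x h), fun K L hK hL =>
    ((F.pd K L hK hL).preimage (f := ((↑) : H → G)) Subtype.val_injective.injOn).subset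
      fun _ h => h⟩

lemma Fuchs.continuous_smul (F : Fuchs G e) (g : G) : Continuous fun x : X => g • x := by
  obtain ⟨M, hM⟩ := F.mob g
  have : (fun x : X => g • x) = fun x => e.symm (M • e x) := by
    funext x
    rw [← hM, e.symm_apply_apply]
  rw [this]
  fun_prop

lemma Fuchs.exists_tr (F : Fuchs G e) {g : G} (hg : g ≠ 1) : ∃ M, Acts e g M ∧ 2 ≤ tr M := by
  obtain ⟨M, hM⟩ := F.mob g
  have h1 : 2 ≤ |tr M| := by
    by_contra h
    obtain ⟨z, hz⟩ := exists_fixed_of_elliptic M (not_le.1 h)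
    obtain ⟨x, rfl⟩ := e.surjective z
    exact hg (F.free g x (e.injective (by rw [hM, hz])))
  rcases le_abs.1 h1 with h | h
  · exact ⟨M, hM, h⟩
  · exact ⟨-M, hM.neg, by rwa [tr_neg]⟩

/-- The point `i e^t`. -/
noncomputable def axisPt (t : ℝ) : ℍ := ⟨⟨0, Real.exp t⟩, Real.exp_pos t⟩

lemma axisPt_re (t : ℝ) : (axisPt t).re = 0 := rfl

lemma axisPt_im (t : ℝ) : (axisPt t).im = Real.exp t := rfl

lemma continuous_axisPt : Continuous axisPt := by
  refine isEmbedding_coe.continuous_iff.2 ?_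
  have : ((↑) : ℍ → ℂ) ∘ axisPt = fun t => (Real.exp t : ℂ) * Complex.I := by
    funext t
    apply Complex.ext <;> simp [axisPt_re, axisPt_im, -Complex.ofReal_exp]
  rw [this]
  fun_prop

lemma coe_diag_smul {l : ℝ} (hl : 0 < l) (z : ℍ) : ((diag l hl • z : ℍ) : ℂ) = (l ^ 2 : ℝ) * z := by
  rw [coe_smul_SL]
  have : (l : ℂ) ≠ 0 := by exact_mod_cast hl.ne'
  simp only [diag, mkSL00, mkSL01, mkSL10, mkSL11]
  push_cast
  field_simp
  ring

lemma diag_smul_axisPt {l : ℝ} (hl : 0 < l) (t : ℝ) :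
    diag l hl • axisPt t = axisPt (t + 2 * Real.log l) := by
  apply UpperHalfPlane.ext
  rw [coe_diag_smul]
  have : Real.exp (t + 2 * Real.log l) = l ^ 2 * Real.exp t := by
    rw [Real.exp_add, two_mul, Real.exp_add, Real.exp_log hl]
    ring
  apply Complex.ext
  · rw [Complex.re_ofReal_mul, coe_re, coe_re, axisPt_re, axisPt_re, mul_zero]
  · rw [Complex.im_ofReal_mul, coe_im, coe_im, axisPt_im, axisPt_im, this]

lemma sig_axisPt (M : SL(2, ℝ)) (t : ℝ) :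
    sig M (axisPt t) = (M 0 1 - M 1 0 * Real.exp t ^ 2) / Real.exp t := by
  simp [sig, nsq, axisPt_re, axisPt_im]

lemma sig_diag {l : ℝ} (hl : 0 < l) (z : ℍ) : sig (diag l hl) z = (l - l⁻¹) * z.re / z.im := by
  simp [sig, diag]

lemma sub_inv_pos {l : ℝ} (hl : 1 < l) : 0 < l - l⁻¹ := by
  have := inv_lt_one_of_one_lt₀ hl
  linarith

lemma tr_diag {l : ℝ} (hl : 0 < l) : tr (diag l hl) = l + l⁻¹ := rfl

lemma two_lt_tr_diag {l : ℝ} (hl : 1 < l) : 2 < tr (diag l (by linarith)) := by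
  rw [tr_diag]
  have h0 : 0 < l := by linarith
  have : l + l⁻¹ - 2 = (l - 1) ^ 2 / l := by field_simp; ring
  have h2 : 0 < (l - 1) ^ 2 / l := by
    have : 0 < l - 1 := by linarith
    positivity
  linarith

lemma eq_axisPt_of_sig {l : ℝ} (hl : 1 < l) {z : ℍ} (h : sig (diag l (by linarith)) z = 0) :
    z = axisPt (Real.log z.im) := by
  rw [sig_diag, div_eq_zero_iff, mul_eq_zero] at h
  have h1 : z.re = 0 := (h.resolve_right z.im_ne_zero).resolve_left (sub_inv_pos hl).ne'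
  exact ext_re_im (by rw [h1, axisPt_re]) (by rw [axisPt_im, Real.exp_log z.im_pos])

lemma eq_diag_or {l : ℝ} (hl : 1 < l) {M : SL(2, ℝ)} (h01 : M 0 1 = 0) (h10 : M 1 0 = 0)
    (htr : tr M = tr (diag l (by linarith))) :
    M = diag l (by linarith) ∨ M = (diag l (by linarith))⁻¹ := by
  have hd := det_eq M
  have hl0 : 0 < l := by linarith
  rw [tr_diag] at htr
  unfold tr at htr
  rw [h01, h10] at hd
  have h1 : l * l⁻¹ = 1 := mul_inv_cancel₀ hl0.ne'
  have h2 : (M 0 0 - l) * (M 0 0 - l⁻¹) = 0 := by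
    linear_combination h1 - hd + M 0 0 * htr
  rcases mul_eq_zero.1 h2 with h | h
  · left
    refine SL_ext ?_ h01 h10 ?_ <;> simp only [diag, mkSL00, mkSL11] <;> linarith
  · right
    refine SL_ext ?_ ?_ ?_ ?_ <;>
      simp only [diag, inv00, inv01, inv10, inv11, mkSL00, mkSL01, mkSL10, mkSL11] <;> linarith

lemma exists_enum (S : Set ℝ) (L : ℝ) (hL : 0 < L) (hS : ∀ t, t + L ∈ S ↔ t ∈ S)
    (hfin : (S ∩ Set.Ico 0 L).Finite) (hne : S.Nonempty) :
    ∃ (n : ℕ) (τ : ℤ → ℝ), 0 < n ∧ StrictMono τ ∧ Set.range τ = S ∧ ∀ i, τ (i + n) = τ i + L := by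
  have hSm : ∀ (m : ℤ) t, t + m * L ∈ S ↔ t ∈ S := by
    intro m
    induction m using Int.induction_on with
    | zero => simp
    | succ m ih =>
      intro t
      rw [← ih t, ← hS (t + ((m : ℤ) : ℝ) * L)]
      push_cast
      ring_nf
    | pred m ih =>
      intro t
      rw [← ih t, ← hS]
      push_cast
      ring_nf
  have hred : ∀ t ∈ S, t - ⌊t / L⌋ * L ∈ hfin.toFinset := by
    intro t ht
    rw [Set.Finite.mem_toFinset]
    refine ⟨(hSm ⌊t / L⌋ _).1 (by rwa [sub_add_cancel]), Int.sub_floor_div_mul_nonneg t hL,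
      Int.sub_floor_div_mul_lt t hL⟩
  obtain ⟨t0, ht0⟩ := hne
  set T := hfin.toFinset with hT
  have hn : 0 < T.card := Finset.card_pos.2 ⟨_, hred t0 ht0⟩
  set n := T.card with hnT
  have hn' : (0 : ℤ) < n := by exact_mod_cast hn
  let rem : ℤ → Fin n := fun i => ⟨(i % n).toNat, by
    have h1 := Int.emod_nonneg i hn'.ne'
    have h2 := Int.emod_lt_of_pos i hn'
    omega⟩
  have hrem : ∀ i, ((rem i : ℕ) : ℤ) = i % n := fun i =>
    Int.toNat_of_nonneg (Int.emod_nonneg i hn'.ne')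
  let f := T.orderEmbOfFin hnT.symm
  have hf : ∀ r, f r ∈ S ∩ Set.Ico 0 L := fun r =>
    (Set.Finite.mem_toFinset hfin).1 (T.orderEmbOfFin_mem _ r)
  refine ⟨n, fun i => f (rem i) + (i / n : ℤ) * L, hn, ?_, ?_, fun i => ?_⟩
  · intro i j hij
    have h1 : i / n ≤ j / n := Int.ediv_le_ediv hn' hij.le
    rcases h1.eq_or_lt with h | h
    · have h2 : rem i < rem j := by
        have a1 := Int.emod_add_mul_ediv i n
        have a2 := Int.emod_add_mul_ediv j n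
        rw [h] at a1
        have : ((rem i : ℕ) : ℤ) < (rem j : ℕ) := by rw [hrem, hrem]; omega
        exact_mod_cast this
      have := f.strictMono h2
      simp only [h]
      linarith
    · have h2 : ((i / n : ℤ) : ℝ) + 1 ≤ (j / n : ℤ) := by exact_mod_cast h
      have a1 := (hf (rem i)).2.2
      have a2 := (hf (rem j)).2.1
      simp only
      nlinarith
  · ext t
    constructor
    · rintro ⟨i, rfl⟩
      exact (hSm _ _).2 (hf _).1
    · intro ht
      obtain ⟨r, hr⟩ : t - ⌊t / L⌋ * L ∈ Set.range f := by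
        rw [T.range_orderEmbOfFin]
        exact hred t ht
      have h2 : ((r : ℕ) : ℤ) < n := by exact_mod_cast r.2
      refine ⟨(r : ℕ) + n * ⌊t / L⌋, ?_⟩
      have h3 : (((r : ℕ) : ℤ) + n * ⌊t / L⌋) / n = ⌊t / L⌋ := by
        rw [Int.add_mul_ediv_left _ _ hn'.ne', Int.ediv_eq_zero_of_lt (by positivity) h2, zero_add]
      have h4 : rem ((r : ℕ) + n * ⌊t / L⌋) = r := by
        have := hrem ((r : ℕ) + n * ⌊t / L⌋)
        rw [Int.add_mul_emod_self_left, Int.emod_eq_of_lt (by positivity) h2] at this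
        exact Fin.ext (by exact_mod_cast this)
      simp only [h3, h4, hr]
      ring
  · have h4 : rem (i + n) = rem i := by
      have := hrem (i + n)
      rw [Int.add_emod_right, ← hrem] at this
      exact Fin.ext (by exact_mod_cast this)
    have h3 : (i + n) / n = i / n + 1 := by
      have := Int.add_mul_ediv_right i 1 hn'.ne'
      rwa [one_mul] at this
    simp only [h3, h4]
    push_cast
    ring

end Pool.Agent.MP_46f5ab_gt

end

section

/-! Non-abelian subgroups of free groups and of surface groups have first Betti number `≥ 2`. -/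

namespace Pool.Agent.MP_46f5ab_gt

/-- Every element of a non-abelian subgroup `H` is killed by a non-zero homomorphism `H → ℝ`. -/
def HasHoms (G : Type*) [Group G] : Prop :=
  ∀ H : Subgroup G, (∃ x ∈ H, ∃ y ∈ H, x * y ≠ y * x) → ∀ a ∈ H, ∃ φ : G → ℝ,
    (∀ x ∈ H, ∀ y ∈ H, φ (x * y) = φ x + φ y) ∧ φ a = 0 ∧ ∃ b ∈ H, φ b ≠ 0

lemma isFree_of_injective {H K : Type*} [Group H] [Group K] [IsFreeGroup K] (j : H →* K)
    (hj : Function.Injective j) : IsFreeGroup H :=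
  IsFreeGroup.ofMulEquiv (MonoidHom.ofInjective hj).symm

lemma free_hom {K : Type*} [Group K] [IsFreeGroup K] (hK : ∃ x y : K, x * y ≠ y * x) (a : K) :
    ∃ φ : K → ℝ, (∀ x y, φ (x * y) = φ x + φ y) ∧ φ a = 0 ∧ ∃ b, φ b ≠ 0 := by
  classical
  have hnt : ∃ i j : IsFreeGroup.Generators K, i ≠ j := by
    by_contra h
    push Not at h
    obtain ⟨x, y, hxy⟩ := hK
    apply hxy
    have hcomm : ∀ u w : FreeGroup (IsFreeGroup.Generators K), Commute u w := by
      intro u w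
      induction u using FreeGroup.induction_on with
      | C1 => exact Commute.one_left _
      | of i =>
        induction w using FreeGroup.induction_on with
        | C1 => exact Commute.one_right _
        | of j => rw [h i j]
        | inv_of j hj => exact hj.inv_right
        | mul u v hu hv => exact hu.mul_right hv
      | inv_of i hi => exact hi.inv_left
      | mul u v hu hv => exact hu.mul_left hv
    apply (IsFreeGroup.toFreeGroup K).injective
    rw [map_mul, map_mul]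
    exact hcomm _ _
  obtain ⟨i, j, hij⟩ := hnt
  let e : IsFreeGroup.Generators K → K →* Multiplicative ℝ := fun k =>
    IsFreeGroup.lift fun l => Multiplicative.ofAdd (if l = k then (1 : ℝ) else 0)
  have he : ∀ k l, (e k (IsFreeGroup.of l)).toAdd = if l = k then (1 : ℝ) else 0 := by
    intro k l
    simp [e]
  by_cases h : (e i a).toAdd = 0
  · exact ⟨fun x => (e i x).toAdd, fun x y => by simp, h, IsFreeGroup.of i, by simp [he]⟩
  · refine ⟨fun x => (e i a).toAdd * (e j x).toAdd - (e j a).toAdd * (e i x).toAdd,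
      fun x y => ?_, by ring, IsFreeGroup.of j, ?_⟩
    · simp only [map_mul, toAdd_mul]
      ring
    · simpa [he, hij.symm] using h

lemma hom_of_free_subgroup {G : Type*} [Group G] (H : Subgroup G) [IsFreeGroup H]
    (hH : ∃ x ∈ H, ∃ y ∈ H, x * y ≠ y * x) (a : G) (ha : a ∈ H) : ∃ φ : G → ℝ,
    (∀ x ∈ H, ∀ y ∈ H, φ (x * y) = φ x + φ y) ∧ φ a = 0 ∧ ∃ b ∈ H, φ b ≠ 0 := by
  classical
  obtain ⟨x, hx, y, hy, hxy⟩ := hH
  obtain ⟨φ, h1, h2, b, h3⟩ := free_hom (K := H)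
    ⟨⟨x, hx⟩, ⟨y, hy⟩, fun h => hxy (congrArg Subtype.val h)⟩ ⟨a, ha⟩
  refine ⟨fun g => if h : g ∈ H then φ ⟨g, h⟩ else 0, fun u hu w hw => ?_, by simpa [ha] using h2,
    b, b.2, by simpa using h3⟩
  simp only [hu, hw, H.mul_mem hu hw, dif_pos]
  exact h1 ⟨u, hu⟩ ⟨w, hw⟩

theorem hasHoms_of_free (G : Type*) [Group G] [IsFreeGroup G] : HasHoms G :=
  fun H hH a ha => hom_of_free_subgroup H hH a ha

theorem HasHoms.of_mulEquiv {G K : Type*} [Group G] [Group K] (e : G ≃* K) (hK : HasHoms K) :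
    HasHoms G := by
  rintro H ⟨x, hx, y, hy, hxy⟩ a ha
  obtain ⟨φ, h1, h2, b, ⟨b', hb', rfl⟩, h3⟩ := hK (H.map e.toMonoidHom)
    ⟨e x, ⟨x, hx, rfl⟩, e y, ⟨y, hy, rfl⟩, fun h => hxy (e.injective (by simpa using h))⟩
    (e a) ⟨a, ha, rfl⟩
  refine ⟨fun g => φ (e g), fun u hu w hw => ?_, h2, b', hb', h3⟩
  simp only [map_mul]
  exact h1 _ ⟨u, hu, rfl⟩ _ ⟨w, hw, rfl⟩

/-- The product of commutators of a family of pairs. -/
def cprod {K : Type*} [Group K] {n : ℕ} (f : Fin n × Bool → K) : K :=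
  (List.ofFn fun i : Fin n =>
    f (i, false) * f (i, true) * (f (i, false))⁻¹ * (f (i, true))⁻¹).prod

lemma map_cprod {K L : Type*} [Group K] [Group L] {n : ℕ} (φ : K →* L) (f : Fin n × Bool → K) :
    φ (cprod f) = cprod fun y => φ (f y) := by
  simp only [cprod, map_list_prod, List.map_ofFn]
  congr 2
  funext i
  simp

lemma cprod_succ {K : Type*} [Group K] {n : ℕ} (f : Fin (n + 1) × Bool → K) :
    cprod f = f (0, false) * f (0, true) * (f (0, false))⁻¹ * (f (0, true))⁻¹ *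
      cprod fun y : Fin n × Bool => f (y.1.succ, y.2) := by
  simp [cprod, List.ofFn_succ]

lemma cprod_comm {K : Type*} [CommGroup K] {n : ℕ} (f : Fin n × Bool → K) : cprod f = 1 := by
  refine List.prod_eq_one fun x hx => ?_
  obtain ⟨i, rfl⟩ := List.mem_ofFn.1 hx
  rw [mul_comm (f (i, false)) (f (i, true))]
  group

/-- A homomorphism from the surface group. -/
def surfHom {K : Type*} [Group K] {n : ℕ} (f : Fin n × Bool → K) (hf : cprod f = 1) :
    SurfaceGroup n →* K :=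
  PresentedGroup.toGroup (f := f) (by
    rintro r rfl
    have : surfaceRelator n = cprod FreeGroup.of := rfl
    rw [this, map_cprod]
    simpa using hf)

@[simp] lemma surfHom_of {K : Type*} [Group K] {n : ℕ} (f : Fin n × Bool → K) (hf : cprod f = 1)
    (y : Fin n × Bool) : surfHom f hf (PresentedGroup.of y) = f y :=
  PresentedGroup.toGroup.of _

lemma cprod_of (n : ℕ) : cprod (fun y => (PresentedGroup.of y : SurfaceGroup n)) = 1 := by
  have h1 : PresentedGroup.mk ({surfaceRelator n} : Set _) (cprod FreeGroup.of) = 1 :=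
    PresentedGroup.one_of_mem rfl
  rw [map_cprod] at h1
  exact h1

/-- A family on `Fin (n + 1) × Bool` from its first pair and the rest. -/
def consPair {K : Type*} {n : ℕ} (a b : K) (f : Fin n × Bool → K) : Fin (n + 1) × Bool → K :=
  fun y => Fin.cases (motive := fun _ => K) (cond y.2 b a) (fun i => f (i, y.2)) y.1

@[simp] lemma consPair_a {K : Type*} {n : ℕ} (a b : K) (f : Fin n × Bool → K) :
    consPair a b f (0, false) = a := rfl

@[simp] lemma consPair_b {K : Type*} {n : ℕ} (a b : K) (f : Fin n × Bool → K) :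
    consPair a b f (0, true) = b := rfl

@[simp] lemma consPair_succ {K : Type*} {n : ℕ} (a b : K) (f : Fin n × Bool → K) (i : Fin n)
    (x : Bool) : consPair a b f (i.succ, x) = f (i, x) := by
  simp [consPair]

lemma surf_ext {K : Type*} [Group K] {n : ℕ} {φ ψ : SurfaceGroup (n + 1) →* K}
    (ha : φ (PresentedGroup.of (0, false)) = ψ (PresentedGroup.of (0, false)))
    (hb : φ (PresentedGroup.of (0, true)) = ψ (PresentedGroup.of (0, true)))
    (hy : ∀ (i : Fin n) (x : Bool),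
      φ (PresentedGroup.of (i.succ, x)) = ψ (PresentedGroup.of (i.succ, x))) : φ = ψ := by
  refine PresentedGroup.ext ?_
  rintro ⟨i, x⟩
  refine Fin.cases ?_ (fun i => hy i x) i
  cases x
  · exact ha
  · exact hb

section

variable (n : ℕ)

/-- The first generator. -/
def genA : SurfaceGroup (n + 1) := PresentedGroup.of (0, false)

/-- The second generator. -/
def genB : SurfaceGroup (n + 1) := PresentedGroup.of (0, true)

/-- The other generators. -/
def genY (y : Fin n × Bool) : SurfaceGroup (n + 1) := PresentedGroup.of (y.1.succ, y.2)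

lemma gen_rel : genA n * genB n * (genA n)⁻¹ * (genB n)⁻¹ * cprod (genY n) = 1 := by
  have := cprod_of (n + 1)
  rw [cprod_succ] at this
  exact this

/-- A homomorphism from the surface group, given on the first pair and on the rest. -/
def surfHom' {K : Type*} [Group K] (a b : K) (f : Fin n × Bool → K)
    (h : a * b * a⁻¹ * b⁻¹ * cprod f = 1) : SurfaceGroup (n + 1) →* K :=
  surfHom (consPair a b f) (by rw [cprod_succ]; simpa using h)

@[simp] lemma surfHom'_A {K : Type*} [Group K] (a b : K) (f : Fin n × Bool → K) (h) :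
    surfHom' n a b f h (genA n) = a := surfHom_of _ _ _

@[simp] lemma surfHom'_B {K : Type*} [Group K] (a b : K) (f : Fin n × Bool → K) (h) :
    surfHom' n a b f h (genB n) = b := surfHom_of _ _ _

@[simp] lemma surfHom'_Y {K : Type*} [Group K] (a b : K) (f : Fin n × Bool → K) (h)
    (y : Fin n × Bool) : surfHom' n a b f h (genY n y) = f y :=
  (surfHom_of _ _ _).trans (consPair_succ _ _ _ _ _)

lemma surf_ext' {K : Type*} [Group K] {φ ψ : SurfaceGroup (n + 1) →* K}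
    (ha : φ (genA n) = ψ (genA n)) (hb : φ (genB n) = ψ (genB n))
    (hy : ∀ y, φ (genY n y) = ψ (genY n y)) : φ = ψ :=
  surf_ext ha hb fun i x => hy (i, x)

/-- The twist `a ↦ a b ^ k`. -/
def twA (k : ℤ) : SurfaceGroup (n + 1) →* SurfaceGroup (n + 1) :=
  surfHom' n (genA n * genB n ^ k) (genB n) (genY n) (by rw [← gen_rel n]; group)

/-- The twist `b ↦ b a ^ k`. -/
def twB (k : ℤ) : SurfaceGroup (n + 1) →* SurfaceGroup (n + 1) :=
  surfHom' n (genA n) (genB n * genA n ^ k) (genY n) (by rw [← gen_rel n]; group)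

/-- The kernel of the homomorphism `a ↦ r`, `b ↦ s` is free. -/
def KerFree (r s : ℤ) : Prop :=
  ∀ ψ : SurfaceGroup (n + 1) →* Multiplicative ℤ, ψ (genA n) = Multiplicative.ofAdd r →
    ψ (genB n) = Multiplicative.ofAdd s → (∀ y, ψ (genY n y) = 1) → IsFreeGroup ψ.ker

lemma ker_free_of_section {Γ Z : Type*} [Group Γ] [Group Z] (ψ : Γ →* Z) (T S : Γ →* Γ)
    (h : T.comp S = MonoidHom.id _) [IsFreeGroup (ψ.comp T).ker] : IsFreeGroup ψ.ker := by
  have h' : ∀ x, T (S x) = x := fun x => DFunLike.congr_fun h x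
  refine isFree_of_injective (K := (ψ.comp T).ker)
    ((S.comp ψ.ker.subtype).codRestrict _ fun x => ?_) fun x y hxy => ?_
  · have h1 : ψ x = 1 := x.2
    change ψ (T (S x)) = 1
    rw [h', h1]
  · have h1 : S x = S y := congrArg Subtype.val hxy
    exact Subtype.ext (by rw [← h' x, h1, h'])

lemma kerFree_stepA (r s k : ℤ) (h : KerFree n (r + k * s) s) : KerFree n r s := by
  intro ψ ha hb hy
  have := h (ψ.comp (twA n k))
    (Multiplicative.toAdd.injective (by simp [twA, ha, hb, mul_comm])) (by simp [twA, hb])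
    (by simp [twA, hy])
  refine ker_free_of_section ψ (twA n k) (twA n (-k)) (surf_ext' n ?_ ?_ ?_) <;> simp [twA]

lemma kerFree_stepB (r s k : ℤ) (h : KerFree n r (s + k * r)) : KerFree n r s := by
  intro ψ ha hb hy
  have := h (ψ.comp (twB n k)) (by simp [twB, ha])
    (Multiplicative.toAdd.injective (by simp [twB, ha, hb, mul_comm]))
    (by simp [twB, hy])
  refine ker_free_of_section ψ (twB n k) (twB n (-k)) (surf_ext' n ?_ ?_ ?_) <;> simp [twB]

lemma kerFree_base (r : ℤ) (hr : r ≠ 0) : KerFree n r 0 := by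
  intro ψ ha hb hy
  let F := FreeGroup (Option (ℤ × (Fin n × Bool)))
  let b : F := FreeGroup.of none
  let x : ℤ → Fin n × Bool → F := fun m y => FreeGroup.of (some (m, y))
  let τ : F →* F := FreeGroup.lift fun o =>
    Option.casesOn o ((cprod (x 0))⁻¹ * b) fun p => x (p.1 + 1) p.2
  let τ' : F →* F := FreeGroup.lift fun o =>
    Option.casesOn o (cprod (x (-1)) * b) fun p => x (p.1 - 1) p.2
  have hτb : τ b = (cprod (x 0))⁻¹ * b := FreeGroup.lift_apply_of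
  have hτ'b : τ' b = cprod (x (-1)) * b := FreeGroup.lift_apply_of
  have hτx : ∀ m y, τ (x m y) = x (m + 1) y := fun m y => FreeGroup.lift_apply_of
  have hτ'x : ∀ m y, τ' (x m y) = x (m - 1) y := fun m y => FreeGroup.lift_apply_of
  have hext : ∀ {K : Type} [Group K] (f g : F →* K), f b = g b → (∀ m y, f (x m y) = g (x m y)) →
      f = g := by
    intro K _ f g h1 h2
    refine FreeGroup.ext_hom f g ?_
    rintro (_ | ⟨m, y⟩)
    · exact h1
    · exact h2 m y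
  let τe : MulAut F := MonoidHom.toMulEquiv τ τ'
    (hext _ _ (by simp [hτb, hτ'b, map_cprod, hτ'x]) (by simp [hτx, hτ'x]))
    (hext _ _ (by simp [hτb, hτ'b, map_cprod, hτx]) (by simp [hτx, hτ'x]))
  have hτe : ∀ u, τe u = τ u := fun u => rfl
  let φτ : Multiplicative ℤ →* MulAut F := zpowersHom _ τe
  let t : Multiplicative ℤ := Multiplicative.ofAdd 1
  have hφt : φτ t = τe := by simp [φτ, t]
  let Θ : SurfaceGroup (n + 1) →* F ⋊[φτ] Multiplicative ℤ :=
    surfHom' n (SemidirectProduct.inr t) (SemidirectProduct.inl b)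
      (fun y => SemidirectProduct.inl (x 0 y)) (by
        rw [← map_inv SemidirectProduct.inr, ← SemidirectProduct.inl_aut, hφt, hτe, hτb,
          ← map_cprod]
        simp)
  let Ξ : F →* SurfaceGroup (n + 1) := FreeGroup.lift fun o =>
    Option.casesOn o (genB n) fun p => genA n ^ p.1 * genY n p.2 * (genA n ^ p.1)⁻¹
  have hΞb : Ξ b = genB n := FreeGroup.lift_apply_of
  have hΞx : ∀ m y, Ξ (x m y) = genA n ^ m * genY n y * (genA n ^ m)⁻¹ :=
    fun m y => FreeGroup.lift_apply_of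
  have hΞτ : ∀ u, Ξ (τe u) = genA n * Ξ u * (genA n)⁻¹ := by
    have : Ξ.comp τ = (MulAut.conj (genA n)).toMonoidHom.comp Ξ := by
      refine hext _ _ ?_ fun m y => ?_
      · have h1 : cprod (genY n) = (genA n * genB n * (genA n)⁻¹ * (genB n)⁻¹)⁻¹ :=
          eq_inv_of_mul_eq_one_right (gen_rel n)
        have h2 : Ξ (cprod (x 0)) = cprod (genY n) := by
          rw [map_cprod]
          simp [hΞx]
        simp [hτb, hΞb, h2, h1, mul_assoc]
      · simp only [MonoidHom.comp_apply, hτx, hΞx, MulEquiv.coe_toMonoidHom, MulAut.conj_apply]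
        group
    exact fun u => DFunLike.congr_fun this u
  have hΞpow : ∀ (m : ℤ) u, Ξ ((τe ^ m) u) = genA n ^ m * Ξ u * (genA n ^ m)⁻¹ := by
    intro m
    induction m using Int.induction_on with
    | zero => simp
    | succ m ih =>
      intro u
      rw [zpow_add_one, MulAut.mul_apply, ih, hΞτ]
      group
    | pred m ih =>
      intro u
      rw [zpow_sub_one, MulAut.mul_apply, ih]
      have := hΞτ (τe⁻¹ u)
      rw [MulAut.apply_inv_self] at this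
      rw [this]
      group
  let Ξ' : F ⋊[φτ] Multiplicative ℤ →* SurfaceGroup (n + 1) :=
    SemidirectProduct.lift Ξ (zpowersHom _ (genA n)) fun g => by
      ext1 u
      exact hΞpow g.toAdd _
  have hinj : Function.Injective Θ := by
    have : Ξ'.comp Θ = MonoidHom.id _ := by
      refine surf_ext' n ?_ ?_ fun y => ?_
      · simp [Ξ', Θ, t]
      · simp [Ξ', Θ, hΞb]
      · simp [Ξ', Θ, hΞx]
    exact Function.LeftInverse.injective (g := Ξ') fun u => DFunLike.congr_fun this u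
  have hψ : ψ = (zpowGroupHom r).comp (SemidirectProduct.rightHom.comp Θ) := by
    refine surf_ext' n ?_ ?_ fun y => ?_
    · simp [Θ, ha, t, ← ofAdd_zsmul]
    · simp [Θ, hb]
    · simp [Θ, hy]
  have hfree : IsFreeGroup (SemidirectProduct.inl : F →* F ⋊[φτ] Multiplicative ℤ).range :=
    IsFreeGroup.ofMulEquiv (MonoidHom.ofInjective SemidirectProduct.inl_injective)
  refine isFree_of_injective
    (K := (SemidirectProduct.inl : F →* F ⋊[φτ] Multiplicative ℤ).range)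
    ((Θ.comp ψ.ker.subtype).codRestrict _ fun u => ?_) fun u w h => ?_
  · rw [SemidirectProduct.range_inl_eq_ker_rightHom, MonoidHom.mem_ker]
    have h1 : ψ u = 1 := u.2
    have h2 : (SemidirectProduct.rightHom (Θ u)) ^ r = 1 := by
      rw [← h1]
      exact (DFunLike.congr_fun hψ u.1).symm
    have h3 := congrArg Multiplicative.toAdd h2
    simp only [toAdd_zpow, toAdd_one, smul_eq_mul, mul_eq_zero, hr, false_or] at h3
    exact h3
  · exact Subtype.ext (hinj (congrArg Subtype.val h))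

lemma kerFree_all (r s : ℤ) (h : r ≠ 0 ∨ s ≠ 0) : KerFree n r s := by
  induction hs : s.natAbs using Nat.strong_induction_on generalizing r s with
  | _ N ih =>
  by_cases hs0 : s = 0
  · subst hs0
    exact kerFree_base n r (by simpa using h)
  by_cases hr : r % s = 0
  · refine kerFree_stepA n r s (1 - r / s) ?_
    have h1 : r + (1 - r / s) * s = s := by
      have := Int.emod_add_mul_ediv r s
      rw [hr] at this
      linear_combination -this
    rw [h1]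
    refine kerFree_stepB n s s (-1) ?_
    simpa using kerFree_base n s hs0
  · refine kerFree_stepA n r s (-(r / s)) ?_
    have h1 : r + (-(r / s)) * s = r % s := by
      have := Int.emod_add_mul_ediv r s
      linear_combination -this
    rw [h1]
    refine kerFree_stepB n _ s (-(s / (r % s))) ?_
    have h2 : s + (-(s / (r % s))) * (r % s) = s % (r % s) := by
      have := Int.emod_add_mul_ediv s (r % s)
      linear_combination -this
    rw [h2]
    refine ih _ ?_ _ _ (Or.inl hr) rfl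
    have a1 := Int.emod_nonneg r hs0
    have a2 := Int.emod_lt_abs r hs0
    have a3 := Int.emod_nonneg s hr
    have a4 := Int.emod_lt_abs s hr
    rw [abs_of_nonneg a1] at a4
    rw [Int.abs_eq_natAbs] at a2
    omega

end

theorem hasHoms_surfaceGroup (n : ℕ) : HasHoms (SurfaceGroup n) := by
  rcases n with _ | n
  · rintro H ⟨x, -, y, -, hxy⟩
    have : (MonoidHom.id (SurfaceGroup 0)) = 1 := PresentedGroup.ext fun i => i.1.elim0
    have h1 : ∀ u : SurfaceGroup 0, u = 1 := fun u => DFunLike.congr_fun this u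
    exact absurd ((h1 _).trans (h1 _).symm) hxy
  intro H hH a ha
  let ψ : ℤ → ℤ → SurfaceGroup (n + 1) →* Multiplicative ℤ := fun r s =>
    surfHom' n (Multiplicative.ofAdd r) (Multiplicative.ofAdd s) (fun _ => 1) (by
      rw [cprod_comm, mul_comm (Multiplicative.ofAdd r)]
      group)
  have hψ : ∀ r s u, (ψ r s u).toAdd = r * (ψ 1 0 u).toAdd + s * (ψ 0 1 u).toAdd := by
    intro r s u
    have : ψ r s = (zpowGroupHom r).comp (ψ 1 0) * (zpowGroupHom s).comp (ψ 0 1) := by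
      refine surf_ext' n ?_ ?_ fun y => ?_ <;> simp [ψ, ← ofAdd_zsmul]
    rw [this]
    simp
  obtain ⟨r, s, hrs, h0⟩ : ∃ r s : ℤ, (r ≠ 0 ∨ s ≠ 0) ∧ (ψ r s a).toAdd = 0 := by
    by_cases h : (ψ 1 0 a).toAdd = 0
    · exact ⟨1, 0, Or.inl one_ne_zero, h⟩
    · exact ⟨-(ψ 0 1 a).toAdd, (ψ 1 0 a).toAdd, Or.inr h, by rw [hψ]; ring⟩
  by_cases hb : ∃ b ∈ H, (ψ r s b).toAdd ≠ 0
  · obtain ⟨b, hb, hb'⟩ := hb
    exact ⟨fun u => ((ψ r s u).toAdd : ℝ), fun x _ y _ => by simp, by simp [h0], b, hb,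
      Int.cast_ne_zero.2 hb'⟩
  · push Not at hb
    have := kerFree_all n r s hrs (ψ r s) (by simp [ψ]) (by simp [ψ]) (by simp [ψ])
    have hle : H ≤ (ψ r s).ker := fun b h => hb b h
    have : IsFreeGroup H :=
      isFree_of_injective (Subgroup.inclusion hle) (Subgroup.inclusion_injective hle)
    exact hom_of_free_subgroup H hH a ha

theorem hasHoms_of_free_or_surface {G : Type*} [Group G]
    (h : IsFreeGroup G ∨ ∃ n, Nonempty (G ≃* SurfaceGroup n)) : HasHoms G := by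
  rcases h with h | ⟨n, ⟨e⟩⟩
  · exact hasHoms_of_free G
  · exact HasHoms.of_mulEquiv e (hasHoms_surfaceGroup n)

end Pool.Agent.MP_46f5ab_gt

end

section

/-! Terms of opposite sign in the bracket of a geodesic with its reverse are never conjugate. -/

namespace Pool.Agent.MP_46f5ab_gt

open UpperHalfPlane MatrixGroups

variable {G X : Type*} [Group G] [MulAction G X] [TopologicalSpace X] {e : X ≃ₜ ℍ}

lemma half_mono (ε : ℝ) (M : SL(2, ℝ)) :
    (∀ t t', t ≤ t' → 0 ≤ ε * sig M (axisPt t) → 0 ≤ ε * sig M (axisPt t')) ∨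
    (∀ t t', t ≤ t' → 0 ≤ ε * sig M (axisPt t') → 0 ≤ ε * sig M (axisPt t)) := by
  have key : ∀ t, 0 ≤ ε * sig M (axisPt t) ↔ 0 ≤ ε * M 0 1 - ε * M 1 0 * Real.exp t ^ 2 := by
    intro t
    rw [sig_axisPt, ← mul_div_assoc, le_div_iff₀ (Real.exp_pos t), zero_mul, mul_sub, mul_assoc]
  have hm : ∀ t t', t ≤ t' → Real.exp t ^ 2 ≤ Real.exp t' ^ 2 := fun t t' h => by gcongr
  simp only [key]
  rcases le_total (ε * M 1 0) 0 with h | h
  · exact Or.inl fun t t' htt h1 => by nlinarith [hm t t' htt]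
  · exact Or.inr fun t t' htt h1 => by nlinarith [hm t t' htt]

lemma sig_zero_subsingleton {M : SL(2, ℝ)} (h : ¬ (M 0 1 = 0 ∧ M 1 0 = 0)) :
    {t | sig M (axisPt t) = 0}.Subsingleton := by
  intro t ht t' ht'
  simp only [Set.mem_ofPred_eq, sig_axisPt, div_eq_zero_iff, (Real.exp_pos _).ne', or_false]
    at ht ht'
  have h1 : M 1 0 ≠ 0 := fun h1 => h ⟨by simpa [h1] using ht, h1⟩
  have h2 : Real.exp t ^ 2 = Real.exp t' ^ 2 := mul_left_cancel₀ h1 (by linarith)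
  exact Real.exp_injective ((pow_left_inj₀ (Real.exp_pos _).le (Real.exp_pos _).le two_ne_zero).1 h2)

section diagonal

variable {β : G} {l : ℝ} (hl : 1 < l)

lemma Fuchs.conj_matrix (F : Fuchs G e) (hβ : Acts e β (diag l (by linarith))) (a : G) :
    ∃ M, Acts e (a * β * a⁻¹) M ∧ tr M = tr (diag l (by linarith)) := by
  obtain ⟨N, hN⟩ := F.mob a
  exact ⟨_, hN.conj hβ, tr_conj _ _⟩

lemma Fuchs.on_axis (F : Fuchs G e) (hβ : Acts e β (diag l (by linarith))) {a : G} {M : SL(2, ℝ)}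
    (hM : Acts e (a * β * a⁻¹) M) (htr : 0 < tr M) {x : X} (hx : sig M (e x) = 0) :
    ∃ t, x = a • e.symm (axisPt t) := by
  obtain ⟨N, hN⟩ := F.mob a
  have h2 := two_lt_tr_diag hl
  obtain rfl := hM.eq_of_tr (hN.conj hβ) htr (by rw [tr_conj]; linarith)
  rw [← smul_inv_smul N (e x), sig_conj] at hx
  refine ⟨Real.log (N⁻¹ • e x).im, e.injective ?_⟩
  rw [hN, e.apply_symm_apply, ← eq_axisPt_of_sig hl hx, smul_inv_smul]

lemma Fuchs.sig_translate (F : Fuchs G e) (hβ : Acts e β (diag l (by linarith))) {a : G}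
    {M : SL(2, ℝ)} (hM : Acts e (a * β * a⁻¹) M) (htr : 0 < tr M) (t : ℝ) :
    sig M (e (a • e.symm (axisPt t))) = 0 := by
  obtain ⟨N, hN⟩ := F.mob a
  have h2 := two_lt_tr_diag hl
  obtain rfl := hM.eq_of_tr (hN.conj hβ) htr (by rw [tr_conj]; linarith)
  rw [hN, sig_conj, e.apply_symm_apply, sig_diag, axisPt_re]
  simp

lemma Fuchs.diag_iff (F : Fuchs G e) (hβ : Acts e β (diag l (by linarith))) {b : G}
    {M : SL(2, ℝ)} (hM : Acts e b M) (htr : tr M = tr (diag l (by linarith))) :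
    (M 0 1 = 0 ∧ M 1 0 = 0) ↔ (b = β ∨ b = β⁻¹) := by
  have h2 := two_lt_tr_diag hl
  constructor
  · rintro ⟨h1, h3⟩
    rcases eq_diag_or hl h1 h3 htr with rfl | rfl
    · exact Or.inl (F.eq_of_acts hM hβ)
    · exact Or.inr (F.eq_of_acts hM hβ.inv)
  · rintro (rfl | rfl)
    · obtain rfl := hM.eq_of_tr hβ (by linarith) (by linarith)
      exact ⟨rfl, rfl⟩
    · obtain rfl := hM.eq_of_tr hβ.inv (by linarith) (by rw [tr_inv]; linarith)
      simp [inv01, inv10, diag]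

lemma zpow_smul_axis (hβ : Acts e β (diag l (by linarith))) (m : ℤ) (t : ℝ) :
    β ^ m • e.symm (axisPt t) = e.symm (axisPt (t + m * (2 * Real.log l))) := by
  apply e.injective
  rw [hβ.zpow m, e.apply_symm_apply, e.apply_symm_apply, diag_zpow, diag_smul_axisPt,
    Real.log_zpow]
  congr 1
  ring

lemma axisPt_injective : Function.Injective axisPt := fun _ _ h =>
  Real.exp_injective (congrArg UpperHalfPlane.im h)

lemma zpow_injective_of_diag (hβ : Acts e β (diag l (by linarith))) :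
    Function.Injective fun m : ℤ => β ^ m := by
  intro m m' h
  have h1 := zpow_smul_axis hl hβ m 0
  have h2 := zpow_smul_axis hl hβ m' 0
  have h3 : β ^ m = β ^ m' := h
  rw [h3, h2] at h1
  have h4 := axisPt_injective (e.symm.injective h1)
  have h5 : 0 < 2 * Real.log l := by have := Real.log_pos hl; linarith
  have h6 : (m' : ℝ) = m := mul_right_cancel₀ h5.ne' (by linarith)
  exact_mod_cast h6.symm

/-- The parameters of the points where the axis meets another translate of itself. -/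
def crossSet (e : X ≃ₜ ℍ) (β : G) : Set ℝ :=
  {t | ∃ (a : G) (t' : ℝ), e.symm (axisPt t) = a • e.symm (axisPt t') ∧
    ¬ (a * β * a⁻¹ = β ∨ a * β * a⁻¹ = β⁻¹)}

lemma crossSet_shift (hβ : Acts e β (diag l (by linarith))) (m : ℤ) {t : ℝ}
    (ht : t ∈ crossSet e β) : t + m * (2 * Real.log l) ∈ crossSet e β := by
  obtain ⟨a, t', h1, h2⟩ := ht
  refine ⟨β ^ m * a, t', by rw [← zpow_smul_axis hl hβ, h1, mul_smul], fun h => h2 ?_⟩
  refine h.imp (fun h => ?_) fun h => ?_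
  · calc a * β * a⁻¹ = (β ^ m)⁻¹ * (β ^ m * a * β * (β ^ m * a)⁻¹) * β ^ m := by group
      _ = β := by rw [h]; group
  · calc a * β * a⁻¹ = (β ^ m)⁻¹ * (β ^ m * a * β * (β ^ m * a)⁻¹) * β ^ m := by group
      _ = β⁻¹ := by rw [h]; group

lemma crossSet_symm {a : G} {t t' : ℝ} (h1 : e.symm (axisPt t) = a • e.symm (axisPt t'))
    (h2 : ¬ (a * β * a⁻¹ = β ∨ a * β * a⁻¹ = β⁻¹)) : t' ∈ crossSet e β := by
  refine ⟨a⁻¹, t, by rw [h1, inv_smul_smul], fun h => h2 ?_⟩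
  refine h.imp (fun h => ?_) fun h => ?_
  · calc a * β * a⁻¹ = a * (a⁻¹ * β * a⁻¹⁻¹) * a⁻¹ := by rw [h]
      _ = β := by group
  · calc a * β * a⁻¹ = (a * β⁻¹ * a⁻¹)⁻¹ := by group
      _ = (a * (a⁻¹ * β * a⁻¹⁻¹) * a⁻¹)⁻¹ := by rw [h]
      _ = β⁻¹ := by group

lemma Fuchs.crossSet_finite (F : Fuchs G e) (hβ : Acts e β (diag l (by linarith))) :
    (crossSet e β ∩ Set.Ico 0 (2 * Real.log l)).Finite := by
  have hL : 0 < 2 * Real.log l := by have := Real.log_pos hl; linarith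
  set L := 2 * Real.log l with hLdef
  have h2 := two_lt_tr_diag hl
  have hK : IsCompact ((fun t => e.symm (axisPt t)) '' Set.Icc 0 L) :=
    isCompact_Icc.image (e.symm.continuous.comp continuous_axisPt)
  choose M hM hMtr using F.conj_matrix hl hβ
  have hfin := (F.pd _ _ hK hK).inter_of_left {a | ¬ (a * β * a⁻¹ = β ∨ a * β * a⁻¹ = β⁻¹)}
  refine (hfin.biUnion (t := fun a => {t | sig (M a) (axisPt t) = 0}) fun a ha => ?_).subset ?_
  · exact (sig_zero_subsingleton (mt (F.diag_iff hl hβ (hM a) (hMtr a)).1 ha.2)).finite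
  rintro t ⟨⟨a, t', h1, h3⟩, ht⟩
  have h4 : (a * β ^ ⌊t' / L⌋) * β * (a * β ^ ⌊t' / L⌋)⁻¹ = a * β * a⁻¹ := by group
  have h5 : e.symm (axisPt t) = (a * β ^ ⌊t' / L⌋) • e.symm (axisPt (t' - ⌊t' / L⌋ * L)) := by
    rw [mul_smul, zpow_smul_axis hl hβ, sub_add_cancel, h1]
  refine Set.mem_biUnion (x := a * β ^ ⌊t' / L⌋) ⟨⟨e.symm (axisPt t), ⟨_, ⟨_, ⟨?_, ?_⟩, rfl⟩,
    h5.symm⟩, ⟨t, ⟨ht.1, ht.2.le⟩, rfl⟩⟩, ?_⟩ ?_
  · exact Int.sub_floor_div_mul_nonneg t' hL
  · exact (Int.sub_floor_div_mul_lt t' hL).le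
  · simpa only [Set.mem_ofPred_eq, h4] using h3
  · have := F.sig_translate hl hβ (hM (a * β ^ ⌊t' / L⌋)) (by rw [hMtr]; linarith)
      (t' - ⌊t' / L⌋ * L)
    rwa [← h5, e.apply_symm_apply] at this

lemma Fuchs.quad (F : Fuchs G e) (hβ : Acts e β (diag l (by linarith))) {n : ℕ} {τ : ℤ → ℝ}
    (hτ : StrictMono τ) (hS : Set.range τ = crossSet e β) (good : G → Prop)
    (ε : Option (Fin 3) → ℝ) (M : Option (Fin 3) → SL(2, ℝ)) (gs : Option (Fin 3) → G)
    (hM : ∀ j, Acts e (gs j * β * (gs j)⁻¹) (M j))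
    (htr : ∀ j, tr (M j) = tr (diag l (by linarith)))
    (h0 : gs none = 1) (hgood : ∀ j, good (gs (some j))) (Y : Set ℍ) (hY : IsCompact Y)
    (hYM : ∀ z, z ∈ Y ↔ ∀ j, 0 ≤ ε j * sig (M j) z) :
    Quad (fun i => e.symm (axisPt (τ i))) n good (e ⁻¹' Y) := by
  have h2 := two_lt_tr_diag hl
  have hrel : ∀ (g : G) j, ∃ M' : SL(2, ℝ), Acts e (g⁻¹ * gs j * β * (g⁻¹ * gs j)⁻¹) M' ∧
      tr M' = tr (diag l (by linarith)) ∧
      ∀ t, sig (M j) (e (g • e.symm (axisPt t))) = sig M' (axisPt t) := by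
    intro g j
    obtain ⟨N, hN⟩ := F.mob g
    refine ⟨N⁻¹ * M j * N⁻¹⁻¹, ?_, by rw [tr_conj, htr], fun t => ?_⟩
    · have := hN.inv.conj (hM j)
      rwa [show g⁻¹ * (gs j * β * (gs j)⁻¹) * g⁻¹⁻¹ = g⁻¹ * gs j * β * (g⁻¹ * gs j)⁻¹ by group]
        at this
    · rw [hN, e.apply_symm_apply, ← sig_conj N⁻¹, inv_smul_smul]
  have hcross : ∀ (g : G) j (i i' : ℤ), (i' = i + 1 ∨ i' = i - 1) →
      0 ≤ ε j * sig (M j) (e (g • e.symm (axisPt (τ i)))) →
      ¬ 0 ≤ ε j * sig (M j) (e (g • e.symm (axisPt (τ i')))) →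
      ∃ k, g • e.symm (axisPt (τ i)) = gs j • e.symm (axisPt (τ k)) := by
    intro g j i i' hi h3 h4
    obtain ⟨M', a1, a2, a3⟩ := hrel g j
    rw [a3] at h3 h4
    have hc : Continuous fun t => ε j * sig M' (axisPt t) :=
      continuous_const.mul ((continuous_sig M').comp continuous_axisPt)
    obtain ⟨t, ht, ht0⟩ := intermediate_value_uIcc (a := τ i) (b := τ i') hc.continuousOn
      (show (0 : ℝ) ∈ Set.uIcc _ _ from Set.mem_uIcc.2 (Or.inr ⟨(not_le.1 h4).le, h3⟩))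
    have hε : ε j ≠ 0 := fun h => h4 (by simp [h])
    have ht1 : sig M' (axisPt t) = 0 := (mul_eq_zero.1 ht0).resolve_left hε
    have hne : ¬ (g⁻¹ * gs j * β * (g⁻¹ * gs j)⁻¹ = β ∨ g⁻¹ * gs j * β * (g⁻¹ * gs j)⁻¹ = β⁻¹) := by
      intro h
      obtain ⟨b1, b2⟩ := (F.diag_iff hl hβ a1 a2).2 h
      exact h4 (by simp [sig_axisPt, b1, b2])
    obtain ⟨t', ht'⟩ := F.on_axis hl hβ a1 (by linarith) (x := e.symm (axisPt t))
      (by rwa [e.apply_symm_apply])
    obtain ⟨k, rfl⟩ : t ∈ Set.range τ := hS ▸ ⟨_, t', ht', hne⟩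
    obtain ⟨k', rfl⟩ : t' ∈ Set.range τ := hS ▸ crossSet_symm ht' hne
    have hk : k ≠ i' := by
      rintro rfl
      exact h4 ht0.ge
    have hki : k = i := by
      rcases Set.mem_uIcc.1 ht with ⟨b1, b2⟩ | ⟨b1, b2⟩ <;>
        rw [hτ.le_iff_le] at b1 b2 <;> omega
    subst hki
    exact ⟨k', by rw [ht', ← mul_smul, mul_inv_cancel_left]⟩
  refine ⟨?_, fun j => {x | 0 ≤ ε j * sig (M j) (e x)}, gs, ?_, fun g j => ?_,
    fun g j i => hcross g j i _ (Or.inl rfl), fun g j i => hcross g j i _ (Or.inr rfl),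
    fun i => ?_, hgood⟩
  · have hK : IsCompact (Set.range fun r : Fin n => e.symm (axisPt (τ r))) :=
      (Set.finite_range _).isCompact
    refine ((F.pd _ _ hK (e.isCompact_preimage.2 hY)).prod Set.finite_univ).subset ?_
    rintro ⟨g, r⟩ h
    exact ⟨⟨_, ⟨_, ⟨r, rfl⟩, rfl⟩, h⟩, Set.mem_univ _⟩
  · ext x
    simp [hYM]
  · obtain ⟨M', -, -, a3⟩ := hrel g j
    simp only [Set.mem_ofPred_eq, a3]
    exact (half_mono (ε j) M').imp (fun h i i' hi => h _ _ (hτ.monotone hi))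
      fun h i i' hi => h _ _ (hτ.monotone hi)
  · have := F.sig_translate hl hβ (hM none) (by rw [htr]; linarith) (τ i)
    rw [h0, one_smul] at this
    simp only [Set.mem_ofPred_eq, this, mul_zero, le_refl]

lemma Fuchs.core_diag (F : Fuchs G e) (hβ : Acts e β (diag l (by linarith))) {g₁ g₂ g₃ : G}
    {B A' B' : SL(2, ℝ)} (hB : Acts e (g₁ * β * g₁⁻¹) B) (hA' : Acts e (g₂ * β * g₂⁻¹) A')
    (hB' : Acts e (g₃ * β * g₃⁻¹) B') (tB : tr B = tr (diag l (by linarith)))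
    (tA' : tr A' = tr (diag l (by linarith))) (tB' : tr B' = tr (diag l (by linarith))) {s : ℝ}
    (hc : Config s (diag l (by linarith)) B A' B')
    (hne : diag l (by linarith) * B ≠ B * diag l (by linarith))
    (φ₁ : G → ℝ) (hφ₁ : ∀ a b, φ₁ (a * b) = φ₁ a + φ₁ b) (H : Subgroup G) (hβH : β ∈ H)
    (hH : ∀ h ∈ H, φ₁ h = 0) (φ₂ : G → ℝ) (hφ₂ : ∀ a ∈ H, ∀ b ∈ H, φ₂ (a * b) = φ₂ a + φ₂ b)
    (hφ₂β : φ₂ β = 0) (good : G → Prop) (hgood : ∀ g, good g ↔ φ₁ g < 0 ∨ (g ∈ H ∧ φ₂ g < 0))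
    (p₁ : good g₁) (p₂ : good g₂) (p₃ : good g₃) (p₄ : good (β * g₁))
    (p₅ : good (β * (g₁ * β * g₁⁻¹)⁻¹ * g₃)) : False := by
  obtain rfl : good = fun g => φ₁ g < 0 ∨ (g ∈ H ∧ φ₂ g < 0) := funext fun g => propext (hgood g)
  have hL : 0 < 2 * Real.log l := by have := Real.log_pos hl; linarith
  have h2 := two_lt_tr_diag hl
  set D := diag l (by linarith : 0 < l) with hD
  obtain ⟨P, P1, P2, P3, P4⟩ := hc.pt
  obtain ⟨t0, rfl⟩ : ∃ t0, P = axisPt t0 := ⟨_, eq_axisPt_of_sig hl P1⟩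
  have ht0 : t0 ∈ crossSet e β := by
    obtain ⟨t', ht'⟩ := F.on_axis hl hβ hB (by linarith) (x := e.symm (axisPt t0))
      (by rwa [e.apply_symm_apply])
    refine ⟨g₁, t', ht', fun h => hne ?_⟩
    obtain ⟨b1, b2⟩ := (F.diag_iff hl hβ hB tB).2 h
    rcases eq_diag_or hl b1 b2 tB with h | h <;> rw [h]
    rw [← hD]
    group
  obtain ⟨n, τ, hn, hτ, hS, hper⟩ := exists_enum (crossSet e β) _ hL (fun t =>
    ⟨fun h => by simpa using crossSet_shift hl hβ (-1) h,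
      fun h => by simpa using crossSet_shift hl hβ 1 h⟩) (F.crossSet_finite hl hβ) ⟨t0, ht0⟩
  have hv : ∀ i, e.symm (axisPt (τ (i + n))) = β • e.symm (axisPt (τ i)) := by
    intro i
    have := zpow_smul_axis hl hβ 1 (τ i)
    rw [zpow_one] at this
    rw [this, hper]
    simp
  have hβ1 : Acts e (1 * β * 1⁻¹) D := by simpa using hβ
  have hX := F.quad hl hβ (n := n) hτ hS (fun g => φ₁ g < 0 ∨ (g ∈ H ∧ φ₂ g < 0))
    (fun j => Option.casesOn j s ![s, -s, -s]) (fun j => Option.casesOn j D ![B', B, A'])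
    (fun j => Option.casesOn j 1 ![g₃, g₁, g₂])
    (by
      rintro (_ | j)
      · exact hβ1
      · fin_cases j
        exacts [hB', hB, hA'])
    (by
      rintro (_ | j)
      · rfl
      · fin_cases j
        exacts [tB', tB, tA'])
    rfl (fun j => by fin_cases j; exacts [p₃, p₁, p₂]) _ hc.k1
    (fun z => by simp [Option.forall, Fin.forall_fin_succ])
  have hX' := F.quad hl hβ (n := n) hτ hS (fun g => φ₁ g < 0 ∨ (g ∈ H ∧ φ₂ g < 0))
    (fun j => Option.casesOn j (-s) ![-s, s, s])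
    (fun j => Option.casesOn j D ![D * B⁻¹ * B' * (D * B⁻¹)⁻¹, D * B * D⁻¹, A'])
    (fun j => Option.casesOn j 1 ![β * (g₁ * β * g₁⁻¹)⁻¹ * g₃, β * g₁, g₂])
    (by
      rintro (_ | j)
      · exact hβ1
      · fin_cases j
        · have := (hβ.mul hB.inv).conj hB'
          rwa [show β * (g₁ * β * g₁⁻¹)⁻¹ * (g₃ * β * g₃⁻¹) * (β * (g₁ * β * g₁⁻¹)⁻¹)⁻¹ =
            β * (g₁ * β * g₁⁻¹)⁻¹ * g₃ * β * (β * (g₁ * β * g₁⁻¹)⁻¹ * g₃)⁻¹ by group] at this
        · have := hβ.conj hB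
          rwa [show β * (g₁ * β * g₁⁻¹) * β⁻¹ = β * g₁ * β * (β * g₁)⁻¹ by group] at this
        · exact hA')
    (by
      rintro (_ | j)
      · rfl
      · fin_cases j
        exacts [(tr_conj _ _).trans tB', (tr_conj _ _).trans tB, tA'])
    rfl (fun j => by fin_cases j; exacts [p₅, p₄, p₂]) _ hc.k2
    (fun z => by simp [Option.forall, Fin.forall_fin_succ])
  refine two_level F.free (zpow_injective_of_diag hl hβ) hn hv φ₁ hφ₁ H hβH hH φ₂ hφ₂ hφ₂β hX hX'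
    fun i => ?_
  set L := 2 * Real.log l with hLdef
  refine ⟨-⌊(τ i - t0) / L⌋, ?_⟩
  rw [zpow_smul_axis hl hβ]
  simp only [Set.mem_preimage, e.apply_symm_apply, Set.mem_ofPred_eq]
  set t := τ i + ((-⌊(τ i - t0) / L⌋ : ℤ) : ℝ) * L with ht
  have b1 : t0 ≤ t := by
    have := Int.sub_floor_div_mul_nonneg (τ i - t0) hL
    rw [ht]
    push_cast
    linarith
  have b2 : t ≤ t0 + L := by
    have := Int.sub_floor_div_mul_lt (τ i - t0) hL
    rw [ht]
    push_cast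
    linarith
  have hA0 : sig D (axisPt t) = 0 := by simp [hD, sig_diag, axisPt_re]
  have hDP : D • axisPt t0 = axisPt (t0 + L) := diag_smul_axisPt _ _
  have c1 : 0 ≤ -s * sig B (axisPt t) := by
    rcases half_mono (-s) B with h | h
    · exact h _ _ b1 (by rw [P2, mul_zero])
    · exact h _ _ b2 (hDP ▸ P4)
  have c2 : 0 ≤ s * sig (D * B * D⁻¹) (axisPt t) := by
    rcases half_mono s (D * B * D⁻¹) with h | h
    · exact h _ _ b1 P3
    · exact h _ _ b2 (by rw [← hDP, sig_conj, P2, mul_zero])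
  obtain ⟨c3, c4⟩ := hc.onA _ hA0
  rcases le_total 0 (s * sig A' (axisPt t)) with h | h
  · exact Or.inr ⟨by rw [hA0, mul_zero], c4, c2, h⟩
  · exact Or.inl ⟨by rw [hA0, mul_zero], c3, c1, by linarith⟩

end diagonal

/-- Four conjugates `a, b, a', b'` of `β` with `a b⁻¹ = a' b'⁻¹` and crossings of opposite signs. -/
def Cancel (e : X ≃ₜ ℍ) (β k₀ k₁ k₂ k₃ : G) : Prop :=
  ∃ (A B A' B' : SL(2, ℝ)) (s : ℝ), Acts e (k₀ * β * k₀⁻¹) A ∧ Acts e (k₁ * β * k₁⁻¹) B ∧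
    Acts e (k₂ * β * k₂⁻¹) A' ∧ Acts e (k₃ * β * k₃⁻¹) B' ∧ 2 < tr A ∧ tr B = tr A ∧
    tr A' = tr A ∧ tr B' = tr A ∧ A * B⁻¹ = A' * B'⁻¹ ∧ Cross s A B ∧ Cross (-s) A' B'

lemma Cancel.swap₁ {β k₀ k₁ k₂ k₃ : G} (h : Cancel e β k₀ k₁ k₂ k₃) : Cancel e β k₂ k₃ k₀ k₁ := by
  obtain ⟨A, B, A', B', s, h1, h2, h3, h4, t1, t2, t3, t4, h5, h6, h7⟩ := h
  exact ⟨A', B', A, B, -s, h3, h4, h1, h2, by linarith, by linarith, by linarith, by linarith,
    h5.symm, h7, by rwa [neg_neg]⟩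

lemma Cancel.swap₂ {β k₀ k₁ k₂ k₃ : G} (h : Cancel e β k₀ k₁ k₂ k₃) : Cancel e β k₁ k₀ k₃ k₂ := by
  obtain ⟨A, B, A', B', s, h1, h2, h3, h4, t1, t2, t3, t4, h5, h6, h7⟩ := h
  refine ⟨B, A, B', A', -s, h2, h1, h4, h3, by linarith, by linarith, by linarith, by linarith,
    ?_, h6.symm, h7.symm⟩
  have := congrArg (·⁻¹) h5
  simpa using this

lemma add_hom_one {φ : G → ℝ} {H : Subgroup G}
    (hφ : ∀ a ∈ H, ∀ b ∈ H, φ (a * b) = φ a + φ b) : φ 1 = 0 := by
  have := hφ 1 H.one_mem 1 H.one_mem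
  rw [mul_one] at this
  linarith

lemma add_hom_inv {φ : G → ℝ} {H : Subgroup G}
    (hφ : ∀ a ∈ H, ∀ b ∈ H, φ (a * b) = φ a + φ b) {a : G} (ha : a ∈ H) : φ a⁻¹ = -φ a := by
  have := hφ a ha _ (H.inv_mem ha)
  rw [mul_inv_cancel, add_hom_one hφ] at this
  linarith

lemma add_hom_conj {φ : G → ℝ} {H : Subgroup G}
    (hφ : ∀ a ∈ H, ∀ b ∈ H, φ (a * b) = φ a + φ b) {a b : G} (ha : a ∈ H) (hb : b ∈ H) :
    φ (a * b * a⁻¹) = φ b := by
  rw [hφ _ (H.mul_mem ha hb) _ (H.inv_mem ha), hφ a ha b hb, add_hom_inv hφ ha]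
  ring

lemma add_hom_zpow {φ : G → ℝ} {H : Subgroup G}
    (hφ : ∀ a ∈ H, ∀ b ∈ H, φ (a * b) = φ a + φ b) {a : G} (ha : a ∈ H) (h0 : φ a = 0) (j : ℤ) :
    φ (a ^ j) = 0 := by
  induction j using Int.induction_on with
  | zero => simpa using add_hom_one hφ
  | succ j ih => rw [zpow_add_one, hφ _ (H.zpow_mem ha _) _ ha, ih, h0, add_zero]
  | pred j ih =>
    rw [zpow_sub_one, hφ _ (H.zpow_mem ha _) _ (H.inv_mem ha), ih, add_hom_inv hφ ha, h0]
    simp

lemma add_hom_closure {φ : G → ℝ} {S : Set G}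
    (hφ : ∀ a ∈ Subgroup.closure S, ∀ b ∈ Subgroup.closure S, φ (a * b) = φ a + φ b)
    (h0 : ∀ a ∈ S, φ a = 0) : ∀ a ∈ Subgroup.closure S, φ a = 0 := by
  intro a ha
  induction ha using Subgroup.closure_induction with
  | mem x hx => exact h0 x hx
  | one => exact add_hom_one hφ
  | mul x y hx hy h1 h2 => rw [hφ x hx y hy, h1, h2, add_zero]
  | inv x hx h1 => rw [add_hom_inv hφ hx, h1, neg_zero]

lemma closure_le_ker {φ : G → ℝ} (hφ : ∀ a b, φ (a * b) = φ a + φ b) {S : Set G}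
    (h0 : ∀ a ∈ S, φ a = 0) : ∀ a ∈ Subgroup.closure S, φ a = 0 :=
  add_hom_closure (fun a _ b _ => hφ a b) h0

lemma Fuchs.top_gen (F : Fuchs G e) {β k₀ k₁ k₂ k₃ : G} (hc : Cancel e β k₀ k₁ k₂ k₃)
    (φ₁ : G → ℝ) (hφ₁ : ∀ a b, φ₁ (a * b) = φ₁ a + φ₁ b)
    (hex : ∀ (a c g₁ g₂ g₃ : G) (j : ℤ), a = k₀ * β * k₀⁻¹ → g₁ = k₁ * k₀⁻¹ →
      c = a * (g₁ * a * g₁⁻¹)⁻¹ → g₂ = c ^ j * (k₂ * k₀⁻¹) → g₃ = c ^ j * (k₃ * k₀⁻¹) →
      g₁ * a ≠ a * g₁ → g₂ * a ≠ a * g₂ →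
      ∃ (H : Subgroup G) (φ₂ : G → ℝ), a ∈ H ∧ (∀ h ∈ H, φ₁ h = 0) ∧
        (∀ x ∈ H, ∀ y ∈ H, φ₂ (x * y) = φ₂ x + φ₂ y) ∧ φ₂ a = 0 ∧
        ∀ g ∈ ({g₁, g₂, g₃, a * g₁, c * g₃} : Set G), φ₁ g < 0 ∨ (g ∈ H ∧ φ₂ g < 0)) : False := by
  obtain ⟨A, B, A', B', s, h1, h2, h3, h4, t1, t2, t3, t4, h5, h6, h7⟩ := hc
  obtain ⟨j, hj⟩ := exists_config t1 t2 t3 t4 h5 h6 h7
  obtain ⟨a, ha⟩ : ∃ a, a = k₀ * β * k₀⁻¹ := ⟨_, rfl⟩
  obtain ⟨g₁, hg₁⟩ : ∃ g, g = k₁ * k₀⁻¹ := ⟨_, rfl⟩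
  obtain ⟨c, hc⟩ : ∃ c, c = a * (g₁ * a * g₁⁻¹)⁻¹ := ⟨_, rfl⟩
  obtain ⟨g₂, hg₂⟩ : ∃ g, g = c ^ j * (k₂ * k₀⁻¹) := ⟨_, rfl⟩
  obtain ⟨g₃, hg₃⟩ : ∃ g, g = c ^ j * (k₃ * k₀⁻¹) := ⟨_, rfl⟩
  rw [← ha] at h1
  rw [show k₁ * β * k₁⁻¹ = g₁ * a * g₁⁻¹ by rw [ha, hg₁]; group] at h2
  have hC : Acts e c (A * B⁻¹) := hc ▸ h1.mul h2.inv
  have h3' := (hC.zpow j).conj h3
  have h4' := (hC.zpow j).conj h4
  rw [show c ^ j * (k₂ * β * k₂⁻¹) * (c ^ j)⁻¹ = g₂ * a * g₂⁻¹ by rw [ha, hg₂]; group] at h3'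
  rw [show c ^ j * (k₃ * β * k₃⁻¹) * (c ^ j)⁻¹ = g₃ * a * g₃⁻¹ by rw [ha, hg₃]; group] at h4'
  have n1 : g₁ * a ≠ a * g₁ := by
    intro h
    rw [h, mul_inv_cancel_right] at h2
    obtain rfl := h1.eq_of_tr h2 (by linarith) (by linarith)
    exact h6.ne_comm rfl
  have n2 : g₂ * a ≠ a * g₂ := by
    intro h
    rw [h, mul_inv_cancel_right] at h3'
    exact hj.ne (h3'.eq_of_tr h1 (by rw [tr_conj]; linarith) (by linarith))
  obtain ⟨H, φ₂, b1, b2, b3, b4, b5⟩ := hex a c g₁ g₂ g₃ j ha hg₁ hc hg₂ hg₃ n1 n2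
  obtain ⟨K, l, hl, hK⟩ := exists_diag A t1
  have tD : tr (diag l (by linarith)) = tr A := by rw [← hK, tr_conj]
  generalize (A * B⁻¹) ^ j = P at *
  refine (F.rechart K).core_diag hl (hK ▸ h1.rechart K) (h2.rechart K) (h3'.rechart K)
    (h4'.rechart K) (by rw [tr_conj, t2, tD]) (by rw [tr_conj, tr_conj, t3, tD])
    (by rw [tr_conj, tr_conj, t4, tD]) (s := -s) ?_ ?_ φ₁ hφ₁ H b1 b2 φ₂ b3 b4 _ (fun g => Iff.rfl)
    (b5 _ (by simp)) (b5 _ (by simp)) (b5 _ (by simp)) (b5 _ (by simp)) (hc ▸ b5 _ (by simp))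
  · rw [← hK]
    refine Config.of_conj K⁻¹ ?_
    have : ∀ M : SL(2, ℝ), K⁻¹ * (K * M * K⁻¹) * K⁻¹⁻¹ = M := fun M => by group
    simpa only [this] using hj
  · rw [← hK]
    exact (h6.conj K).ne_comm

section top

variable {β k₀ k₁ k₂ k₃ : G} {φ : G → ℝ}

lemma levels (hφ : ∀ a b, φ (a * b) = φ a + φ b) (hβ : φ β = 0) {a c g₁ g₂ g₃ : G} {j : ℤ}
    (ha : a = k₀ * β * k₀⁻¹) (hg₁ : g₁ = k₁ * k₀⁻¹) (hc : c = a * (g₁ * a * g₁⁻¹)⁻¹)
    (hg₂ : g₂ = c ^ j * (k₂ * k₀⁻¹)) (hg₃ : g₃ = c ^ j * (k₃ * k₀⁻¹)) :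
    φ a = 0 ∧ φ g₁ = φ k₁ - φ k₀ ∧ φ g₂ = φ k₂ - φ k₀ ∧ φ g₃ = φ k₃ - φ k₀ ∧
      φ (a * g₁) = φ k₁ - φ k₀ ∧ φ (c * g₃) = φ k₃ - φ k₀ := by
  have hφ' : ∀ a ∈ (⊤ : Subgroup G), ∀ b ∈ (⊤ : Subgroup G), φ (a * b) = φ a + φ b :=
    fun a _ b _ => hφ a b
  have hi : ∀ x, φ x⁻¹ = -φ x := fun x => add_hom_inv hφ' (Subgroup.mem_top x)
  have h1 : φ a = 0 := by simp only [ha, hφ, hi, hβ]; ring
  have h2 : φ c = 0 := by simp only [hc, hφ, hi, h1]; ring
  have h3 : φ (c ^ j) = 0 := add_hom_zpow hφ' (Subgroup.mem_top c) h2 j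
  simp only [hg₁, hg₂, hg₃, hφ, hi, h1, h2, h3]
  refine ⟨trivial, ?_, ?_, ?_, ?_, ?_⟩ <;> ring

lemma Fuchs.top_unique (F : Fuchs G e) (hc : Cancel e β k₀ k₁ k₂ k₃)
    (hφ : ∀ a b, φ (a * b) = φ a + φ b) (hβ : φ β = 0)
    (h1 : φ k₁ < φ k₀) (h2 : φ k₂ < φ k₀) (h3 : φ k₃ < φ k₀) : False := by
  refine F.top_gen hc φ hφ fun a c g₁ g₂ g₃ j ha hg₁ hc hg₂ hg₃ _ _ => ?_
  obtain ⟨l0, l1, l2, l3, l4, l5⟩ := levels hφ hβ ha hg₁ hc hg₂ hg₃
  refine ⟨Subgroup.closure {a}, fun _ => 0, Subgroup.subset_closure rfl,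
    closure_le_ker hφ (by simpa using l0), by simp, rfl, ?_⟩
  rintro g (rfl | rfl | rfl | rfl | rfl) <;> left <;> linarith

lemma exists_neg_hom (hG : HasHoms G) {a g : G} (h : g * a ≠ a * g) : ∃ ψ : G → ℝ,
    (∀ x ∈ Subgroup.closure {a, g}, ∀ y ∈ Subgroup.closure {a, g}, ψ (x * y) = ψ x + ψ y) ∧
      ψ a = 0 ∧ ψ g < 0 := by
  have ha : a ∈ Subgroup.closure {a, g} := Subgroup.subset_closure (by simp)
  have hg : g ∈ Subgroup.closure {a, g} := Subgroup.subset_closure (by simp)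
  obtain ⟨ψ, h1, h2, b, hb, h3⟩ := hG _ ⟨g, hg, a, ha, h⟩ a ha
  have h4 : ψ g ≠ 0 := fun h4 => h3 (add_hom_closure h1 (by simp [h2, h4]) b hb)
  rcases h4.lt_or_gt with h5 | h5
  · exact ⟨ψ, h1, h2, h5⟩
  · exact ⟨fun x => -ψ x, fun x hx y hy => by simp only [h1 x hx y hy]; ring, by simp [h2],
      by simpa using h5⟩

lemma Fuchs.top_AB (F : Fuchs G e) (hG : HasHoms G) (hc : Cancel e β k₀ k₁ k₂ k₃)
    (hφ : ∀ a b, φ (a * b) = φ a + φ b) (hβ : φ β = 0)
    (h1 : φ k₁ = φ k₀) (h2 : φ k₂ < φ k₀) (h3 : φ k₃ < φ k₀) : False := by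
  refine F.top_gen hc φ hφ fun a c g₁ g₂ g₃ j ha hg₁ hc hg₂ hg₃ n1 _ => ?_
  obtain ⟨l0, l1, l2, l3, l4, l5⟩ := levels hφ hβ ha hg₁ hc hg₂ hg₃
  obtain ⟨ψ, p1, p2, p3⟩ := exists_neg_hom hG n1
  have ma : a ∈ Subgroup.closure {a, g₁} := Subgroup.subset_closure (by simp)
  have mg : g₁ ∈ Subgroup.closure {a, g₁} := Subgroup.subset_closure (by simp)
  refine ⟨_, ψ, ma, closure_le_ker hφ (by simp [l0, l1, h1]), p1, p2, ?_⟩
  rintro g (rfl | rfl | rfl | rfl | rfl)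
  · exact Or.inr ⟨mg, p3⟩
  · left; linarith
  · left; linarith
  · exact Or.inr ⟨Subgroup.mul_mem _ ma mg, by rw [p1 _ ma _ mg]; linarith⟩
  · left; linarith

lemma Fuchs.top_AA (F : Fuchs G e) (hG : HasHoms G) (hc : Cancel e β k₀ k₁ k₂ k₃)
    (hφ : ∀ a b, φ (a * b) = φ a + φ b) (hβ : φ β = 0)
    (h1 : φ k₁ < φ k₀) (h2 : φ k₂ = φ k₀) (h3 : φ k₃ < φ k₀) : False := by
  refine F.top_gen hc φ hφ fun a c g₁ g₂ g₃ j ha hg₁ hc hg₂ hg₃ _ n2 => ?_
  obtain ⟨l0, l1, l2, l3, l4, l5⟩ := levels hφ hβ ha hg₁ hc hg₂ hg₃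
  obtain ⟨ψ, p1, p2, p3⟩ := exists_neg_hom hG n2
  have ma : a ∈ Subgroup.closure {a, g₂} := Subgroup.subset_closure (by simp)
  have mg : g₂ ∈ Subgroup.closure {a, g₂} := Subgroup.subset_closure (by simp)
  refine ⟨_, ψ, ma, closure_le_ker hφ (by simp [l0, l2, h2]), p1, p2, ?_⟩
  rintro g (rfl | rfl | rfl | rfl | rfl)
  · left; linarith
  · exact Or.inr ⟨mg, p3⟩
  · left; linarith
  · left; linarith
  · left; linarith

lemma Fuchs.top_opp (F : Fuchs G e) (hc : Cancel e β k₀ k₁ k₂ k₃)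
    (hφ : ∀ a b, φ (a * b) = φ a + φ b) (hβ : φ β = 0)
    (h1 : φ k₁ < φ k₀) (h2 : φ k₂ < φ k₀) (H : Subgroup G) (hH : ∀ h ∈ H, φ h = 0)
    (ψ : G → ℝ) (hψ : ∀ x ∈ H, ∀ y ∈ H, ψ (x * y) = ψ x + ψ y)
    (ma : k₀ * β * k₀⁻¹ ∈ H) (mb : k₁ * β * k₁⁻¹ ∈ H) (mh : k₃ * k₀⁻¹ ∈ H)
    (pa : ψ (k₀ * β * k₀⁻¹) = 0) (pb : ψ (k₁ * β * k₁⁻¹) = 0) (ph : ψ (k₃ * k₀⁻¹) ≠ 0) : False := by
  wlog hneg : ψ (k₃ * k₀⁻¹) < 0 generalizing ψ
  · exact this (fun x => -ψ x) (fun x hx y hy => by simp only [hψ x hx y hy]; ring)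
      (by simp [pa]) (by simp [pb]) (by simpa using ph)
      (by simpa using (ph.lt_or_gt.resolve_left hneg))
  refine F.top_gen hc φ hφ fun a c g₁ g₂ g₃ j ha hg₁ hc hg₂ hg₃ _ _ => ?_
  obtain ⟨l0, l1, l2, l3, l4, l5⟩ := levels hφ hβ ha hg₁ hc hg₂ hg₃
  rw [show k₁ * β * k₁⁻¹ = g₁ * a * g₁⁻¹ by rw [ha, hg₁]; group] at mb pb
  rw [← ha] at ma pa
  have mc : c ∈ H := hc ▸ H.mul_mem ma (H.inv_mem mb)
  have pc : ψ c = 0 := by rw [hc, hψ _ ma _ (H.inv_mem mb), add_hom_inv hψ mb, pa, pb]; simp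
  have m3 : g₃ ∈ H := hg₃ ▸ H.mul_mem (H.zpow_mem mc j) mh
  have p3 : ψ g₃ < 0 := by
    rwa [hg₃, hψ _ (H.zpow_mem mc j) _ mh, add_hom_zpow hψ mc pc, zero_add]
  refine ⟨H, ψ, ma, hH, hψ, pa, ?_⟩
  rintro g (rfl | rfl | rfl | rfl | rfl)
  · left; linarith
  · left; linarith
  · exact Or.inr ⟨m3, p3⟩
  · left; linarith
  · exact Or.inr ⟨H.mul_mem mc m3, by rw [hψ _ mc _ m3]; linarith⟩

lemma four_cases (x0 x1 x2 x3 : ℝ) : (x1 = x0 ∧ x2 = x0 ∧ x3 = x0) ∨
    (x1 < x0 ∧ x2 < x0 ∧ x3 < x0) ∨ (x0 < x1 ∧ x3 < x1 ∧ x2 < x1) ∨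
    (x3 < x2 ∧ x0 < x2 ∧ x1 < x2) ∨ (x2 < x3 ∧ x1 < x3 ∧ x0 < x3) ∨
    (x0 < x1 ∧ x0 < x2 ∧ x0 < x3) ∨ (x1 < x0 ∧ x1 < x3 ∧ x1 < x2) ∨
    (x2 < x3 ∧ x2 < x0 ∧ x2 < x1) ∨ (x3 < x2 ∧ x3 < x1 ∧ x3 < x0) ∨
    (x1 = x0 ∧ x2 < x0 ∧ x3 < x0) ∨ (x1 = x0 ∧ x0 < x2 ∧ x0 < x3) ∨
    (x1 < x0 ∧ x2 = x0 ∧ x3 < x0) ∨ (x0 < x1 ∧ x2 = x0 ∧ x0 < x3) ∨
    (x3 = x0 ∧ x2 = x1 ∧ x1 ≠ x0) := by
  rcases lt_trichotomy x0 x1 with h1 | h1 | h1 <;> rcases lt_trichotomy x0 x2 with h2 | h2 | h2 <;>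
    rcases lt_trichotomy x0 x3 with h3 | h3 | h3 <;> grind (splits := 30)

lemma Fuchs.not_cancel_of_hom (F : Fuchs G e) (hG : HasHoms G) (hc : Cancel e β k₀ k₁ k₂ k₃)
    (hφ : ∀ a b, φ (a * b) = φ a + φ b) (hβ : φ β = 0) :
    φ k₁ = φ k₀ ∧ φ k₂ = φ k₀ ∧ φ k₃ = φ k₀ := by
  have hφ' : ∀ a b, -φ (a * b) = -φ a + -φ b := fun a b => by rw [hφ]; ring
  have hβ' : -φ β = 0 := by simp [hβ]
  by_contra hne
  rcases four_cases (φ k₀) (φ k₁) (φ k₂) (φ k₃) with h | ⟨h1, h2, h3⟩ | ⟨h1, h2, h3⟩ |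
    ⟨h1, h2, h3⟩ | ⟨h1, h2, h3⟩ | ⟨h1, h2, h3⟩ | ⟨h1, h2, h3⟩ | ⟨h1, h2, h3⟩ | ⟨h1, h2, h3⟩ |
    ⟨h1, h2, h3⟩ | ⟨h1, h2, h3⟩ | ⟨h1, h2, h3⟩ | ⟨h1, h2, h3⟩ | ⟨h1, h2, h3⟩
  · exact hne h
  · exact F.top_unique hc hφ hβ h1 h2 h3
  · exact F.top_unique hc.swap₂ hφ hβ h1 h2 h3
  · exact F.top_unique hc.swap₁ hφ hβ h1 h2 h3
  · exact F.top_unique hc.swap₁.swap₂ hφ hβ h1 h2 h3
  · exact F.top_unique (φ := fun x => -φ x) hc hφ' hβ' (by simpa) (by simpa) (by simpa)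
  · exact F.top_unique (φ := fun x => -φ x) hc.swap₂ hφ' hβ' (by simpa) (by simpa) (by simpa)
  · exact F.top_unique (φ := fun x => -φ x) hc.swap₁ hφ' hβ' (by simpa) (by simpa) (by simpa)
  · exact F.top_unique (φ := fun x => -φ x) hc.swap₁.swap₂ hφ' hβ' (by simpa) (by simpa) (by simpa)
  · exact F.top_AB hG hc hφ hβ h1 h2 h3
  · exact F.top_AB (φ := fun x => -φ x) hG hc hφ' hβ' (by simpa) (by simpa) (by simpa)
  · exact F.top_AA hG hc hφ hβ h1 h2 h3
  · exact F.top_AA (φ := fun x => -φ x) hG hc hφ' hβ' (by simpa) (by simpa) (by simpa)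
  · obtain ⟨A, B, A', B', s, a1, a2, a3, a4, t1, t2, t3, t4, a5, a6, a7⟩ := id hc
    have hT : ∀ a ∈ (⊤ : Subgroup G), ∀ b ∈ (⊤ : Subgroup G), φ (a * b) = φ a + φ b :=
      fun a _ b _ => hφ a b
    have hi : ∀ x, φ x⁻¹ = -φ x := fun x => add_hom_inv hT (Subgroup.mem_top x)
    let S : Set G := {k₀ * β * k₀⁻¹, k₁ * β * k₁⁻¹, k₃ * k₀⁻¹, k₂ * k₁⁻¹}
    have ma : k₀ * β * k₀⁻¹ ∈ Subgroup.closure S := Subgroup.subset_closure (by simp [S])
    have mb : k₁ * β * k₁⁻¹ ∈ Subgroup.closure S := Subgroup.subset_closure (by simp [S])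
    have mh : k₃ * k₀⁻¹ ∈ Subgroup.closure S := Subgroup.subset_closure (by simp [S])
    have mh' : k₂ * k₁⁻¹ ∈ Subgroup.closure S := Subgroup.subset_closure (by simp [S])
    have hH : ∀ h ∈ Subgroup.closure S, φ h = 0 := by
      refine closure_le_ker hφ ?_
      rintro g (rfl | rfl | rfl | rfl) <;> simp only [hφ, hi, hβ] <;> linarith
    have hnc : k₀ * β * k₀⁻¹ * (k₁ * β * k₁⁻¹) ≠ k₁ * β * k₁⁻¹ * (k₀ * β * k₀⁻¹) := by
      intro h
      have b1 := a1.mul a2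
      rw [h] at b1
      rcases b1.eq_or (a2.mul a1) with b2 | b2
      · exact a6.ne_comm b2
      · have b3 : A = -(B * A * B⁻¹) := by
          rw [← neg_mul, ← b2, mul_inv_cancel_right]
        have b4 := congrArg tr b3
        rw [tr_neg, tr_conj] at b4
        linarith
    obtain ⟨ψ, p1, pa, b, hb, p3⟩ := hG _ ⟨_, ma, _, mb, hnc⟩ _ ma
    have hrel : k₀ * β * k₀⁻¹ * (k₁ * β * k₁⁻¹)⁻¹ = k₂ * β * k₂⁻¹ * (k₃ * β * k₃⁻¹)⁻¹ :=
      F.eq_of_acts (a1.mul a2.inv) (a5 ▸ a3.mul a4.inv)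
    have pb : ψ (k₁ * β * k₁⁻¹) = 0 := by
      have e1 : k₂ * β * k₂⁻¹ = k₂ * k₁⁻¹ * (k₁ * β * k₁⁻¹) * (k₂ * k₁⁻¹)⁻¹ := by group
      have e2 : k₃ * β * k₃⁻¹ = k₃ * k₀⁻¹ * (k₀ * β * k₀⁻¹) * (k₃ * k₀⁻¹)⁻¹ := by group
      have ma' : k₂ * β * k₂⁻¹ ∈ Subgroup.closure S :=
        e1 ▸ Subgroup.mul_mem _ (Subgroup.mul_mem _ mh' mb) (Subgroup.inv_mem _ mh')
      have mb' : k₃ * β * k₃⁻¹ ∈ Subgroup.closure S :=
        e2 ▸ Subgroup.mul_mem _ (Subgroup.mul_mem _ mh ma) (Subgroup.inv_mem _ mh)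
      have e3 := congrArg ψ hrel
      rw [p1 _ ma _ (Subgroup.inv_mem _ mb), p1 _ ma' _ (Subgroup.inv_mem _ mb'),
        add_hom_inv p1 mb, add_hom_inv p1 mb', e1, e2, add_hom_conj p1 mh' mb,
        add_hom_conj p1 mh ma, pa] at e3
      linarith
    by_cases ph : ψ (k₃ * k₀⁻¹) = 0
    · have ph' : ψ (k₂ * k₁⁻¹) ≠ 0 := fun ph' => p3 (add_hom_closure p1 (by
        rintro g (rfl | rfl | rfl | rfl) <;> assumption) b hb)
      rcases h3.lt_or_gt with h4 | h4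
      · exact F.top_opp (φ := fun x => -φ x) hc.swap₂ hφ' hβ' (by simpa) (by simpa [h1])
          _ (by simpa using hH) ψ p1 mb ma mh' pb pa ph'
      · exact F.top_opp hc.swap₂ hφ hβ h4 (by linarith) _ hH ψ p1 mb ma mh' pb pa ph'
    · rcases h3.lt_or_gt with h4 | h4
      · exact F.top_opp hc hφ hβ h4 (by linarith) _ hH ψ p1 ma mb mh pa pb ph
      · exact F.top_opp (φ := fun x => -φ x) hc hφ' hβ' (by simpa) (by simpa [h2])
          _ (by simpa using hH) ψ p1 ma mb mh pa pb ph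

end top

theorem HasHoms.subgroup (hG : HasHoms G) (H : Subgroup G) : HasHoms H := by
  rintro K ⟨x, hx, y, hy, hxy⟩ a ha
  obtain ⟨φ, h1, h2, b, ⟨b', hb', rfl⟩, h3⟩ := hG (K.map H.subtype)
    ⟨x, ⟨x, hx, rfl⟩, y, ⟨y, hy, rfl⟩, fun h => hxy (Subtype.ext h)⟩ a ⟨a, ha, rfl⟩
  exact ⟨fun g => φ g, fun u hu w hw => h1 _ ⟨u, hu, rfl⟩ _ ⟨w, hw, rfl⟩, h2, b', hb', h3⟩

theorem Fuchs.not_cancel (F : Fuchs G e) (hG : HasHoms G) {β k₁ k₂ k₃ : G} :
    ¬ Cancel e β 1 k₁ k₂ k₃ := by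
  intro hc
  let S : Set G := {β, k₁, k₂, k₃}
  have m0 : β ∈ Subgroup.closure S := Subgroup.subset_closure (by simp [S])
  have m1 : k₁ ∈ Subgroup.closure S := Subgroup.subset_closure (by simp [S])
  have m2 : k₂ ∈ Subgroup.closure S := Subgroup.subset_closure (by simp [S])
  have m3 : k₃ ∈ Subgroup.closure S := Subgroup.subset_closure (by simp [S])
  have hnc : k₁ * β ≠ β * k₁ := by
    obtain ⟨A, B, A', B', s, a1, a2, a3, a4, t1, t2, t3, t4, a5, a6, a7⟩ := hc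
    intro h
    rw [h, mul_inv_cancel_right] at a2
    rw [one_mul, inv_one, mul_one] at a1
    obtain rfl := a1.eq_of_tr a2 (by linarith) (by linarith)
    exact a6.ne_comm rfl
  obtain ⟨φ, p1, p2, b, hb, p3⟩ := hG _ ⟨_, m1, _, m0, hnc⟩ _ m0
  have hc' : Cancel e (⟨β, m0⟩ : Subgroup.closure S) 1 ⟨k₁, m1⟩ ⟨k₂, m2⟩ ⟨k₃, m3⟩ := hc
  obtain ⟨q1, q2, q3⟩ := Fuchs.not_cancel_of_hom (G := Subgroup.closure S) (φ := fun g => φ g)
    (F.subgroup _) (hG.subgroup _) hc'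
    (fun a b => p1 _ a.2 _ b.2) p2
  have h1 : φ 1 = 0 := add_hom_one p1
  refine p3 (add_hom_closure p1 ?_ b hb)
  rintro g (rfl | rfl | rfl | rfl)
  exacts [p2, q1.trans h1, q2.trans h1, q3.trans h1]

end Pool.Agent.MP_46f5ab_gt

end

section

/-! The parabolic case. -/

namespace Pool.Agent.MP_46f5ab_gt

open Set Filter Topology UpperHalfPlane MatrixGroups

variable {G X : Type*} [Group G] [MulAction G X] [TopologicalSpace X] {e : X ≃ₜ ℍ}

/-- The complex coordinate given by a chart. -/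
noncomputable def cd (e : X ≃ₜ ℍ) (x : X) : ℂ := e x

lemma cd_inj : Function.Injective (cd e) := fun _ _ h => e.injective (UpperHalfPlane.ext h)

lemma Fuchs.freePD (F : Fuchs G e) : FreePD G X := ⟨F.free, F.pd⟩

lemma hasDerivAt_mob (K : SL(2, ℝ)) (z : ℍ) :
    HasDerivAt (fun w : ℂ => ((K 0 0 : ℂ) * w + K 0 1) / ((K 1 0 : ℂ) * w + K 1 1))
      (1 / ((K 1 0 : ℂ) * z + K 1 1) ^ 2) z := by
  have h1 := (((hasDerivAt_id (z : ℂ)).const_mul (K 0 0 : ℂ)).add_const (K 0 1 : ℂ)).div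
    (((hasDerivAt_id (z : ℂ)).const_mul (K 1 0 : ℂ)).add_const (K 1 1 : ℂ)) (denom_ne K z)
  refine h1.congr_deriv ?_
  have h2 : (K 0 0 : ℂ) * K 1 1 - K 0 1 * K 1 0 = 1 := by exact_mod_cast det_eq K
  simp only [id]
  congr 1
  linear_combination h2

lemma conf_smul (K : SL(2, ℝ)) : Conf (cd e) fun x => ((K • e x : ℍ) : ℂ) := by
  refine Conf.of_analytic (fun w : ℂ => ((K 0 0 : ℂ) * w + K 0 1) / ((K 1 0 : ℂ) * w + K 1 1))
    (fun x => coe_smul_SL K _) (fun x => ContDiffAt.div (by fun_prop) (by fun_prop) (denom_ne K _))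
    fun x => ?_
  rw [cd, (hasDerivAt_mob K (e x)).deriv]
  exact one_div_ne_zero (pow_ne_zero _ (denom_ne K _))

lemma Fuchs.conf (F : Fuchs G e) (g : G) : Conf (cd e) fun x => cd e (g • x) := by
  obtain ⟨M, hM⟩ := F.mob g
  simpa only [cd, hM _] using conf_smul (e := e) M

lemma Fuchs.main_rechart (F : Fuchs G e) (K : SL(2, ℝ)) {β : G}
    (h : Main (cd (Pool.Agent.MP_46f5ab_gt.rechart e K)) β) : Main (cd e) β := by
  refine Main.transfer (conf_smul K) ?_ F.conf (F.rechart K).conf h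
  have := conf_smul (e := Pool.Agent.MP_46f5ab_gt.rechart e K) K⁻¹
  simp only [rechart_apply, inv_smul_smul] at this
  exact this

lemma continuous_of_cd {c : ℝ → X} (h : Continuous fun u => cd e (c u)) : Continuous c :=
  e.comp_continuous_iff.1 (isEmbedding_coe.continuous_iff.2 h)

/-- The translation matrix. -/
def transl (τ : ℝ) : SL(2, ℝ) := mkSL 1 τ 0 1 (by ring)

lemma coe_transl_smul (τ : ℝ) (z : ℍ) : ((transl τ • z : ℍ) : ℂ) = z + τ := by
  simp [coe_smul_SL, transl]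

lemma transl_zpow (τ : ℝ) (n : ℤ) : transl τ ^ n = transl (n * τ) := by
  have h1 : ∀ a b, transl a * transl b = transl (a + b) := fun a b => by
    refine SL_ext ?_ ?_ ?_ ?_ <;> simp [mul_entry, transl, add_comm]
  induction n using Int.induction_on with
  | zero => refine SL_ext ?_ ?_ ?_ ?_ <;> simp [transl]
  | succ n ih =>
    rw [zpow_add_one, ih, h1]
    congr 1
    push_cast
    ring
  | pred n ih =>
    rw [zpow_sub_one, ih, mul_inv_eq_iff_eq_mul, h1]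
    congr 1
    push_cast
    ring

/-- The point `x + i h`. -/
def horo (h : ℝ) (hh : 0 < h) (x : ℝ) : ℍ := ⟨⟨x, h⟩, hh⟩

lemma coe_horo (h : ℝ) (hh : 0 < h) (x : ℝ) : (horo h hh x : ℂ) = x + h * Complex.I :=
  Complex.mk_eq_add_mul_I x h

lemma continuous_horo (h : ℝ) (hh : 0 < h) : Continuous (horo h hh) := by
  refine isEmbedding_coe.continuous_iff.2 ?_
  have : ((↑) : ℍ → ℂ) ∘ horo h hh = fun x : ℝ => x + h * Complex.I := funext (coe_horo h hh)
  rw [this]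
  fun_prop

lemma horo_inj (h : ℝ) (hh : 0 < h) : Function.Injective (horo h hh) := fun _ _ h1 =>
  congrArg UpperHalfPlane.re h1

lemma transl_horo (τ h : ℝ) (hh : 0 < h) (x : ℝ) : transl τ • horo h hh x = horo h hh (x + τ) := by
  apply UpperHalfPlane.ext
  rw [coe_transl_smul, coe_horo, coe_horo]
  push_cast
  ring

lemma Acts.horo {g : G} {τ : ℝ} (hg : Acts e g (transl τ)) (h : ℝ) (hh : 0 < h) (x : ℝ) :
    g • e.symm (horo h hh x) = e.symm (horo h hh (x + τ)) :=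
  e.injective (by rw [hg, e.apply_symm_apply, e.apply_symm_apply, transl_horo])

lemma conj_transl {M : SL(2, ℝ)} (h : M 1 0 = 0) (τ : ℝ) :
    M * transl τ * M⁻¹ = transl (M 0 0 ^ 2 * τ) := by
  have hd := det_eq M
  rw [h] at hd
  refine SL_ext ?_ ?_ ?_ ?_ <;>
    simp only [mul_entry, inv00, inv01, inv10, inv11, transl, mkSL00, mkSL01, mkSL10, mkSL11, h] <;>
    linarith

lemma Fuchs.sq_eq_one (F : Fuchs G e) {g h : G} {M : SL(2, ℝ)} (hg : Acts e g M) (h10 : M 1 0 = 0)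
    {τ : ℝ} (hh : Acts e h (transl τ)) (hτ : τ ≠ 0) : M 0 0 ^ 2 = 1 := by
  have key : ∀ (g : G) (M : SL(2, ℝ)), Acts e g M → M 1 0 = 0 → 1 ≤ M 0 0 ^ 2 := by
    intro g M hg h10
    by_contra h1
    have h2 : M 0 0 ≠ 0 := fun h => by simpa [h, h10] using det_eq M
    have h3 : 0 < M 0 0 ^ 2 := by positivity
    have h4 : ∀ n : ℕ, ∃ k : G, Acts e k (transl ((M 0 0 ^ 2) ^ n * τ)) := by
      intro n
      induction n with
      | zero => exact ⟨h, by simpa using hh⟩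
      | succ n ih =>
        obtain ⟨k, hk⟩ := ih
        exact ⟨_, by simpa only [conj_transl h10, pow_succ', mul_assoc] using hg.conj hk⟩
    refine infinite_of_injective_forall_mem (f := fun n : ℕ => (M 0 0 ^ 2) ^ n * τ) ?_ ?_
      (F.freePD.finite_shift (e.symm.continuous.comp (continuous_horo 1 one_pos))
        (e.symm.injective.comp (horo_inj 1 one_pos)) |τ|)
    · exact fun m n hmn => pow_right_injective₀ h3 (not_le.1 h1).ne (mul_right_cancel₀ hτ hmn)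
    · intro n
      obtain ⟨k, hk⟩ := h4 n
      refine ⟨?_, k, by simpa using hk.horo 1 one_pos 0⟩
      rw [abs_mul, abs_of_pos (pow_pos h3 n)]
      exact mul_le_of_le_one_left (abs_nonneg _) (pow_le_one₀ h3.le (not_le.1 h1).le)
  have h1 := key g M hg h10
  have h2 := key g⁻¹ M⁻¹ hg.inv (by rw [inv10, h10, neg_zero])
  have hd := det_eq M
  rw [inv00] at h2
  rw [h10, mul_zero, sub_zero] at hd
  have h3 : M 0 0 ^ 2 * M 1 1 ^ 2 = 1 := by rw [← mul_pow, hd, one_pow]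
  nlinarith

variable {β : G} {τ : ℝ}

lemma Fuchs.par_stab (F : Fuchs G e) (hp : IsPrimitiveClass β) (hβ : Acts e β (transl τ))
    (hτ : τ ≠ 0) {g : G} {M : SL(2, ℝ)} (hg : Acts e g M) (h10 : M 1 0 = 0) :
    ∃ n : ℤ, g = β ^ n := by
  have h1 := F.sq_eq_one hg h10 hβ hτ
  have hd := det_eq M
  rw [h10, mul_zero, sub_zero] at hd
  obtain ⟨x, hx⟩ : ∃ x, Acts e g (transl x) := by
    rcases sq_eq_one_iff.1 h1 with h | h
    · refine ⟨M 0 1, ?_⟩
      convert hg using 1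
      rw [h] at hd
      refine SL_ext ?_ ?_ ?_ ?_ <;> simp only [transl, mkSL00, mkSL01, mkSL10, mkSL11] <;> linarith
    · refine ⟨-M 0 1, ?_⟩
      convert hg.neg using 1
      rw [h] at hd
      refine SL_ext ?_ ?_ ?_ ?_ <;>
        simp only [transl, mkSL00, mkSL01, mkSL10, mkSL11, neg_entry] <;> linarith
  exact F.freePD.cyc (e.symm.continuous.comp (continuous_horo 1 one_pos))
    (e.symm.injective.comp (horo_inj 1 one_pos)) hp (hβ.horo 1 one_pos) (hx.horo 1 one_pos)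

lemma Fuchs.par_finite (F : Fuchs G e) (hβ : Acts e β (transl τ)) (hτ : τ ≠ 0) :
    {c : ℝ | c ≠ 0 ∧ c ^ 2 ≤ 1 ∧ ∃ (g : G) (M : SL(2, ℝ)), Acts e g M ∧ M 1 0 = c}.Finite := by
  choose M hM using F.mob
  have hK : IsCompact ((fun x => e.symm (horo 1 one_pos x)) '' Icc (-|τ|) |τ|) :=
    isCompact_Icc.image (e.symm.continuous.comp (continuous_horo 1 one_pos))
  have h1 := F.pd _ _ hK hK
  refine ((h1.image fun g => M g 1 0).union (h1.image fun g => -M g 1 0)).subset ?_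
  rintro _ ⟨h2, h3, g, N, hN, rfl⟩
  have hred : ∀ x : ℝ, ∃ n : ℤ, x + n * τ ∈ Icc (-|τ|) |τ| := fun x => by
    refine ⟨-⌊x / τ⌋, abs_le.1 ?_⟩
    have a1 : x + ((-⌊x / τ⌋ : ℤ) : ℝ) * τ = Int.fract (x / τ) * τ := by
      rw [Int.fract]
      push_cast
      field_simp
      ring
    rw [a1, abs_mul, abs_of_nonneg (Int.fract_nonneg _)]
    exact mul_le_of_le_one_left (abs_nonneg _) (Int.fract_lt_one _).le
  set x := (Real.sqrt (1 - N 1 0 ^ 2) - N 1 1) / N 1 0 with hx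
  have h4 : N • horo 1 one_pos x = horo 1 one_pos (N • horo 1 one_pos x).re := by
    refine ext_re_im rfl ?_
    have a1 : N 1 0 * x + N 1 1 = Real.sqrt (1 - N 1 0 ^ 2) := by
      rw [hx]
      field_simp
      ring
    rw [smul_im, den]
    change 1 / ((N 1 0 * x + N 1 1) ^ 2 + (N 1 0 * 1) ^ 2) = 1
    rw [a1, Real.sq_sqrt (by linarith)]
    simp
  obtain ⟨m, hm⟩ := hred x
  obtain ⟨n, hn⟩ := hred (N • horo 1 one_pos x).re
  have h5 := ((hβ.zpow n).mul hN).mul (hβ.zpow (-m))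
  rw [transl_zpow, transl_zpow] at h5
  have h6 : (β ^ n * g * β ^ (-m)) • e.symm (horo 1 one_pos (x + m * τ)) =
      e.symm (horo 1 one_pos ((N • horo 1 one_pos x).re + n * τ)) := by
    apply e.injective
    rw [h5, e.apply_symm_apply, e.apply_symm_apply, mul_smul, mul_smul, transl_horo, ← transl_horo (n * τ),
      ← h4]
    simp
  have h7 : (transl (n * τ) * N * transl ((-m : ℤ) * τ)) 1 0 = N 1 0 := by
    simp [mul_entry, transl]
  rcases h5.eq_or (hM _) with h | h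
  · exact Or.inl ⟨_, ⟨_, ⟨_, ⟨_, hm, rfl⟩, h6⟩, _, hn, rfl⟩, by rw [← h7, h]⟩
  · exact Or.inr ⟨_, ⟨_, ⟨_, ⟨_, hm, rfl⟩, h6⟩, _, hn, rfl⟩, by rw [← h7, h, neg_entry]⟩

theorem Fuchs.main_par (F : Fuchs G e) (hp : IsPrimitiveClass β) (hβ : Acts e β (transl τ))
    (hτ : τ ≠ 0) : Main (cd e) β := by
  have hτ' : (τ : ℂ) ≠ 0 := by exact_mod_cast hτ
  have hIw : Complex.I / τ ≠ 0 := div_ne_zero Complex.I_ne_zero hτ'
  let co : X → ℂ := fun x => Complex.I / τ * cd e x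
  have c1 : Conf (cd e) co := conf_affine hIw (b := 0) fun z => (add_zero _).symm
  have c2 : Conf co (cd e) := conf_affine (inv_ne_zero hIw) (b := 0) fun z => by
    simp only [co, add_zero, inv_mul_cancel_left₀ hIw]
  have hG' := c1.act c2 F.conf
  refine Main.transfer c1 c2 F.conf hG' ?_
  have hi : Function.Injective co := (mul_right_injective₀ hIw).comp cd_inj
  have hsh : ∀ z, co (β • z) = co z + Complex.I := fun z => by
    simp only [co, cd, hβ _, coe_transl_smul, mul_add, div_mul_cancel₀ _ hτ']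
  have hord := zpow_inj_of_shift hsh (e.symm I)
  have hcont : ∀ {b : G} {c : ℝ → X}, IsLiftedLoop co b c → Continuous c := fun h =>
    continuous_of_cd (c2.lifted h).smooth.continuous
  have hre : ∀ x, (co x).re = -(e x).im / τ := fun x => by
    simp [co, cd, div_eq_mul_inv, ← Complex.ofReal_inv, mul_comm]
  have him : ∀ x, (co x).im = (e x).re / τ := fun x => by
    simp [co, cd, div_eq_mul_inv, ← Complex.ofReal_inv, mul_comm]
  have hsum : ∀ c d, IsLiftedLoop co β c → IsLiftedLoop co β⁻¹ d → ∀ g,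
      (∀ p ∈ fib β c d g, crossDet co c d p ≠ 0) → FibSum co β c d g 0 := by
    intro c d hc hd g ht
    by_cases hg : ∃ n : ℤ, g = β ^ n
    · obtain ⟨n, rfl⟩ := hg
      exact fibSum_par hi hG' hc hd (fun x => span_of_shift hsh hc _) one_pos (τ := Complex.I)
        (by simpa using hsh) hord (Commute.self_zpow β n) ht
    obtain ⟨M, hM⟩ := F.mob g
    have h10 : M 1 0 ≠ 0 := fun h => hg (F.par_stab hp hβ hτ hM h)
    obtain ⟨C, hC⟩ := periodic_bound (f := fun t => ((e (c t)).im)⁻¹)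
      ((continuous_im.comp (e.continuous.comp (hcont hc))).inv₀ fun t => im_ne_zero _) fun t => by
        rw [hc.closes, hβ, ← coe_im, coe_transl_smul]
        simp
    have hβ' := hβ.zpow (-1)
    rw [zpow_neg_one, transl_zpow] at hβ'
    obtain ⟨H, hH⟩ := periodic_bound (f := fun t => (e (d t)).im)
      (continuous_im.comp (e.continuous.comp (hcont hd))) fun t => by
        rw [hd.closes, hβ', ← coe_im, coe_transl_smul]
        simp
    obtain ⟨d1, d2⟩ := drift (f := fun t => (M 1 0 * (e (d t)).re + M 1 1) / (-(M 1 0 * τ)))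
      (((continuous_re.comp (e.continuous.comp (hcont hd))).const_mul _).add_const _ |>.div_const _)
      one_pos fun t => by
        rw [hd.closes, hβ', ← coe_re, coe_transl_smul]
        simp
        field_simp
        ring
    obtain ⟨ε, hε⟩ : ∃ ε, ∀ x, (∀ t, (e x).im < (e (c t)).im) → Side (fun u => co (c u)) (co x) ε := by
      rcases hτ.lt_or_gt with h | h
      · refine ⟨0, fun x hx => Or.inl ⟨rfl, fun t => Or.inl ?_⟩⟩
        rw [Complex.sub_re, hre, hre, ← sub_div]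
        exact div_pos_of_neg_of_neg (by linarith [hx t]) h
      · refine ⟨1, fun x hx => Or.inr ⟨rfl, fun t => Or.inl ?_⟩⟩
        rw [Complex.sub_re, hre, hre, ← sub_div]
        exact div_pos (by linarith [hx t]) h
    have hside : ∀ s, H * C / (M 1 0 * τ) ^ 2 + 1 <
        |(M 1 0 * (e (d s)).re + M 1 1) / (-(M 1 0 * τ))| →
        Side (fun u => co (c u)) (co (g • d s)) ε := by
      intro s hs
      refine hε _ fun t => ?_
      have a0 : 0 < (M 1 0 * τ) ^ 2 := by positivity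
      have a1 := (e (c t)).im_pos
      have a2 := (e (d s)).im_pos
      have a3 := (le_abs_self _).trans (hC t)
      have a4 := (le_abs_self _).trans (hH s)
      have a5 : 0 < C := (inv_pos.2 a1).trans_le a3
      have a6 : 0 ≤ H * C / (M 1 0 * τ) ^ 2 := by
        have : 0 < H := a2.trans_le a4
        positivity
      set u := (M 1 0 * (e (d s)).re + M 1 1) / (-(M 1 0 * τ)) with hu
      have a7 : H * C / (M 1 0 * τ) ^ 2 < u ^ 2 := by
        rw [← sq_abs u]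
        nlinarith
      rw [div_lt_iff₀ a0, hu, div_pow, neg_sq, div_mul_cancel₀ _ a0.ne'] at a7
      rw [hM, smul_im, div_lt_iff₀ (den_pos _ _), den]
      rw [inv_le_iff_one_le_mul₀ a1] at a3
      nlinarith [sq_nonneg (M 1 0 * (e (d s)).im), mul_pos a1 (sub_pos.2 a7),
        mul_nonneg (a2.le.trans a4) (sub_nonneg.2 a3), mul_nonneg a1.le (sq_nonneg (M 1 0 * (e (d s)).im))]
    have := fibSum_open hi hG' hc hd (g := g) (fun x => span_of_shift hsh hc _) (ε := ε) (ε' := ε)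
      (fun m n h => ?_) (((tendsto_abs_atBot_atTop.comp d2).eventually (eventually_gt_atTop _)).mono hside)
      (((tendsto_abs_atTop_atTop.comp d1).eventually (eventually_gt_atTop _)).mono hside) ht
    · rwa [sub_self] at this
    have b1 : g * β ^ n * g⁻¹ = β ^ (-m) := by
      calc _ = β ^ (-m) * (β ^ m * g * β ^ n) * g⁻¹ := by group
        _ = _ := by rw [h]; group
    have b2 := hM.conj (hβ.zpow n)
    rw [b1] at b2
    have b3 : (M * transl τ ^ n * M⁻¹) 1 0 = 0 := by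
      rcases b2.eq_or (hβ.zpow (-m)) with h | h <;> rw [h, transl_zpow] <;> simp [transl]
    rw [transl_zpow] at b3
    simp only [mul_entry, inv00, inv10, transl, mkSL00, mkSL01, mkSL10, mkSL11] at b3
    have b4 : (n : ℝ) * (τ * M 1 0 ^ 2) = 0 := by linear_combination -b3
    have b5 : n = 0 := by
      exact_mod_cast (mul_eq_zero.1 b4).resolve_right (mul_ne_zero hτ (pow_ne_zero _ h10))
    rw [b5, zpow_zero, mul_one, mul_eq_right] at h
    exact ⟨hord (h.trans (zpow_zero β).symm), b5⟩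
  let ln : ∀ h : ℝ, 0 < h → ℝ → X := fun h hh t => e.symm (horo h hh (t * τ))
  have hln : ∀ h hh, IsLiftedLoop co β (ln h hh) := fun h hh => by
    have a1 : (fun u => cd e (ln h hh u)) = fun u : ℝ => u * τ + h * Complex.I := funext fun u => by
      simp [cd, ln, coe_horo]
    refine c1.lifted ⟨?_, fun t => ?_, fun t => ?_⟩
    · rw [a1]
      have : ContDiff ℝ 1 fun t : ℝ => (t : ℂ) := Complex.ofRealCLM.contDiff
      exact (this.mul contDiff_const).add contDiff_const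
    · have := ((Complex.ofRealCLM.hasDerivAt (x := t)).mul_const τ).add_const (h * Complex.I)
      rw [velocity, a1]
      exact this.deriv ▸ by simpa using hτ
    · simp only [ln, hβ.horo, add_one_mul]
  obtain ⟨h, hh1, hh⟩ := ((eventually_gt_atTop 1).and ((F.par_finite hβ hτ).eventually_all.2
    fun c _ => eventually_gt_atTop (c ^ 2)⁻¹)).exists
  have hh0 : 0 < h := by linarith
  have key : ∀ h' hh', h ≤ h' → ∀ s t (g : G), ln h hh0 s = g • ln h' hh' t →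
      ∃ n : ℤ, g = β ^ n ∧ h = h' ∧ s = t + n := by
    intro h' hh' a1 s t g a2
    obtain ⟨M, hM⟩ := F.mob g
    have h10 : M 1 0 = 0 := by
      by_contra a3
      have a4 := congrArg (fun x => (e x).im) a2
      simp only [ln, hM _, e.apply_symm_apply, smul_im] at a4
      rw [eq_div_iff (den_pos _ _).ne', den] at a4
      change h * ((M 1 0 * (t * τ) + M 1 1) ^ 2 + (M 1 0 * h') ^ 2) = h' at a4
      have a5 : h * (M 1 0 ^ 2 * h') ≤ 1 := le_of_mul_le_mul_right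
        (by nlinarith [mul_nonneg hh0.le (sq_nonneg (M 1 0 * (t * τ) + M 1 1))]) hh'
      have a6 : 0 < M 1 0 ^ 2 := by positivity
      have a7 : M 1 0 ^ 2 * 1 ≤ M 1 0 ^ 2 * h' := by
        gcongr
        linarith
      have a8 := hh _ ⟨a3, by nlinarith, g, M, hM, rfl⟩
      rw [inv_lt_iff_one_lt_mul₀ a6] at a8
      nlinarith
    obtain ⟨n, rfl⟩ := F.par_stab hp hβ hτ hM h10
    rw [← closes_zpow (hln h' hh').closes] at a2
    have a3 := e.symm.injective a2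
    exact ⟨n, rfl, congrArg UpperHalfPlane.im a3, mul_right_cancel₀ hτ (congrArg UpperHalfPlane.re a3)⟩
  have hsimple : ∀ p ∈ meetings G (ln h hh0) (ln h hh0), p.1 = p.2.1 := by
    rintro ⟨s, t, g⟩ ⟨h1, h2, h3⟩
    obtain ⟨n, -, -, a1⟩ := key h hh0 le_rfl _ _ _ h3
    simp only at h1 h2 a1 ⊢
    rw [a1, eq_of_int_shift h1 h2 a1, Int.cast_zero, add_zero]
  refine main_of_link (fun _ => 0) F.free
    (fun c d hc hd => F.freePD.finite_meet (hcont hc) (hcont hd)) hsum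
    rfl (fun g h => absurd rfl h) (fun _ _ _ _ _ => rfl)
    ⟨ln h hh0, _, hln h hh0, (hln (h + 1) (by linarith)).reverse, fun p hp => ?_⟩
    ⟨ln h hh0, generic_of_simple (hln h hh0) hsimple, fun p h1 h2 => absurd (hsimple p h1) h2,
      fun p h1 _ _ h2 => absurd (hsimple p h1) h2⟩
  obtain ⟨n, -, a1, -⟩ := key (h + 1) (by linarith) (by linarith) _ _ _ hp.2.2
  linarith

end Pool.Agent.MP_46f5ab_gt

end
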