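import Mathlib

section

/-! Elementary facts on `SL(2, ℝ)` acting on the upper half plane. -/

namespace Pool.Agent.MP_46f5ab_gt

open UpperHalfPlane MatrixGroups

/-- The trace. -/
def tr (M : SL(2, ℝ)) : ℝ := M 0 0 + M 1 1

lemma det_eq (M : SL(2, ℝ)) : M 0 0 * M 1 1 - M 0 1 * M 1 0 = 1 := by
  have := M.det_coe
  rwa [Matrix.det_fin_two] at this

/-- The matrix with the given entries. -/
def mkSL (a b c d : ℝ) (h : a * d - b * c = 1) : SL(2, ℝ) :=
  ⟨!![a, b; c, d], by rw [Matrix.det_fin_two_of]; exact h⟩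

@[simp] lemma mkSL00 (a b c d : ℝ) (h) : mkSL a b c d h 0 0 = a := rfl
@[simp] lemma mkSL01 (a b c d : ℝ) (h) : mkSL a b c d h 0 1 = b := rfl
@[simp] lemma mkSL10 (a b c d : ℝ) (h) : mkSL a b c d h 1 0 = c := rfl
@[simp] lemma mkSL11 (a b c d : ℝ) (h) : mkSL a b c d h 1 1 = d := rfl

lemma SL_ext {M N : SL(2, ℝ)} (h00 : M 0 0 = N 0 0) (h01 : M 0 1 = N 0 1) (h10 : M 1 0 = N 1 0)
    (h11 : M 1 1 = N 1 1) : M = N := by
  ext i j
  fin_cases i <;> fin_cases j <;> assumption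

lemma mul_entry (M N : SL(2, ℝ)) (i j : Fin 2) :
    (M * N) i j = M i 0 * N 0 j + M i 1 * N 1 j := by
  simp [Matrix.mul_apply, Fin.sum_univ_two]

lemma inv00 (M : SL(2, ℝ)) : M⁻¹ 0 0 = M 1 1 := by
  simp [Matrix.SpecialLinearGroup.coe_inv, Matrix.adjugate_fin_two]
lemma inv01 (M : SL(2, ℝ)) : M⁻¹ 0 1 = -M 0 1 := by
  simp [Matrix.SpecialLinearGroup.coe_inv, Matrix.adjugate_fin_two]
lemma inv10 (M : SL(2, ℝ)) : M⁻¹ 1 0 = -M 1 0 := by
  simp [Matrix.SpecialLinearGroup.coe_inv, Matrix.adjugate_fin_two]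
lemma inv11 (M : SL(2, ℝ)) : M⁻¹ 1 1 = M 0 0 := by
  simp [Matrix.SpecialLinearGroup.coe_inv, Matrix.adjugate_fin_two]

lemma neg_entry (M : SL(2, ℝ)) (i j : Fin 2) : (-M) i j = -M i j := by simp

lemma one00 : (1 : SL(2, ℝ)) 0 0 = 1 := by simp
lemma one01 : (1 : SL(2, ℝ)) 0 1 = 0 := by simp
lemma one10 : (1 : SL(2, ℝ)) 1 0 = 0 := by simp
lemma one11 : (1 : SL(2, ℝ)) 1 1 = 1 := by simp

lemma tr_conj (K M : SL(2, ℝ)) : tr (K * M * K⁻¹) = tr M := by
  simp only [tr, mul_entry, inv00, inv01, inv10, inv11]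
  linear_combination (M 0 0 + M 1 1) * det_eq K

lemma tr_inv (M : SL(2, ℝ)) : tr M⁻¹ = tr M := by
  simp only [tr, inv00, inv11, add_comm]

lemma tr_neg (M : SL(2, ℝ)) : tr (-M) = -tr M := by
  simp only [tr, neg_entry]
  ring

lemma coe_smul_SL (M : SL(2, ℝ)) (z : ℍ) :
    ((M • z : ℍ) : ℂ) = ((M 0 0 : ℂ) * z + M 0 1) / ((M 1 0 : ℂ) * z + M 1 1) :=
  coe_specialLinearGroup_apply M z

lemma neg_smul_SL (M : SL(2, ℝ)) (z : ℍ) : (-M) • z = M • z := by
  apply UpperHalfPlane.ext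
  rw [coe_smul_SL, coe_smul_SL]
  simp only [neg_entry]
  push_cast
  rw [← neg_div_neg_eq]
  congr 1 <;> ring

/-- The squared modulus of the denominator. -/
def den (M : SL(2, ℝ)) (z : ℍ) : ℝ := (M 1 0 * z.re + M 1 1) ^ 2 + (M 1 0 * z.im) ^ 2

lemma denom_ne (M : SL(2, ℝ)) (z : ℍ) : (M 1 0 : ℂ) * z + M 1 1 ≠ 0 := by
  intro h
  have h1 := congrArg Complex.re h
  have h2 := congrArg Complex.im h
  simp at h1 h2
  have h3 : M 1 0 = 0 := h2.resolve_right z.im_ne_zero
  have h4 := det_eq M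
  rw [h3] at h1 h4
  simp at h1
  simp [h1] at h4

lemma den_eq (M : SL(2, ℝ)) (z : ℍ) : den M z = Complex.normSq ((M 1 0 : ℂ) * z + M 1 1) := by
  simp [den, Complex.normSq_apply]
  ring

lemma den_pos (M : SL(2, ℝ)) (z : ℍ) : 0 < den M z := by
  rw [den_eq]
  exact Complex.normSq_pos.2 (denom_ne M z)

lemma smul_re (M : SL(2, ℝ)) (z : ℍ) : (M • z).re =
    ((M 0 0 * z.re + M 0 1) * (M 1 0 * z.re + M 1 1) + M 0 0 * M 1 0 * z.im ^ 2) / den M z := by
  rw [← coe_re, coe_smul_SL, Complex.div_re, ← den_eq]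
  simp
  ring

lemma smul_im (M : SL(2, ℝ)) (z : ℍ) : (M • z).im = z.im / den M z := by
  rw [← coe_im, coe_smul_SL, Complex.div_im, ← den_eq]
  have := (den_pos M z).ne'
  simp
  field_simp
  linear_combination det_eq M

/-- The squared modulus. -/
def nsq (z : ℍ) : ℝ := z.re ^ 2 + z.im ^ 2

lemma nsq_eq (z : ℍ) : nsq z = Complex.normSq (z : ℂ) := by
  simp [nsq, Complex.normSq_apply]
  ring

lemma nsq_pos (z : ℍ) : 0 < nsq z := by
  have := z.im_pos
  unfold nsq
  positivity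

lemma smul_nsq (M : SL(2, ℝ)) (z : ℍ) : nsq (M • z) =
    ((M 0 0 * z.re + M 0 1) ^ 2 + (M 0 0 * z.im) ^ 2) / den M z := by
  rw [nsq_eq, coe_smul_SL, map_div₀, ← den_eq]
  simp [Complex.normSq_apply]
  ring

/-- A multiple of the hyperbolic sine of the signed distance to the axis of `M`. -/
noncomputable def sig (M : SL(2, ℝ)) (z : ℍ) : ℝ :=
  (M 0 1 + (M 0 0 - M 1 1) * z.re - M 1 0 * nsq z) / z.im

lemma sig_conj (K M : SL(2, ℝ)) (z : ℍ) : sig (K * M * K⁻¹) (K • z) = sig M z := by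
  have h1 := (den_pos K z).ne'
  have h2 := z.im_ne_zero
  have h3 := det_eq K
  unfold sig
  rw [smul_re, smul_im, smul_nsq]
  simp only [mul_entry, inv00, inv01, inv10, inv11]
  field_simp
  have h4 : (K 0 0 * K 1 1 - K 0 1 * K 1 0) ^ 2 = 1 := by rw [h3]; norm_num
  unfold den nsq
  linear_combination (M 0 1 + (M 0 0 - M 1 1) * z.re - M 1 0 * (z.re ^ 2 + z.im ^ 2)) * h4

lemma sig_inv (M : SL(2, ℝ)) (z : ℍ) : sig M⁻¹ z = -sig M z := by
  unfold sig
  rw [inv00, inv01, inv10, inv11]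
  ring

lemma continuous_sig (M : SL(2, ℝ)) : Continuous (sig M) := by
  unfold sig nsq
  exact Continuous.div (by fun_prop) continuous_im fun z => z.im_ne_zero

lemma eq_or_eq_neg_of_smul_eq {M N : SL(2, ℝ)} (h : ∀ z : ℍ, M • z = N • z) : M = N ∨ M = -N := by
  have key : ∀ P : SL(2, ℝ), (∀ z : ℍ, P • z = z) → P = 1 ∨ P = -1 := by
    intro P hP
    have hq : ∀ z : ℍ, (P 0 0 : ℂ) * z + P 0 1 = z * ((P 1 0 : ℂ) * z + P 1 1) := by
      intro z
      have := coe_smul_SL P z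
      rw [hP, eq_div_iff (denom_ne P z)] at this
      exact this.symm
    have h1 := hq ⟨Complex.I, by simp⟩
    have h2 := hq ⟨2 * Complex.I, by simp⟩
    have a1 := congrArg Complex.re h1
    have a2 := congrArg Complex.im h1
    have a3 := congrArg Complex.re h2
    simp at a1 a2 a3
    have b1 : P 1 0 = 0 := by linarith
    have b2 : P 0 1 = 0 := by linarith
    have b3 := det_eq P
    rw [b1, b2, ← a2] at b3
    have b4 : (P 0 0 - 1) * (P 0 0 + 1) = 0 := by linarith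
    rcases mul_eq_zero.1 b4 with b5 | b5
    · left
      refine SL_ext ?_ ?_ ?_ ?_ <;> simp only [one00, one01, one10, one11] <;> linarith
    · right
      refine SL_ext ?_ ?_ ?_ ?_ <;> simp only [neg_entry, one00, one01, one10, one11] <;> linarith
  rcases key (N⁻¹ * M) (fun z => by rw [mul_smul, h, inv_smul_smul]) with h1 | h1
  · exact Or.inl (inv_mul_eq_one.1 h1).symm
  · right
    rw [inv_mul_eq_iff_eq_mul] at h1
    rw [h1]
    simp

lemma exists_fixed_of_elliptic (M : SL(2, ℝ)) (h : |tr M| < 2) : ∃ z : ℍ, M • z = z := by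
  have hd := det_eq M
  have ht : tr M ^ 2 < 4 := by
    have := sq_lt_sq' (abs_lt.1 h).1 (abs_lt.1 h).2
    linarith
  unfold tr at ht
  have hc : M 1 0 ≠ 0 := by
    intro hc
    rw [hc] at hd
    nlinarith [sq_nonneg (M 0 0 - M 1 1)]
  set r := Real.sqrt (4 - (M 0 0 + M 1 1) ^ 2) with hr
  have hr0 : 0 < r := Real.sqrt_pos.2 (by linarith)
  have hr2 : r ^ 2 = 4 - (M 0 0 + M 1 1) ^ 2 := Real.sq_sqrt (by linarith)
  have habs : 0 < |M 1 0| := abs_pos.2 hc
  refine ⟨⟨⟨(M 0 0 - M 1 1) / (2 * M 1 0), r / (2 * |M 1 0|)⟩, by positivity⟩, ?_⟩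
  apply UpperHalfPlane.ext
  rw [coe_smul_SL, div_eq_iff (denom_ne _ _)]
  have hsq : |M 1 0| ^ 2 = M 1 0 ^ 2 := sq_abs _
  apply Complex.ext
  · simp
    field_simp
    rw [hsq, hr2]
    linear_combination (-4 * M 1 0 ^ 2) * hd
  · simp
    field_simp
    ring

/-- The diagonal matrix with entries `l`, `l⁻¹`. -/
noncomputable def diag (l : ℝ) (hl : 0 < l) : SL(2, ℝ) := mkSL l 0 0 l⁻¹ (by field_simp; ring)

lemma exists_vec (M : SL(2, ℝ)) (h : M 1 0 ≠ 0 ∨ M 0 1 ≠ 0 ∨ M 0 0 ≠ M 1 1) :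
    ∃ w1 w2 : ℝ, M 1 0 * w1 ^ 2 + (M 1 1 - M 0 0) * w1 * w2 - M 0 1 * w2 ^ 2 ≠ 0 := by
  by_cases hc : M 1 0 = 0
  · by_cases hb : M 0 1 = 0
    · refine ⟨1, 1, ?_⟩
      have : M 0 0 ≠ M 1 1 := by tauto
      simpa [hc, hb, sub_eq_zero] using this.symm
    · exact ⟨0, 1, by simpa using hb⟩
  · exact ⟨1, 0, by simpa using hc⟩

lemma exists_diag (M : SL(2, ℝ)) (h : 2 < tr M) :
    ∃ (K : SL(2, ℝ)) (l : ℝ) (hl : 1 < l), K * M * K⁻¹ = diag l (by linarith) := by
  have hd := det_eq M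
  unfold tr at h
  set r := Real.sqrt ((M 0 0 + M 1 1) ^ 2 - 4) with hr
  have hr0 : 0 < r := Real.sqrt_pos.2 (by nlinarith)
  have hr2 : r ^ 2 = (M 0 0 + M 1 1) ^ 2 - 4 := Real.sq_sqrt (by nlinarith)
  obtain ⟨l, hl⟩ : ∃ l, l = (M 0 0 + M 1 1 + r) / 2 := ⟨_, rfl⟩
  obtain ⟨m, hm⟩ : ∃ m, m = (M 0 0 + M 1 1 - r) / 2 := ⟨_, rfl⟩
  have hl1 : 1 < l := by linarith
  have hlm : l * m = 1 := by rw [hl, hm]; linear_combination (-1 / 4) * hr2
  have hsum : l + m = M 0 0 + M 1 1 := by rw [hl, hm]; ring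
  have hdiff : l - m ≠ 0 := by rw [hl, hm]; linarith
  have hm' : l⁻¹ = m := inv_eq_of_mul_eq_one_right hlm
  obtain ⟨w1, w2, hw⟩ := exists_vec M (by
    by_contra hcon
    push Not at hcon
    obtain ⟨h1, h2, h3⟩ := hcon
    rw [h1, h2, h3] at hd
    rw [h3] at h
    nlinarith)
  obtain ⟨Q, hQ⟩ : ∃ Q, Q = M 1 0 * w1 ^ 2 + (M 1 1 - M 0 0) * w1 * w2 - M 0 1 * w2 ^ 2 := ⟨_, rfl⟩
  rw [← hQ] at hw
  let J : SL(2, ℝ) := mkSL (((M 0 0 - m) * w1 + M 0 1 * w2) / ((l - m) * Q))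
    ((M 0 0 - l) * w1 + M 0 1 * w2) ((M 1 0 * w1 + (M 1 1 - m) * w2) / ((l - m) * Q))
    (M 1 0 * w1 + (M 1 1 - l) * w2) (by
      field_simp
      rw [hQ]
      ring)
  refine ⟨J⁻¹, l, hl1, ?_⟩
  rw [inv_inv, mul_assoc, inv_mul_eq_iff_eq_mul]
  have hd' : M 1 1 = l + m - M 0 0 := by linarith
  refine SL_ext ?_ ?_ ?_ ?_ <;>
    simp only [mul_entry, J, diag, mkSL00, mkSL01, mkSL10, mkSL11, hm']
  · field_simp
    linear_combination (-w1) * hd + w1 * hlm - (M 0 0 * w1 + M 0 1 * w2) * hsum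
  · linear_combination (-w1) * hd + w1 * hlm - (M 0 0 * w1 + M 0 1 * w2) * hsum
  · field_simp
    linear_combination (-w2) * hd + w2 * hlm - (M 1 0 * w1 + M 1 1 * w2) * hsum
  · linear_combination (-w2) * hd + w2 * hlm - (M 1 0 * w1 + M 1 1 * w2) * hsum

lemma exists_parab (M : SL(2, ℝ)) (h : tr M = 2) (h1 : M ≠ 1) :
    ∃ (K : SL(2, ℝ)) (τ : ℝ), τ ≠ 0 ∧ K * M * K⁻¹ = mkSL 1 τ 0 1 (by ring) := by
  have hd := det_eq M
  unfold tr at h
  obtain ⟨w1, w2, hw⟩ := exists_vec M (by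
    by_contra hcon
    push Not at hcon
    obtain ⟨a1, a2, a3⟩ := hcon
    refine h1 (SL_ext ?_ ?_ ?_ ?_) <;> simp only [one00, one01, one10, one11] <;> linarith)
  obtain ⟨Q, hQ⟩ : ∃ Q, Q = M 1 0 * w1 ^ 2 + (M 1 1 - M 0 0) * w1 * w2 - M 0 1 * w2 ^ 2 := ⟨_, rfl⟩
  rw [← hQ] at hw
  let J : SL(2, ℝ) := mkSL (((M 0 0 - 1) * w1 + M 0 1 * w2) / (-Q)) w1
    ((M 1 0 * w1 + (M 1 1 - 1) * w2) / (-Q)) w2 (by
      field_simp
      rw [hQ]
      ring)
  refine ⟨J⁻¹, -Q, neg_ne_zero.2 hw, ?_⟩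
  rw [inv_inv, mul_assoc, inv_mul_eq_iff_eq_mul]
  refine SL_ext ?_ ?_ ?_ ?_ <;>
    simp only [mul_entry, J, mkSL00, mkSL01, mkSL10, mkSL11]
  · field_simp
    linear_combination w1 * hd - (M 0 0 * w1 + M 0 1 * w2) * h
  · field_simp
    ring
  · field_simp
    linear_combination w2 * hd - (M 1 0 * w1 + M 1 1 * w2) * h
  · field_simp
    ring

end Pool.Agent.MP_46f5ab_gt

end

section

/-! A convex piecewise linear function that is bounded below has a stationary point. -/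

namespace Pool.Agent.MP_46f5ab_gt

open Filter Topology

/-- `|x|` for the sign `0`, and `± x` for the signs `±`. -/
noncomputable def cost (τ : SignType) (x : ℝ) : ℝ := if τ = 0 then |x| else (τ : ℝ) * x

/-- The sign that governs the one-sided derivative of `cost τ` at `x`. -/
noncomputable def dsign (τ : SignType) (x : ℝ) : SignType := if τ = 0 then SignType.sign x else τ

lemma continuous_cost (τ : SignType) : Continuous (cost τ) := by
  unfold cost
  split_ifs
  · exact continuous_abs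
  · fun_prop

lemma cost_add_eventually (τ : SignType) (x y : ℝ) :
    ∀ᶠ ε in 𝓝[>] (0 : ℝ), cost τ (x + ε * y) = cost τ x + ε * cost (dsign τ x) y := by
  by_cases hτ : τ = 0
  · subst hτ
    rcases lt_trichotomy x 0 with hx | hx | hx
    · have h1 : ∀ᶠ ε in 𝓝 (0 : ℝ), x + ε * y < 0 := by
        have : ContinuousAt (fun ε : ℝ => x + ε * y) 0 := by fun_prop
        exact this.eventually_lt continuousAt_const (by simpa using hx)
      filter_upwards [nhdsWithin_le_nhds h1] with ε hε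
      simp [cost, dsign, sign_neg hx, abs_of_neg hε, abs_of_neg hx]
      ring
    · subst hx
      filter_upwards [self_mem_nhdsWithin] with ε hε
      have hε' : (0 : ℝ) < ε := hε
      simp [cost, dsign, abs_mul, abs_of_pos hε']
    · have h1 : ∀ᶠ ε in 𝓝 (0 : ℝ), 0 < x + ε * y := by
        have : ContinuousAt (fun ε : ℝ => x + ε * y) 0 := by fun_prop
        exact continuousAt_const.eventually_lt this (by simpa using hx)
      filter_upwards [nhdsWithin_le_nhds h1] with ε hε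
      simp [cost, dsign, sign_pos hx, abs_of_pos hε, abs_of_pos hx]
  · refine Eventually.of_forall fun ε => ?_
    simp [cost, dsign, hτ]
    ring

theorem exists_stationary {ι ε : Type*} [Fintype ι] (E0 : Finset ε) (c : ε → ℝ)
    (lam : ε → (ι → ℝ) →ₗ[ℝ] ℝ) (τ : ε → SignType) (m : ℝ)
    (hbdd : ∀ u, m ≤ ∑ e ∈ E0, cost (τ e) (c e + lam e u)) :
    ∃ u : ι → ℝ, ∀ χ, 0 ≤ ∑ e ∈ E0, cost (dsign (τ e) (c e + lam e u)) (lam e χ) := by
  classical
  set J : (ι → ℝ) → ℝ := fun u => ∑ e ∈ E0, cost (τ e) (c e + lam e u) with hJ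
  have hJc : Continuous J := by
    refine continuous_finsetSum _ fun e _ => (continuous_cost _).comp ?_
    exact continuous_const.add (lam e).continuous_of_finiteDimensional
  set C : ℝ := J 0 - m with hC
  have hC0 : 0 ≤ C := sub_nonneg.2 (hbdd 0)
  -- approximate stationary points
  have key : ∀ η : ℝ, 0 < η → ∃ u : ι → ℝ, ∀ χ,
      -(2 * η * (C + 1) * ‖χ‖) ≤ ∑ e ∈ E0, cost (dsign (τ e) (c e + lam e u)) (lam e χ) := by
    intro η hη
    have hcont : Continuous fun u => J u + η ^ 2 * ‖u‖ ^ 2 := by fun_prop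
    have htend : Tendsto (fun u => J u + η ^ 2 * ‖u‖ ^ 2) (cocompact (ι → ℝ)) atTop := by
      have h1 : Tendsto (fun u : ι → ℝ => m + η ^ 2 * ‖u‖ ^ 2) (cocompact (ι → ℝ)) atTop := by
        refine tendsto_atTop_add_const_left _ _ ?_
        refine Tendsto.const_mul_atTop (by positivity) ?_
        exact (tendsto_pow_atTop two_ne_zero).comp tendsto_norm_cocompact_atTop
      exact tendsto_atTop_mono (fun u => by have := hbdd u; simp only [hJ]; linarith) h1
    obtain ⟨u, hu⟩ := hcont.exists_forall_le htend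
    refine ⟨u, fun χ => ?_⟩
    have hu0 : η ^ 2 * ‖u‖ ^ 2 ≤ C := by
      have h1 := hu 0
      have h2 := hbdd u
      simp only [norm_zero] at h1
      simp only [hC, hJ] at *
      nlinarith
    have hu1 : η * ‖u‖ ≤ C + 1 := by nlinarith [sq_nonneg (η * ‖u‖ - 1)]
    set D := ∑ e ∈ E0, cost (dsign (τ e) (c e + lam e u)) (lam e χ) with hD
    have hev : ∀ᶠ t in 𝓝[>] (0 : ℝ), J (u + t • χ) = J u + t * D := by
      have : ∀ᶠ t in 𝓝[>] (0 : ℝ), ∀ e ∈ E0, cost (τ e) ((c e + lam e u) + t * lam e χ) =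
          cost (τ e) (c e + lam e u) + t * cost (dsign (τ e) (c e + lam e u)) (lam e χ) :=
        (eventually_all_finset E0).2 fun e _ => cost_add_eventually _ _ _
      filter_upwards [this] with t ht
      simp only [hJ, hD, Finset.mul_sum, ← Finset.sum_add_distrib]
      refine Finset.sum_congr rfl fun e he => ?_
      rw [← ht e he, map_add, map_smul, smul_eq_mul, add_assoc]
    have hev2 : ∀ᶠ t in 𝓝[>] (0 : ℝ),
        0 ≤ D + 2 * η * (C + 1) * ‖χ‖ + t * (η ^ 2 * ‖χ‖ ^ 2) := by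
      filter_upwards [hev, self_mem_nhdsWithin] with t ht ht0
      have ht0' : (0 : ℝ) < t := ht0
      have h1 := hu (u + t • χ)
      simp only [ht] at h1
      have h2 : ‖u + t • χ‖ ≤ ‖u‖ + t * ‖χ‖ := by
        refine (norm_add_le _ _).trans ?_
        rw [norm_smul, Real.norm_eq_abs, abs_of_pos ht0']
      have h3 : ‖u + t • χ‖ ^ 2 ≤ (‖u‖ + t * ‖χ‖) ^ 2 := by gcongr
      have h4 : η ^ 2 * ‖u + t • χ‖ ^ 2 ≤ η ^ 2 * (‖u‖ + t * ‖χ‖) ^ 2 := by gcongr
      have h5 : η * (η * ‖u‖) * ‖χ‖ ≤ η * (C + 1) * ‖χ‖ := by gcongr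
      have h6 : 0 ≤ t * (D + 2 * η * (η * ‖u‖) * ‖χ‖ + t * (η ^ 2 * ‖χ‖ ^ 2)) := by nlinarith
      have h7 := nonneg_of_mul_nonneg_right h6 |> fun _ => (mul_nonneg_iff_of_pos_left ht0').1 h6
      nlinarith
    have hlim : Tendsto (fun t : ℝ => D + 2 * η * (C + 1) * ‖χ‖ + t * (η ^ 2 * ‖χ‖ ^ 2))
        (𝓝[>] 0) (𝓝 (D + 2 * η * (C + 1) * ‖χ‖ + 0 * (η ^ 2 * ‖χ‖ ^ 2))) := by
      refine Tendsto.mono_left ?_ nhdsWithin_le_nhds
      exact Continuous.tendsto (by fun_prop) 0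
    have := ge_of_tendsto hlim hev2
    linarith
  choose u hu using fun n : ℕ => key (1 / ((n : ℝ) + 1)) (by positivity)
  let P : ℕ → (E0 → SignType) := fun n e => dsign (τ e) (c e + lam e (u n))
  obtain ⟨p, hp⟩ := Finite.exists_infinite_fiber P
  have hinf : (P ⁻¹' {p}).Infinite := Set.infinite_coe_iff.1 hp
  obtain ⟨n0, hn0⟩ := hinf.nonempty
  refine ⟨u n0, fun χ => ?_⟩
  set D := ∑ e ∈ E0, cost (dsign (τ e) (c e + lam e (u n0))) (lam e χ) with hD
  have hfreq : ∃ᶠ n : ℕ in atTop, -(2 * (1 / ((n : ℝ) + 1)) * (C + 1) * ‖χ‖) ≤ D := by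
    have h1 : ∃ᶠ n : ℕ in atTop, n ∈ P ⁻¹' {p} := by
      rw [← Nat.cofinite_eq_atTop]
      exact Set.infinite_iff_frequently_cofinite.1 hinf
    refine h1.mono fun n hn => ?_
    have h2 : P n = P n0 := (Set.mem_singleton_iff.1 hn).trans (Set.mem_singleton_iff.1 hn0).symm
    refine (hu n χ).trans (le_of_eq ?_)
    refine Finset.sum_congr rfl fun e he => ?_
    have := congrFun h2 ⟨e, he⟩
    simp only [P] at this
    rw [this]
  have hlim : Tendsto (fun n : ℕ => -(2 * (1 / ((n : ℝ) + 1)) * (C + 1) * ‖χ‖)) atTop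
      (𝓝 (-(2 * 0 * (C + 1) * ‖χ‖))) :=
    (((tendsto_one_div_add_atTop_nhds_zero_nat.const_mul 2).mul_const _).mul_const _).neg
  have := le_of_tendsto_of_frequently hlim hfreq
  simpa using this

end Pool.Agent.MP_46f5ab_gt

end

section

/-! Heights of least total variation on a graph, tested on finite vertex sets of a covering graph. -/

namespace Pool.Agent.MP_46f5ab_gt

open Classical in
/-- `1` if the edge leaves `D`, `-1` if it enters `D`, and `0` otherwise. -/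
noncomputable def outf {V E : Type*} (s t : E → V) (D : Set V) (e : E) : ℝ :=
  (if s e ∈ D then 1 else 0) - (if t e ∈ D then 1 else 0)

open Classical in
/-- The forced sign of an edge with an end point in `Low`. -/
noncomputable def lowSign {V E : Type*} (s t : E → V) (Low : Set V) (e : E) : SignType :=
  if t e ∈ Low then 1 else if s e ∈ Low then -1 else 0

lemma cost_zero (τ : SignType) : cost τ 0 = 0 := by simp [cost]

lemma cost_le_abs (τ : SignType) (x : ℝ) : cost τ x ≤ |x| := by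
  unfold cost
  rcases τ with _ | _ | _
  · simp
  · simpa using neg_le_abs x
  · simpa using le_abs_self x

lemma cost_add_le (τ : SignType) (x y : ℝ) : cost τ (x + y) ≤ cost τ x + cost τ y := by
  unfold cost
  split_ifs
  · exact abs_add_le _ _
  · exact (mul_add _ _ _).le

lemma cost_sum_le {α : Type*} (τ : SignType) (S : Finset α) (f : α → ℝ) :
    cost τ (∑ a ∈ S, f a) ≤ ∑ a ∈ S, cost τ (f a) := by
  classical
  induction S using Finset.induction_on with
  | empty => simp [cost_zero]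
  | insert a S ha ih =>
    rw [Finset.sum_insert ha, Finset.sum_insert ha]
    exact (cost_add_le _ _ _).trans (by linarith)

section

variable {V E : Type*} (s t : E → V) (W : Finset V) (Low : Set V) (E0 : Finset E)

lemma tight_nonpos (hT : ∀ D : Finset V, D ⊆ W →
      0 ≤ ∑ e ∈ E0, cost (lowSign s t Low e) (-outf s t D e)) :
    ∀ (n : ℕ) (w : V → ℝ), (∀ x, w x ≤ 0) → (∀ x, x ∉ W → w x = 0) →
      (W.filter fun x => w x < 0).card = n →
      0 ≤ ∑ e ∈ E0, cost (lowSign s t Low e) (w (s e) - w (t e)) := by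
  classical
  intro n
  induction n using Nat.strong_induction_on with
  | _ n ih =>
  intro w hw hW hn
  set D := W.filter fun x => w x < 0 with hD
  have hmemD : ∀ x, x ∈ D ↔ w x < 0 := by
    intro x
    simp only [hD, Finset.mem_filter]
    refine ⟨fun h => h.2, fun h => ⟨?_, h⟩⟩
    by_contra hx
    exact h.ne (hW x hx)
  have hnot : ∀ x, x ∉ D → w x = 0 := fun x hx =>
    le_antisymm (hw x) (not_lt.1 fun h => hx ((hmemD x).2 h))
  rcases D.eq_empty_or_nonempty with hDe | hDn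
  · have : ∀ x, w x = 0 := fun x => hnot x (by simp [hDe])
    simp [this, cost_zero]
  · obtain ⟨x0, hx0, hmax⟩ := D.exists_max_image w hDn
    set m := w x0 with hm
    have hm0 : m < 0 := (hmemD x0).1 hx0
    let w' : V → ℝ := fun x => if x ∈ D then w x - m else 0
    have hw' : ∀ x, w' x ≤ 0 := by
      intro x
      simp only [w']
      split_ifs with h
      · linarith [hmax x h]
      · exact le_rfl
    have hW' : ∀ x, x ∉ W → w' x = 0 := by
      intro x hx
      have : x ∉ D := fun h => hx (Finset.mem_filter.1 h).1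
      simp [w', this]
    have hcard : (W.filter fun x => w' x < 0).card < n := by
      rw [← hn]
      refine Finset.card_lt_card ⟨fun x hx => ?_, fun h => ?_⟩
      · have h2 := (Finset.mem_filter.1 hx).2
        by_contra h
        simp [w', h] at h2
      · have h2 := (Finset.mem_filter.1 (h hx0)).2
        simp [w', hx0, hm] at h2
    have h1 := ih _ hcard w' hw' hW' rfl
    have h2 := hT D (Finset.filter_subset _ _)
    have h3 : ∀ e, cost (lowSign s t Low e) (w (s e) - w (t e)) =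
        cost (lowSign s t Low e) (w' (s e) - w' (t e)) +
          (-m) * cost (lowSign s t Low e) (-outf s t D e) := by
      intro e
      generalize lowSign s t Low e = τ
      by_cases hs : s e ∈ D <;> by_cases ht : t e ∈ D
      · simp [w', outf, hs, ht, cost_zero]
      · have a1 := hmax _ hs
        have a2 := (hmemD _).1 hs
        simp only [w', outf, hs, ht, hnot _ ht, Finset.mem_coe, if_true, if_false, cost]
        split_ifs
        · rw [abs_of_nonpos (by linarith), abs_of_nonpos (by linarith), abs_of_nonpos (by linarith)]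
          ring
        · ring
      · have a1 := hmax _ ht
        have a2 := (hmemD _).1 ht
        simp only [w', outf, hs, ht, hnot _ hs, Finset.mem_coe, if_true, if_false, cost]
        split_ifs
        · rw [abs_of_nonneg (by linarith), abs_of_nonneg (by linarith), abs_of_nonneg (by linarith)]
          ring
        · ring
      · simp [w', outf, hs, ht, hnot _ hs, hnot _ ht, cost_zero]
    simp only [h3, Finset.sum_add_distrib, ← Finset.mul_sum]
    have : 0 ≤ -m := by linarith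
    positivity

lemma tight_all (hWL : ∀ x ∈ W, x ∉ Low) (hT : ∀ D : Finset V, D ⊆ W →
      0 ≤ ∑ e ∈ E0, cost (lowSign s t Low e) (-outf s t D e))
    (w : V → ℝ) (hW : ∀ x, x ∉ W → w x = 0) :
    0 ≤ ∑ e ∈ E0, cost (lowSign s t Low e) (w (s e) - w (t e)) := by
  classical
  have h1 := tight_nonpos s t W Low E0 hT _ (fun x => min (w x) 0) (fun x => min_le_right _ _)
    (fun x hx => by simp [hW x hx]) rfl
  refine h1.trans (Finset.sum_le_sum fun e _ => ?_)
  unfold lowSign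
  split_ifs with ht hs
  · have : w (t e) = 0 := hW _ fun h => hWL _ h ht
    simp [cost, this]
  · have : w (s e) = 0 := hW _ fun h => hWL _ h hs
    simp [cost, this]
  · simp only [cost, if_true]
    exact abs_min_sub_min_le_max _ _ _ _ |>.trans (by simp)

end

theorem graph_opt {V E V' E' : Type*} (s t : E → V) (W : Finset V) (Low : Set V) (E0 : Finset E)
    (hWL : ∀ x ∈ W, x ∉ Low) (hE0 : ∀ e, s e ∈ W ∨ t e ∈ W → e ∈ E0) (c : E → ℝ)
    (hT : ∀ D : Finset V, D ⊆ W → 0 ≤ ∑ e ∈ E0, cost (lowSign s t Low e) (-outf s t D e))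
    (s' t' : E' → V') (pV : V' → V) (pE : E' → E)
    (hps : ∀ e, s (pE e) = pV (s' e)) (hpt : ∀ e, t (pE e) = pV (t' e))
    (hcs : ∀ x e, s e = pV x → ∃! e', pE e' = e ∧ s' e' = x)
    (hct : ∀ x e, t e = pV x → ∃! e', pE e' = e ∧ t' e' = x) :
    ∃ u : V → ℝ, ∀ (D : Finset V') (E1 : Finset E'), (∀ x ∈ D, pV x ∈ W) →
      (∀ e, s' e ∈ D ∨ t' e ∈ D → e ∈ E1) →
      0 ≤ ∑ e ∈ E1, cost (dsign (lowSign s t Low (pE e)) (c (pE e) + (u (s (pE e)) - u (t (pE e)))))
        (-outf s' t' D e) := by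
  classical
  let ext : (W → ℝ) →ₗ[ℝ] (V → ℝ) :=
    { toFun := fun u x => if h : x ∈ W then u ⟨x, h⟩ else 0
      map_add' := fun u v => by
        funext x
        by_cases h : x ∈ W <;> simp [h]
      map_smul' := fun a u => by
        funext x
        by_cases h : x ∈ W <;> simp [h] }
  have hext0 : ∀ u x, x ∉ W → ext u x = 0 := fun u x hx => by simp [ext, hx]
  let lam : E → (W → ℝ) →ₗ[ℝ] ℝ := fun e =>
    ((LinearMap.proj (s e) : (V → ℝ) →ₗ[ℝ] ℝ) - LinearMap.proj (t e)) ∘ₗ ext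
  have hlam : ∀ e u, lam e u = ext u (s e) - ext u (t e) := fun e u => rfl
  obtain ⟨u, hu⟩ := exists_stationary E0 c lam (lowSign s t Low) (-∑ e ∈ E0, |c e|) (by
    intro u
    have h1 := tight_all s t W Low E0 hWL hT (ext u) (hext0 u)
    have h2 : ∀ e ∈ E0, cost (lowSign s t Low e) (ext u (s e) - ext u (t e)) ≤
        cost (lowSign s t Low e) (c e + lam e u) + |c e| := by
      intro e _
      have := cost_add_le (lowSign s t Low e) (c e + lam e u) (-c e)
      have h3 := cost_le_abs (lowSign s t Low e) (-c e)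
      rw [abs_neg] at h3
      rw [show c e + lam e u + -c e = ext u (s e) - ext u (t e) by rw [hlam]; ring] at this
      linarith
    have h4 := Finset.sum_le_sum h2
    rw [Finset.sum_add_distrib] at h4
    linarith)
  refine ⟨ext u, fun D E1 hD hE1 => ?_⟩
  let χ : W → ℝ := fun x => -((D.filter fun y => pV y = x).card : ℝ)
  have hχ : ∀ x, ext χ x = -((D.filter fun y => pV y = x).card : ℝ) := by
    intro x
    by_cases h : x ∈ W
    · simp [ext, h, χ]
    · rw [hext0 _ _ h]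
      have : (D.filter fun y => pV y = x) = ∅ := by
        refine Finset.filter_eq_empty_iff.2 fun y hy hxy => h (hxy ▸ hD y hy)
      simp [this]
  have hcount : ∀ (a : E → V) (a' : E' → V'), (∀ e, a (pE e) = pV (a' e)) →
      (∀ x e, a e = pV x → ∃! e', pE e' = e ∧ a' e' = x) → (∀ e, a' e ∈ D → e ∈ E1) → ∀ e,
      ((D.filter fun y => pV y = a e).card : ℝ) =
        ∑ e' ∈ E1.filter (fun e' => pE e' = e), if a' e' ∈ (D : Set V') then (1 : ℝ) else 0 := by
    intro a a' hpa hca hE e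
    rw [Finset.sum_boole, Finset.filter_filter]
    congr 1
    symm
    refine Finset.card_bij (fun e' _ => a' e') ?_ ?_ ?_
    · intro e' he'
      obtain ⟨-, h1, h2⟩ := Finset.mem_filter.1 he'
      exact Finset.mem_filter.2 ⟨h2, by rw [← hpa, h1]⟩
    · intro e1 he1 e2 he2 h
      obtain ⟨-, h1, -⟩ := Finset.mem_filter.1 he1
      obtain ⟨-, h2, -⟩ := Finset.mem_filter.1 he2
      obtain ⟨e3, -, huniq⟩ := hca (a' e1) e (by rw [← hpa, h1])
      exact (huniq e1 ⟨h1, rfl⟩).trans (huniq e2 ⟨h2, h.symm⟩).symm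
    · intro y hy
      obtain ⟨h1, h2⟩ := Finset.mem_filter.1 hy
      obtain ⟨e', ⟨h3, h4⟩, -⟩ := hca y e h2.symm
      exact ⟨e', Finset.mem_filter.2 ⟨hE e' (h4 ▸ h1), h3, by simpa [h4] using h1⟩, h4⟩
  have hlamχ : ∀ e, lam e χ = ∑ e' ∈ E1.filter (fun e' => pE e' = e), -outf s' t' D e' := by
    intro e
    rw [hlam, hχ, hχ, hcount s s' hps hcs (fun e h => hE1 e (Or.inl h)),
      hcount t t' hpt hct (fun e h => hE1 e (Or.inr h))]
    simp only [outf, neg_sub, Finset.sum_sub_distrib]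
    ring
  refine (hu χ).trans ?_
  set F : E' → ℝ := fun e => cost (dsign (lowSign s t Low (pE e))
    (c (pE e) + (ext u (s (pE e)) - ext u (t (pE e))))) (-outf s' t' D e) with hF
  have h1 : ∑ e ∈ E0, cost (dsign (lowSign s t Low e) (c e + lam e u)) (lam e χ) ≤
      ∑ e ∈ E0, ∑ e' ∈ E1.filter (fun e' => pE e' = e), F e' := by
    refine Finset.sum_le_sum fun e _ => ?_
    rw [hlamχ]
    refine (cost_sum_le _ _ _).trans (le_of_eq (Finset.sum_congr rfl fun e' he' => ?_))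
    simp only [hF, (Finset.mem_filter.1 he').2, hlam]
  refine h1.trans (le_of_eq ?_)
  refine (Finset.sum_fiberwise_eq_sum_filter E1 E0 pE F).trans ?_
  refine Finset.sum_subset (Finset.filter_subset _ _) fun e he hne => ?_
  have h2 : pE e ∉ E0 := fun h => hne (Finset.mem_filter.2 ⟨he, h⟩)
  have h3 : s' e ∉ D := fun h => h2 (hE0 _ (Or.inl (by rw [hps]; exact hD _ h)))
  have h4 : t' e ∉ D := fun h => h2 (hE0 _ (Or.inr (by rw [hpt]; exact hD _ h)))
  simp [hF, outf, h3, h4, cost_zero]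

end Pool.Agent.MP_46f5ab_gt

end

section

/-! Counting cut edges along one line. -/

namespace Pool.Agent.MP_46f5ab_gt

lemma sum_nonpos_of_one_each (κ : ℤ → ℝ) (S : Finset ℤ) (i0 j : ℤ) (hj : j ∈ S) (hne : j ≠ i0)
    (hκj : κ j ≤ -1) (hκ0 : κ i0 ≤ 1) (hκ : ∀ i, i ≠ i0 → κ i ≤ 0) : ∑ i ∈ S, κ i ≤ 0 := by
  have h1 : ∑ i ∈ S, κ i ≤ ∑ i ∈ S, ((if i = j then (-1 : ℝ) else 0) + if i = i0 then 1 else 0) := by
    refine Finset.sum_le_sum fun i _ => ?_
    by_cases h1 : i = j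
    · subst h1
      simpa [hne] using hκj
    · by_cases h2 : i = i0
      · subst h2
        simpa [h1] using hκ0
      · simpa [h1, h2] using hκ i h2
  refine h1.trans ?_
  rw [Finset.sum_add_distrib, Finset.sum_ite_eq', Finset.sum_ite_eq', if_pos hj]
  split_ifs <;> norm_num

lemma exists_step_down (P : ℤ → Prop) (a b : ℤ) (hab : a ≤ b) (ha : P a) (hb : ¬ P b) :
    ∃ j, a ≤ j ∧ j < b ∧ P j ∧ ¬ P (j + 1) := by
  induction b, hab using Int.leInduction with
  | base => exact absurd ha hb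
  | succ b hab ih =>
    by_cases h : P b
    · exact ⟨b, hab, by omega, h, hb⟩
    · obtain ⟨j, h1, h2, h3⟩ := ih h
      exact ⟨j, h1, by omega, h3⟩

section

variable (In Dd : ℤ → Prop) (κ : ℤ → ℝ) (S : Finset ℤ)

lemma exists_ends (hfin : {i | In i}.Finite) (i0 : ℤ) (hi0 : In i0) :
    ∃ a b, In a ∧ In b ∧ ∀ i, In i → a ≤ i ∧ i ≤ b := by
  obtain ⟨a, ha, ha'⟩ := Set.exists_min_image _ id hfin ⟨i0, hi0⟩
  obtain ⟨b, hb, hb'⟩ := Set.exists_max_image _ id hfin ⟨i0, hi0⟩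
  exact ⟨a, b, ha, hb, fun i hi => ⟨ha' i hi, hb' i hi⟩⟩

lemma line_sum_nonpos (hDI : ∀ i, Dd i → In i) (hfin : {i | In i}.Finite)
    (hconv : ∀ i j k, i ≤ j → j ≤ k → In i → In k → In j)
    (hends : ∀ i k, In i → ¬ In (i - 1) → In k → ¬ In (k + 1) → ¬ (Dd i ∧ Dd k))
    (hκ1 : ∀ i, κ i ≤ 1) (hκ0 : ∀ i, (Dd i ↔ Dd (i + 1)) → κ i = 0)
    (hκm : ∀ i, In i → In (i + 1) → ¬ (Dd i ↔ Dd (i + 1)) → κ i ≤ -1)
    (hS : ∀ i, Dd i ∨ Dd (i + 1) → i ∈ S) : ∑ i ∈ S, κ i ≤ 0 := by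
  by_cases hD : ∃ i, Dd i
  swap
  · refine Finset.sum_nonpos fun i _ => (hκ0 i ?_).le
    exact ⟨fun h => absurd ⟨_, h⟩ hD, fun h => absurd ⟨_, h⟩ hD⟩
  obtain ⟨i0, hi0⟩ := hD
  obtain ⟨a, b, ha, hb, hab⟩ := exists_ends In hfin i0 (hDI _ hi0)
  have hna : ¬ In (a - 1) := fun h => by have := (hab _ h).1; omega
  have hnb : ¬ In (b + 1) := fun h => by have := (hab _ h).2; omega
  have hgen : ∀ i, (i = a - 1 → ¬ Dd a) → (i = b → ¬ Dd b) → κ i ≤ 0 := by
    intro i h1 h2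
    by_cases hc : Dd i ↔ Dd (i + 1)
    · exact (hκ0 i hc).le
    by_cases hi : In i <;> by_cases hi' : In (i + 1)
    · linarith [hκm i hi hi' hc]
    · have hib : i = b := by
        by_contra hne
        have := hab i hi
        exact hi' (hconv i (i + 1) b (by omega) (by omega) hi hb)
      exact absurd ⟨fun h => absurd (hib ▸ h) (h2 hib), fun h => absurd (hDI _ h) hi'⟩ hc
    · have hia : i = a - 1 := by
        by_contra hne
        have := hab _ hi'
        exact hi (hconv a i (i + 1) (by omega) (by omega) ha hi')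
      have hia' : i + 1 = a := by omega
      exact absurd ⟨fun h => absurd (hDI _ h) hi, fun h => absurd (hia' ▸ h) (h1 hia)⟩ hc
    · exact absurd ⟨fun h => absurd (hDI _ h) hi, fun h => absurd (hDI _ h) hi'⟩ hc
  have hle : a ≤ b := (hab a ha).2
  by_cases hDa : Dd a
  · have hDb : ¬ Dd b := fun h => hends a b ha hna hb hnb ⟨hDa, h⟩
    obtain ⟨j, h1, h2, h3, h4⟩ := exists_step_down Dd a b hle hDa hDb
    refine sum_nonpos_of_one_each κ S (a - 1) j (hS j (Or.inl h3)) (by omega) ?_ (hκ1 _) ?_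
    · exact hκm j (hDI _ h3) (hconv a _ b (by omega) (by omega) ha hb) fun h => h4 (h.1 h3)
    · exact fun i hi => hgen i (fun h => absurd h hi) fun _ => hDb
  · by_cases hDb : Dd b
    · obtain ⟨j, h1, h2, h3, h4⟩ := exists_step_down (fun i => ¬ Dd i) a b hle hDa (not_not.2 hDb)
      have h5 : Dd (j + 1) := not_not.1 h4
      refine sum_nonpos_of_one_each κ S b j (hS j (Or.inr h5)) (by omega) ?_ (hκ1 _) ?_
      · exact hκm j (hconv a _ b (by omega) (by omega) ha hb) (hDI _ h5) fun h => h3 (h.2 h5)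
      · exact fun i hi => hgen i (fun _ => hDa) fun h => absurd h hi
    · exact Finset.sum_nonpos fun i _ => hgen i (fun _ => hDa) fun _ => hDb

lemma line_sum_neg (hDI : ∀ i, Dd i → In i) (hfin : {i | In i}.Finite)
    (hconv : ∀ i j k, i ≤ j → j ≤ k → In i → In k → In j)
    (hends : ∀ i, In i → ¬ In (i - 1) → ¬ Dd i) (hends' : ∀ k, In k → ¬ In (k + 1) → ¬ Dd k)
    (hκ0 : ∀ i, (Dd i ↔ Dd (i + 1)) → κ i = 0)
    (hκm : ∀ i, In i → In (i + 1) → ¬ (Dd i ↔ Dd (i + 1)) → κ i ≤ -1)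
    (hS : ∀ i, Dd i ∨ Dd (i + 1) → i ∈ S) (hD : ∃ i, Dd i) : ∑ i ∈ S, κ i < 0 := by
  obtain ⟨i0, hi0⟩ := hD
  obtain ⟨a, b, ha, hb, hab⟩ := exists_ends In hfin i0 (hDI _ hi0)
  have hnb : ¬ In (b + 1) := fun h => by have := (hab _ h).2; omega
  have hgen : ∀ i, κ i ≤ 0 := by
    intro i
    by_cases hc : Dd i ↔ Dd (i + 1)
    · exact (hκ0 i hc).le
    by_cases hi : In i <;> by_cases hi' : In (i + 1)
    · linarith [hκm i hi hi' hc]
    · exact absurd ⟨fun h => absurd h (hends' i hi hi'), fun h => absurd (hDI _ h) hi'⟩ hc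
    · exact absurd ⟨fun h => absurd (hDI _ h) hi,
        fun h => absurd h (hends _ hi' (by simpa using hi))⟩ hc
    · exact absurd ⟨fun h => absurd (hDI _ h) hi, fun h => absurd (hDI _ h) hi'⟩ hc
  obtain ⟨j, h1, h2, h3, h4⟩ :=
    exists_step_down Dd i0 b (hab _ (hDI _ hi0)).2 hi0 (hends' b hb hnb)
  have h5 : κ j ≤ -1 :=
    hκm j (hDI _ h3) (hconv j _ b (by omega) (by omega) (hDI _ h3) hb) fun h => h4 (h.1 h3)
  exact Finset.sum_neg' (fun i _ => hgen i) ⟨j, hS j (Or.inl h3), by linarith⟩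

end

end Pool.Agent.MP_46f5ab_gt

end
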